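import Pool.Agent.Helper41_TOR.Ho

set_option autoImplicit false

namespace Pool.Agent.TOR

open CategoryTheory CategoryTheory.Limits Rep Representation

universe u

variable {k G H : Type u} [CommRing k] [Group G] [Group H]

theorem se_mk {X : ShortComplex (Rep.{u} k G)} (h1 : Function.Injective X.f.hom)
    (h2 : ∀ x, X.g.hom x = 0 → ∃ y, X.f.hom y = x) (h3 : Function.Surjective X.g.hom) :
    X.ShortExact where
  exact := rep_exact h2
  mono_f := (Rep.mono_iff_injective _).2 h1
  epi_g := (Rep.epi_iff_surjective _).2 h3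

theorem se_inj {X : ShortComplex (Rep.{u} k G)} (hX : X.ShortExact) :
    Function.Injective X.f.hom := (Rep.mono_iff_injective _).1 hX.mono_f

theorem se_surj {X : ShortComplex (Rep.{u} k G)} (hX : X.ShortExact) :
    Function.Surjective X.g.hom := (Rep.epi_iff_surjective _).1 hX.epi_g

theorem exact_elt {S : ShortComplex (Rep.{u} k G)} (h : S.Exact) (x : S.X₂)
    (hx : S.g.hom x = 0) : ∃ y : S.X₁, S.f.hom y = x := by
  rw [← ShortComplex.exact_map_iff_of_faithful S (forget₂ (Rep.{u} k G) (ModuleCat.{u} k)),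
    ShortComplex.moduleCat_exact_iff] at h
  exact h x hx

theorem comp_zero_elt (S : ShortComplex (Rep.{u} k G)) (x : S.X₁) :
    S.g.hom (S.f.hom x) = 0 := by
  have h := S.zero
  exact congrArg (fun φ => φ.hom x) h

/-- restriction of a short complex along a group homomorphism -/
noncomputable def resS (φ : H →* G) (X : ShortComplex (Rep.{u} k G)) :
    ShortComplex (Rep.{u} k H) := X.map (resFunctor φ)

theorem resS_exact (φ : H →* G) {X : ShortComplex (Rep.{u} k G)} (hX : X.ShortExact) :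
    (resS φ X).ShortExact := by
  have h1 := se_inj hX
  have h3 := se_surj hX
  refine se_mk ?_ ?_ ?_
  · exact h1
  · intro x hx
    exact exact_elt hX.exact x hx
  · exact h3

/-- naturality of the connecting map along a homomorphism of groups -/
theorem delta_nat (φ : G →* H) {X : ShortComplex (Rep.{u} k G)} {Y : ShortComplex (Rep.{u} k H)}
    (hX : X.ShortExact) (hY : Y.ShortExact) (τ₁ : X.X₁ ⟶ res φ Y.X₁) (τ₂ : X.X₂ ⟶ res φ Y.X₂)
    (τ₃ : X.X₃ ⟶ res φ Y.X₃) (c₁ : ∀ a, Y.f.hom (τ₁.hom a) = τ₂.hom (X.f.hom a))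
    (c₂ : ∀ a, Y.g.hom (τ₂.hom a) = τ₃.hom (X.g.hom a)) (n : ℕ) :
    groupHomology.δ hX (n + 1) n rfl ≫ groupHomology.map φ τ₁ n =
      groupHomology.map φ τ₃ (n + 1) ≫ groupHomology.δ hY (n + 1) n rfl := by
  let ψ : X.map (groupHomology.chainsFunctor k G) ⟶ Y.map (groupHomology.chainsFunctor k H) :=
    { τ₁ := groupHomology.chainsMap φ τ₁
      τ₂ := groupHomology.chainsMap φ τ₂
      τ₃ := groupHomology.chainsMap φ τ₃
      comm₁₂ := by
        change groupHomology.chainsMap φ τ₁ ≫ groupHomology.chainsMap (MonoidHom.id H) Y.f =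
          groupHomology.chainsMap (MonoidHom.id G) X.f ≫ groupHomology.chainsMap φ τ₂
        rw [← groupHomology.chainsMap_comp, ← groupHomology.chainsMap_comp]
        refine groupHomology.chainsMap_congr rfl ?_
        ext a
        exact c₁ a
      comm₂₃ := by
        change groupHomology.chainsMap φ τ₂ ≫ groupHomology.chainsMap (MonoidHom.id H) Y.g =
          groupHomology.chainsMap (MonoidHom.id G) X.g ≫ groupHomology.chainsMap φ τ₃
        rw [← groupHomology.chainsMap_comp, ← groupHomology.chainsMap_comp]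
        refine groupHomology.chainsMap_congr rfl ?_
        ext a
        exact c₂ a }
  exact HomologicalComplex.HomologySequence.δ_naturality ψ
      (groupHomology.map_chainsFunctor_shortExact hX)
      (groupHomology.map_chainsFunctor_shortExact hY) (n+1) n (by simp)

/-- functoriality, elementwise -/
theorem map_map {K : Type u} [Group K] (φ : G →* H) (ψ : H →* K) {A : Rep.{u} k G}
    {B : Rep.{u} k H} {C : Rep.{u} k K} (a : A ⟶ res φ B) (b : B ⟶ res ψ C)
    (c : A ⟶ res (ψ.comp φ) C) (hc : ∀ x, c.hom x = b.hom (a.hom x)) (n : ℕ) :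
    groupHomology.map (ψ.comp φ) c n = groupHomology.map φ a n ≫ groupHomology.map ψ b n := by
  rw [← groupHomology.map_comp]
  refine groupHomology.map_congr rfl ?_ n
  ext x
  exact hc x

/-- the map on homology as a linear map -/
noncomputable def gI (φ : G →* H) {A : Rep.{u} k G} {B : Rep.{u} k H} (f : A ⟶ res φ B) (n : ℕ) :
    groupHomology A n →ₗ[k] groupHomology B n :=
  (groupHomology.map φ f n).hom

/-- the map on homology induced by a map of coefficients -/
noncomputable def hI {A B : Rep.{u} k G} (f : A ⟶ B) (n : ℕ) :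
    groupHomology A n →ₗ[k] groupHomology B n :=
  (groupHomology.map (MonoidHom.id G) (B := B) f n).hom

/-- the connecting map as a linear map -/
noncomputable def dl {X : ShortComplex (Rep.{u} k G)} (hX : X.ShortExact) (n : ℕ) :
    groupHomology X.X₃ (n + 1) →ₗ[k] groupHomology X.X₁ n :=
  (groupHomology.δ hX (n + 1) n rfl).hom

theorem ex1 {X : ShortComplex (Rep.{u} k G)} (hX : X.ShortExact) (n : ℕ)
    (c : groupHomology X.X₁ n) (h : hI X.f n c = 0) : ∃ z, dl hX n z = c :=
  (ShortComplex.moduleCat_exact_iff _).1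
      (groupHomology.mapShortComplex₁_exact hX (i := n + 1) (j := n) rfl) c h

theorem ex1z {X : ShortComplex (Rep.{u} k G)} (hX : X.ShortExact) (n : ℕ)
    (z : groupHomology X.X₃ (n + 1)) : hI X.f n (dl hX n z) = 0 := by
  have h := (groupHomology.mapShortComplex₁ hX (i := n + 1) (j := n) rfl).zero
  have h2 := ModuleCat.hom_ext_iff.1 h
  have h3 := DFunLike.congr_fun h2 z
  exact h3

theorem ex2 {X : ShortComplex (Rep.{u} k G)} (hX : X.ShortExact) (n : ℕ)
    (c : groupHomology X.X₂ n) (h : hI X.g n c = 0) : ∃ z, hI X.f n z = c :=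
  (ShortComplex.moduleCat_exact_iff _).1
      (groupHomology.mapShortComplex₂_exact hX n) c h

theorem ex3 {X : ShortComplex (Rep.{u} k G)} (hX : X.ShortExact) (n : ℕ)
    (c : groupHomology X.X₃ (n + 1)) (h : dl hX n c = 0) : ∃ z, hI X.g (n + 1) z = c :=
  (ShortComplex.moduleCat_exact_iff _).1
      (groupHomology.mapShortComplex₃_exact hX (i := n + 1) (j := n) rfl) c h

theorem gI_comp {K : Type u} [Group K] (φ : G →* H) (ψ : H →* K) {A : Rep.{u} k G}
    {B : Rep.{u} k H} {C : Rep.{u} k K} (a : A ⟶ res φ B) (b : B ⟶ res ψ C)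
    (c : A ⟶ res (ψ.comp φ) C) (hc : ∀ x, c.hom x = b.hom (a.hom x)) (n : ℕ)
    (x : groupHomology A n) : gI ψ b n (gI φ a n x) = gI (ψ.comp φ) c n x := by
  have h := map_map φ ψ a b c hc n
  have h2 := ModuleCat.hom_ext_iff.1 h
  exact (DFunLike.congr_fun h2 x).symm

theorem gI_congr {φ ψ : G →* H} (hφ : ∀ g, φ g = ψ g) {A : Rep.{u} k G} {B : Rep.{u} k H}
    (a : A ⟶ res φ B) (b : A ⟶ res ψ B) (hc : ∀ x, a.hom x = b.hom x) (n : ℕ)
    (x : groupHomology A n) : gI φ a n x = gI ψ b n x := by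
  have h := groupHomology.map_congr (MonoidHom.ext hφ) (φ := a) (ψ := b)
    (LinearMap.ext hc) n
  exact DFunLike.congr_fun (ModuleCat.hom_ext_iff.1 h) x

theorem hI_eq_gI {A B : Rep.{u} k G} (f : A ⟶ B) (n : ℕ) (x : groupHomology A n) :
    hI f n x = gI (MonoidHom.id G) (B := B) f n x := rfl

theorem gI_hI {A : Rep.{u} k G} {B C : Rep.{u} k H} (φ : G →* H) (a : A ⟶ res φ B) (b : B ⟶ C)
    (c : A ⟶ res φ C) (hc : ∀ x, c.hom x = b.hom (a.hom x)) (n : ℕ)
    (x : groupHomology A n) : hI b n (gI φ a n x) = gI φ c n x :=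
  gI_comp φ (MonoidHom.id H) a b c hc n x

theorem hI_gI {A B : Rep.{u} k G} {C : Rep.{u} k H} (φ : G →* H) (a : A ⟶ B) (b : B ⟶ res φ C)
    (c : A ⟶ res φ C) (hc : ∀ x, c.hom x = b.hom (a.hom x)) (n : ℕ)
    (x : groupHomology A n) : gI φ b n (hI a n x) = gI φ c n x :=
  gI_comp (MonoidHom.id G) φ a b c hc n x

theorem gI_dl (φ : G →* H) {X : ShortComplex (Rep.{u} k G)} {Y : ShortComplex (Rep.{u} k H)}
    (hX : X.ShortExact) (hY : Y.ShortExact) (τ₁ : X.X₁ ⟶ res φ Y.X₁) (τ₂ : X.X₂ ⟶ res φ Y.X₂)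
    (τ₃ : X.X₃ ⟶ res φ Y.X₃) (c₁ : ∀ a, Y.f.hom (τ₁.hom a) = τ₂.hom (X.f.hom a))
    (c₂ : ∀ a, Y.g.hom (τ₂.hom a) = τ₃.hom (X.g.hom a)) (n : ℕ)
    (x : groupHomology X.X₃ (n + 1)) :
    gI φ τ₁ n (dl hX n x) = dl hY n (gI φ τ₃ (n + 1) x) := by
  have h := delta_nat φ hX hY τ₁ τ₂ τ₃ c₁ c₂ n
  exact DFunLike.congr_fun (ModuleCat.hom_ext_iff.1 h) x

theorem van_elt {A : Rep.{u} k G} {n : ℕ} (h : Van A n) (x : groupHomology A n) : x = 0 := by
  have := ModuleCat.subsingleton_of_isZero h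
  exact Subsingleton.elim _ _

theorem dl_inj {X : ShortComplex (Rep.{u} k G)} (hX : X.ShortExact) (n : ℕ)
    (h : Van X.X₂ (n + 1)) (x : groupHomology X.X₃ (n + 1)) (hx : dl hX n x = 0) : x = 0 := by
  obtain ⟨z, rfl⟩ := ex3 hX n x hx
  rw [van_elt h z, map_zero]

end Pool.Agent.TOR
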