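import Pool.Agent.Helper41_TOR.Tm
import Pool.Agent.Helper41_TOR.Se

set_option autoImplicit false

namespace Pool.Agent.TOR

open CategoryTheory CategoryTheory.Limits Rep Representation

universe u

section general

variable {k G : Type u} [CommRing k] [Group G]

/-- a cycle whose class is zero is a boundary -/
theorem pi_eq_zero (A : Rep.{u} k G) (i : ℕ) (z : groupHomology.cycles A i)
    (h : (groupHomology.π A i).hom z = 0) :
    ∃ y : (Fin (i + 1) → G) →₀ A, groupHomology.inhomogeneousChains.d A i y =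
      (groupHomology.iCycles A i z : (Fin i → G) →₀ A) := by
  let K := groupHomology.inhomogeneousChains A
  have hp : (ComplexShape.down ℕ).prev i = i + 1 := by simp
  have hS : (ShortComplex.mk (K.toCycles (i + 1) i) (K.homologyπ i)
      (K.toCycles_comp_homologyπ (i + 1) i)).Exact :=
    ShortComplex.exact_of_g_is_cokernel _ (K.homologyIsCokernel (i + 1) i hp)
  rw [ShortComplex.moduleCat_exact_iff] at hS
  obtain ⟨y, hy⟩ := hS z h
  refine ⟨y, ?_⟩
  have h2 := K.toCycles_i (i + 1) i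
  have h3 := congrArg (fun φ => φ.hom y) h2
  rw [groupHomology.inhomogeneousChains.d_def] at h3
  refine h3.symm.trans ?_
  exact congrArg (K.iCycles i).hom hy

end general

section zero

variable {N Γ N' Γ' U : Type} [Group N] [Group Γ] [Group N'] [Group Γ'] [CommGroup U]

theorem clear_zero {Λ R : Type} [CommRing Λ] [CommRing R] [Algebra Λ R] (M : Submonoid Λ)
    [IsLocalization M R] {X : Type} (e : X →₀ Λ)
    (h : Finsupp.mapRange.addMonoidHom (algebraMap Λ R : Λ →+ R) e = 0) : ∃ c ∈ M, c • e = 0 := by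
  classical
  have h1 : ∀ x, ∃ c : M, (c : Λ) * e x = 0 := by
    intro x
    have h2 : algebraMap Λ R (e x) = algebraMap Λ R 0 := by
      rw [map_zero]
      have := DFunLike.congr_fun h x
      simpa using this
    obtain ⟨c, hc⟩ := (IsLocalization.eq_iff_exists M R).1 h2
    exact ⟨c, by rw [hc, mul_zero]⟩
  choose c hc using h1
  refine ⟨∏ x ∈ e.support, (c x : Λ), ?_, ?_⟩
  · exact Submonoid.prod_mem _ fun x _ => (c x).2
  · ext x
    rw [Finsupp.smul_apply, smul_eq_mul, Finsupp.zero_apply]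
    by_cases hx : x ∈ e.support
    · rw [← Finset.prod_erase_mul _ _ hx, mul_assoc, hc, mul_zero]
    · rw [Finsupp.notMem_support_iff.1 hx, mul_zero]

theorem chain_torsion' (ι : N →* Γ) (hι : Function.Injective ι) (deg : Γ →* U)
    (hker : ∀ g, deg g = 1 ↔ g ∈ ι.range) (s : U → Γ) (hs : ∀ m, deg (s m) = m)
    (c : U → (N →* N)) (hc : ∀ m x, ι (c m x) = (s m)⁻¹ * ι x * s m)
    (R : Type) [CommRing R] [Algebra (MonoidAlgebra ℚ U) R] [Algebra ℚ R]
    [IsScalarTower ℚ (MonoidAlgebra ℚ U) R]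
    (M : Submonoid (MonoidAlgebra ℚ U)) [IsLocalization M R] (i : ℕ)
    (f : (Fin i → N) →₀ ℚ) (e : (Fin (i + 1) → Γ) →₀ R)
    (he : dch R ((algebraMap (MonoidAlgebra ℚ U) R : MonoidAlgebra ℚ U →* R).comp
      (uL deg)) i e = incC ι R i f) :
    ∃ p ∈ M, ∃ y : (Fin (i + 1) → N) →₀ ℚ,
      dN N i y = p.coeff.sum fun m q => q • Finsupp.mapDomain (fun g => c m ∘ g) f := by
  obtain ⟨p, hp, e', he'⟩ := clear_den (Λ := MonoidAlgebra ℚ U) (R := R)
    (X := Fin (i + 1) → Γ) M e
  have h0 : Finsupp.mapRange.addMonoidHom (algebraMap (MonoidAlgebra ℚ U) R :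
      MonoidAlgebra ℚ U →+ R) (dch (MonoidAlgebra ℚ U) (uL deg) i e' -
        p • incC ι (MonoidAlgebra ℚ U) i f) = 0 := by
    rw [map_sub, ← dch_map, he', dch_smul, he, incC_map, sub_self]
  obtain ⟨p', hp', h1⟩ := clear_zero (Λ := MonoidAlgebra ℚ U) (R := R)
    (X := Fin i → Γ) M _ h0
  have h1' : dch (MonoidAlgebra ℚ U) (uL deg) i (p' • e') =
      (p' * p) • incC ι (MonoidAlgebra ℚ U) i f := by
    rw [dch_smul, mul_smul]
    rw [smul_sub, sub_eq_zero] at h1
    exact h1
  refine ⟨p' * p, mul_mem hp' hp, Phi ι deg s (i + 1) (p' • e'), ?_⟩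
  have h2 := congrArg (Phi ι deg s i) h1'
  rw [Phi_d ι hι deg hker s hs, Phi_inc ι hι deg hker s c hc] at h2
  exact h2

/-- the identity as a map of rank one representations over j -/
noncomputable def jm (R : Type) [CommRing R] (j : Γ →* Γ') (u : Γ' →* R) :
    chRep R (u.comp j) ⟶ res j (chRep R u) :=
  ofHom ⟨LinearMap.id, fun _ => rfl⟩

/-- the homomorphism induced on H_i( ; ℚ) -/
noncomputable def hn (ν : N →* N') (i : ℕ) :
    groupHomology (Rep.trivial ℚ N ℚ) i →ₗ[ℚ] groupHomology (Rep.trivial ℚ N' ℚ) i :=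
  (groupHomology.map (A := Rep.trivial ℚ N ℚ) (B := Rep.trivial ℚ N' ℚ) ν
    (𝟙 (Rep.trivial ℚ N ℚ)) i).hom

/-- the same on cycles -/
noncomputable def zn (ν : N →* N') (i : ℕ) :
    groupHomology.cycles (Rep.trivial ℚ N ℚ) i →ₗ[ℚ] groupHomology.cycles (Rep.trivial ℚ N' ℚ) i :=
  (groupHomology.cyclesMap (A := Rep.trivial ℚ N ℚ) (B := Rep.trivial ℚ N' ℚ) ν
    (𝟙 (Rep.trivial ℚ N ℚ)) i).hom

theorem iCycles_zn (ν : N →* N') (i : ℕ) (z : groupHomology.cycles (Rep.trivial ℚ N ℚ) i) :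
    (groupHomology.iCycles (Rep.trivial ℚ N' ℚ) i (zn ν i z) : (Fin i → N') →₀ ℚ) =
      Finsupp.mapDomain (fun g => ν ∘ g)
        (groupHomology.iCycles (Rep.trivial ℚ N ℚ) i z : (Fin i → N) →₀ ℚ) := by
  have h1 := HomologicalComplex.cyclesMap_i (groupHomology.chainsMap (A := Rep.trivial ℚ N ℚ)
    (B := Rep.trivial ℚ N' ℚ) ν (𝟙 (Rep.trivial ℚ N ℚ))) i
  have h2 := congrArg (fun f => f.hom z) h1
  refine h2.trans ?_
  rw [groupHomology.chainsMap_f]
  change Finsupp.mapRange.linearMap (LinearMap.id : ℚ →ₗ[ℚ] ℚ)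
    (Finsupp.mapDomain (fun g => ν ∘ g)
        (groupHomology.iCycles (Rep.trivial ℚ N ℚ) i z : (Fin i → N) →₀ ℚ)) = _
  rw [Finsupp.mapRange.linearMap_id]
  rfl

theorem hn_pi (ν : N →* N') (i : ℕ) (z : groupHomology.cycles (Rep.trivial ℚ N ℚ) i) :
    hn ν i ((groupHomology.π (Rep.trivial ℚ N ℚ) i).hom z) =
      (groupHomology.π (Rep.trivial ℚ N' ℚ) i).hom (zn ν i z) := by
  have h := groupHomology.π_map (A := Rep.trivial ℚ N ℚ) (B := Rep.trivial ℚ N' ℚ) ν
    (𝟙 (Rep.trivial ℚ N ℚ)) i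
  exact congrArg (fun φ => φ.hom z) h

/-- the cycle of Γ with coefficients R coming from a cycle of N -/
theorem inc_cycle_ex (ι : N →* Γ) (R : Type) [CommRing R] [Algebra ℚ R] (u : Γ →* R)
    (hu : ∀ x : N, u (ι x) = 1) (i : ℕ) (z : groupHomology.cycles (Rep.trivial ℚ N ℚ) i) :
    ∃ w : groupHomology.cycles (chRep R u) i,
      (groupHomology.iCycles (chRep R u) i w : (Fin i → Γ) →₀ R) =
        incC ι R i (groupHomology.iCycles (Rep.trivial ℚ N ℚ) i z) := by
  let K := groupHomology.inhomogeneousChains (chRep R u)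
  have h := inc_cycle ι R u hu i z
  have hS := K.iCycles_d i ((ComplexShape.down ℕ).next i)
  have hE : (ShortComplex.mk (K.iCycles i) (K.d i ((ComplexShape.down ℕ).next i)) hS).Exact :=
    ShortComplex.exact_of_f_is_kernel _ (K.cyclesIsKernel i _ rfl)
  rw [ShortComplex.moduleCat_exact_iff] at hE
  obtain ⟨w, hw⟩ := hE _ h
  exact ⟨w, hw⟩

theorem jm_chain (R : Type) [CommRing R] [Algebra ℚ R] (ι : N →* Γ) (ι' : N' →* Γ')
    (ν : N →* N') (j : Γ →* Γ') (hj : ∀ x, j (ι x) = ι' (ν x)) (i : ℕ)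
    (f : (Fin i → N) →₀ ℚ) :
    Finsupp.mapDomain (fun g => j ∘ g) (incC ι R i f) =
      incC ι' R i (Finsupp.mapDomain (fun g => ν ∘ g) f) := by
  induction f using Finsupp.induction_linear with
  | zero => simp
  | add f g hf hg => simp only [map_add, Finsupp.mapDomain_add, hf, hg]
  | single g q =>
    rw [incC_single, Finsupp.mapDomain_single, Finsupp.mapDomain_single, incC_single]
    congr 1
    funext l
    exact hj (g l)

/-- zero maps over the localization give torsion on H_i( ; ℚ) -/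
theorem torsion_of_zero (ι : N →* Γ) (ι' : N' →* Γ') (hι' : Function.Injective ι')
    (ν : N →* N') (j : Γ →* Γ') (hj : ∀ x, j (ι x) = ι' (ν x)) (deg : Γ' →* U)
    (hker : ∀ g, deg g = 1 ↔ g ∈ ι'.range) (s : U → Γ') (hs : ∀ m, deg (s m) = m)
    (c : U → (N' →* N')) (hc : ∀ m x, ι' (c m x) = (s m)⁻¹ * ι' x * s m)
    (R : Type) [CommRing R] [Algebra (MonoidAlgebra ℚ U) R]
    (M : Submonoid (MonoidAlgebra ℚ U)) [IsLocalization M R] (i : ℕ)
    (hv : ∀ y, gI j (jm R j ((algebraMap (MonoidAlgebra ℚ U) R : MonoidAlgebra ℚ U →* R).comp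
      (uL deg))) i y = 0)
    (x : groupHomology (Rep.trivial ℚ N ℚ) i) :
    ∃ p ∈ M, (p.coeff.sum fun m q => q • hm (c m) i (hn ν i x)) = 0 := by
  let _ : Algebra ℚ R := ((algebraMap (MonoidAlgebra ℚ U) R).comp
    (algebraMap ℚ (MonoidAlgebra ℚ U))).toAlgebra
  have _ : IsScalarTower ℚ (MonoidAlgebra ℚ U) R := IsScalarTower.of_algebraMap_eq fun _ => rfl
  induction x using groupHomology_induction_on with
  | h z =>
  let u : Γ' →* R := (algebraMap (MonoidAlgebra ℚ U) R : MonoidAlgebra ℚ U →* R).comp (uL deg)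
  have hu : ∀ x : N, (u.comp j) (ι x) = 1 := by
    intro x
    have : deg (ι' (ν x)) = 1 := (hker _).2 ⟨ν x, rfl⟩
    change u (j (ι x)) = 1
    rw [hj]
    change (algebraMap (MonoidAlgebra ℚ U) R) (uL deg (ι' (ν x))) = 1
    rw [uL_apply, this]
    exact map_one _
  obtain ⟨w, hw⟩ := inc_cycle_ex ι R (u.comp j) hu i z
  have h1 := hv ((groupHomology.π (chRep R (u.comp j)) i).hom w)
  have h2 : gI j (jm R j u) i ((groupHomology.π (chRep R (u.comp j)) i).hom w) =
      (groupHomology.π (chRep R u) i).hom ((groupHomology.cyclesMap j (jm R j u) i).hom w) := by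
    have h := groupHomology.π_map j (jm R j u) i
    exact congrArg (fun φ => φ.hom w) h
  rw [h2] at h1
  obtain ⟨e, he⟩ := pi_eq_zero _ i _ h1
  have h3 : (groupHomology.iCycles (chRep R u) i ((groupHomology.cyclesMap j (jm R j u) i).hom w) :
      (Fin i → Γ') →₀ R) = incC ι' R i (groupHomology.iCycles (Rep.trivial ℚ N' ℚ) i
        (zn ν i z)) := by
    have e1 := HomologicalComplex.cyclesMap_i (groupHomology.chainsMap j (jm R j u)) i
    have e2 := congrArg (fun f => f.hom w) e1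
    refine e2.trans ?_
    rw [groupHomology.chainsMap_f, iCycles_zn, ← jm_chain R ι ι' ν j hj, ← hw]
    change Finsupp.mapRange.linearMap (LinearMap.id : R →ₗ[R] R)
      (Finsupp.mapDomain (fun g => j ∘ g) (groupHomology.iCycles (chRep R (u.comp j)) i w :
        (Fin i → Γ) →₀ R)) = _
    rw [Finsupp.mapRange.linearMap_id]
    rfl
  obtain ⟨p, hp, y, hy⟩ := chain_torsion' ι' hι' deg hker s hs c hc R M i
    (groupHomology.iCycles (Rep.trivial ℚ N' ℚ) i (zn ν i z)) e (he.trans h3)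
  refine ⟨p, hp, ?_⟩
  have h3 : (p.coeff.sum fun m q => q • hm (c m) i
      (hn ν i ((groupHomology.π (Rep.trivial ℚ N ℚ) i).hom z))) =
      (groupHomology.π (Rep.trivial ℚ N' ℚ) i).hom
        (p.coeff.sum fun m q => q • zm (c m) i (zn ν i z)) := by
    rw [Finsupp.sum, Finsupp.sum, map_sum]
    refine Finset.sum_congr rfl fun m _ => ?_
    rw [map_smul, hn_pi, hm_pi]
  rw [h3]
  apply pi_zero i _ y
  rw [hy, Finsupp.sum, Finsupp.sum, map_sum]
  refine Finset.sum_congr rfl fun m _ => ?_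
  rw [map_smul]
  exact congrArg (fun t => p.coeff m • t) (iCycles_map (c m) i (zn ν i z)).symm

end zero

section main

variable {G : Type} [Group G] (N' : Subgroup G) [N'.Normal] {U : Type} [CommGroup U]
  {N Γ : Type} [Group N] [Group Γ]

/-- T2 final, general form: zero map over the localization at M ⇒ the image classes are
killed by an element of M. -/
theorem torsion_main_zero (Γ' : Subgroup G) (hN : N' ≤ Γ') (deg : Γ' →* U)
    (hker : ∀ g : Γ', deg g = 1 ↔ (g : G) ∈ N') (hsurj : Function.Surjective deg)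
    (ι : N →* Γ) (ν : N →* N') (j : Γ →* Γ') (hj : ∀ x, ((j (ι x) : Γ') : G) = (ν x : G))
    (R : Type) [CommRing R] [Algebra (MonoidAlgebra ℚ U) R]
    (M : Submonoid (MonoidAlgebra ℚ U)) [IsLocalization M R] (i : ℕ)
    (ρ : U →* Module.End ℚ (groupHomology (Rep.trivial ℚ N' ℚ) i))
    (hρ : ∀ g : Γ', ρ (deg g) = cR N' i g)
    (hv : ∀ y, gI j (jm R j ((algebraMap (MonoidAlgebra ℚ U) R : MonoidAlgebra ℚ U →* R).comp
      (uL deg⁻¹))) i y = 0)
    (x : groupHomology (Rep.trivial ℚ N ℚ) i) :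
    ∃ p ∈ M, MonoidAlgebra.lift ℚ (Module.End ℚ (groupHomology (Rep.trivial ℚ N' ℚ) i)) U ρ p
      (hn ν i x) = 0 := by
  choose s0 hs0 using hsurj
  have hs : ∀ m, (deg⁻¹ : Γ' →* U) (s0 m⁻¹) = m := by
    intro m; rw [MonoidHom.inv_apply, hs0, inv_inv]
  obtain ⟨p, hp, h⟩ := torsion_of_zero (N := N) (Γ := Γ) (N' := N') (Γ' := Γ') ι
    (Subgroup.inclusion hN) (Subgroup.inclusion_injective hN) ν j
    (fun x => Subtype.ext (hj x)) deg⁻¹ (by
      intro g
      rw [MonoidHom.inv_apply, inv_eq_one, hker]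
      constructor
      · intro h; exact ⟨⟨g, h⟩, rfl⟩
      · rintro ⟨y, rfl⟩; exact y.2) (fun m => s0 m⁻¹) hs
    (fun m => cN N' ((s0 m⁻¹ : Γ') : G)⁻¹) (by
      intro m y
      apply Subtype.ext
      change ((cN N' ((s0 m⁻¹ : Γ') : G)⁻¹ y : N') : G) = ((s0 m⁻¹ : Γ') : G)⁻¹ * (y : G) *
        ((s0 m⁻¹ : Γ') : G)
      rw [cN_coe, inv_inv]) R M i hv x
  refine ⟨p, hp, ?_⟩
  rw [MonoidAlgebra.lift_apply, Finsupp.sum, LinearMap.sum_apply]
  rw [Finsupp.sum] at h
  rw [← h]
  refine Finset.sum_congr rfl fun m _ => ?_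
  rw [LinearMap.smul_apply]
  congr 2
  have h1 : m = deg (s0 m⁻¹)⁻¹ := by rw [map_inv, hs0, inv_inv]
  conv_lhs => rw [h1, hρ]
  rfl

/-- T2 final over all primes: if for every prime P of ℚ[U] not containing deg t - 1 the map over
the local ring at P is zero, then t is unipotent on the image classes. -/
theorem unip_of_primes (Γ' : Subgroup G) (hN : N' ≤ Γ') (deg : Γ' →* U)
    (hker : ∀ g : Γ', deg g = 1 ↔ (g : G) ∈ N') (hsurj : Function.Surjective deg)
    (ι : N →* Γ) (ν : N →* N') (j : Γ →* Γ') (hj : ∀ x, ((j (ι x) : Γ') : G) = (ν x : G))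
    (i : ℕ) (t : Γ')
    (hv : ∀ (P : Ideal (MonoidAlgebra ℚ U)) [P.IsPrime],
      (MonoidAlgebra.single (deg t) 1 - 1 : MonoidAlgebra ℚ U) ∉ P →
      ∀ y, gI j (jm (Localization.AtPrime P) j ((algebraMap (MonoidAlgebra ℚ U)
        (Localization.AtPrime P) : MonoidAlgebra ℚ U →* (Localization.AtPrime P)).comp
      (uL deg⁻¹))) i y = 0)
    (x : groupHomology (Rep.trivial ℚ N ℚ) i) :
    ∃ m : ℕ, ((cR N' i t - 1) ^ m) (hn ν i x) = 0 := by
  classical
  -- the induced action of U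
  have hwell : ∀ g h : Γ', deg g = deg h → cR N' i (g : G) = cR N' i (h : G) := by
    intro g h hgh
    have h1 : (g : G) = (h : G) * ((h : G)⁻¹ * (g : G)) := by group
    have h2 : ((h : G)⁻¹ * (g : G)) ∈ N' := by
      have := (hker (h⁻¹ * g)).1 (by rw [map_mul, map_inv, hgh, inv_mul_cancel])
      exact this
    rw [h1, map_mul, cR_mem N' i _ h2, mul_one]
  choose s0 hs0 using hsurj
  let ρ : U →* Module.End ℚ (groupHomology (Rep.trivial ℚ N' ℚ) i) :=
    { toFun := fun m => cR N' i (s0 m : G)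
      map_one' := by
        have h := hwell (s0 1) 1 (by rw [hs0, map_one])
        rw [h]
        exact map_one _
      map_mul' := fun a b => by
        have h := hwell (s0 (a * b)) (s0 a * s0 b) (by rw [map_mul, hs0, hs0, hs0])
        rw [h]
        exact map_mul _ _ _ }
  have hρ : ∀ g : Γ', ρ (deg g) = cR N' i g := fun g => hwell _ _ (hs0 _)
  let L := MonoidAlgebra.lift ℚ (Module.End ℚ (groupHomology (Rep.trivial ℚ N' ℚ) i)) U ρ
  let y := hn ν i x
  -- annihilator ideal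
  let I : Ideal (MonoidAlgebra ℚ U) :=
    { carrier := {p | L p y = 0}
      add_mem' := by
        intro a b ha hb
        change L (a + b) y = 0
        rw [map_add, LinearMap.add_apply]
        have ha' : L a y = 0 := ha
        have hb' : L b y = 0 := hb
        rw [ha', hb', add_zero]
      zero_mem' := by
        change L 0 y = 0
        rw [map_zero]; rfl
      smul_mem' := by
        intro a b hb
        change L (a * b) y = 0
        have hb' : L b y = 0 := hb
        rw [map_mul, Module.End.mul_apply, hb', map_zero] }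
  let τ : MonoidAlgebra ℚ U := MonoidAlgebra.single (deg t) 1 - 1
  by_contra hcon
  push Not at hcon
  have hdisj : ∀ m : ℕ, τ ^ m ∉ I := by
    intro m hm
    apply hcon m
    have h1 : L (τ ^ m) y = 0 := hm
    have h2 : L τ = cR N' i t - 1 := by
      change L (MonoidAlgebra.single (deg t) 1 - 1) = _
      rw [map_sub, map_one]
      congr 1
      change MonoidAlgebra.lift ℚ _ U ρ (MonoidAlgebra.single (deg t) 1) = _
      rw [MonoidAlgebra.lift_single, one_smul, hρ]
    rw [map_pow, h2] at h1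
    exact h1
  obtain ⟨P, hP, hIP, hPd⟩ := Ideal.exists_le_prime_disjoint I (Submonoid.powers τ) (by
    rw [Set.disjoint_left]
    rintro a ha ⟨m, rfl⟩
    exact hdisj m ha)
  have hτ : τ ∉ P := fun h => Set.disjoint_left.1 hPd h ⟨1, pow_one τ⟩
  obtain ⟨p, hp, h⟩ := torsion_main_zero N' Γ' hN deg hker (fun m => ⟨s0 m, hs0 m⟩) ι ν j hj
    (Localization.AtPrime P) P.primeCompl i ρ hρ (hv P hτ) x
  exact hp (hIP h)

end main

end Pool.Agent.TOR
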