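import Pool.Agent.Helper41_TOR.Nf
import Pool.Agent.Helper57_TOR.Nu2

/-! Near-far: abstract theorem from a tower. -/

set_option autoImplicit false

namespace Pool.Agent.TOR

open CategoryTheory CategoryTheory.Limits Rep Representation

/-- `G` is the top of a tower of `r` free groups with block elements contained in `W` -/
def IsTower (G : Type) [Group G] (r : ℕ) (W : Set G) : Prop :=
  ∃ (Γ π : ℕ → Type) (_ : ∀ j, Group (Γ j)) (_ : ∀ j, Group (π j))
    (M : ∀ j, G →* Γ j) (μ : ∀ j, Γ (j + 1) →* Γ j) (σ : ∀ j, Γ j →* Γ (j + 1))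
    (lam : ∀ j, π j →* Γ (j + 1)) (a : ∀ j, Γ j →* MulAut (π j)) (B : ∀ j, Set (Γ j)),
    Function.Injective (M r) ∧ (∀ j, j < r → Function.Surjective (M (j + 1))) ∧
    (∀ j, j < r → ∀ g, μ j (M (j + 1) g) = M j g) ∧
    (∀ j, j < r → ∀ g, μ j (σ j g) = g) ∧
    (∀ j, j < r → Function.Injective (lam j)) ∧
    (∀ j, j < r → ∀ x, μ j x = 1 ↔ x ∈ (lam j).range) ∧
    (∀ j, j < r → ∀ g p, σ j g * lam j p * (σ j g)⁻¹ = lam j (a j g p)) ∧
    (∀ j, j < r → ∀ w ∈ B j, σ j w ∈ B (j + 1) ∧ ∃ (ι : Type) (_ : Finite ι) (rk : ι → ℕ)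
      (b : ι → π j), Subgroup.closure (Set.range b) = ⊤ ∧
      (∀ (K : Type) [Group K] (f : ι → K), ∃ φ : π j →* K, ∀ i, φ (b i) = f i) ∧
      ∀ i : ι, ∃ u ∈ Subgroup.closure {x | ∃ l, rk l < rk i ∧ b l = x},
        ∃ u' ∈ Subgroup.closure {x | ∃ l, rk l < rk i ∧ b l = x}, a j w (b i) = u * b i * u' ∧
        (lam j u)⁻¹ * σ j w ∈ B (j + 1)) ∧
    (∀ j, j < r → ∃ p, lam j p ∈ B (j + 1)) ∧ ∀ g, M r g ∈ B r → g ∈ W

theorem tower_van {G : Type} [Group G] {r : ℕ} {W : Set G} (hT : IsTower G r W)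
    {k : Type} [CommRing k] (S : Subgroup G) (N : Rep.{0} k S)
    (hN : ∀ g ∈ W, ∀ h : G, ∃ s : S, (s : G) = h * g * h⁻¹ ∧
      Function.Bijective (fun a : N => N.ρ s a - a)) (q : ℕ) (hq : q < r) : Van N q := by
  obtain ⟨Γ, π, i1, i2, M, μ, σ, lam, a, B, h1, h2, h3, h4, h5, h6, h7, h8, h9, h10⟩ := hT
  exact BR_sub r Γ π M μ σ lam a h1 h2 h3 h4 h5 h6 h7 B h8 h9 S N
    (fun g hg h => hN g (h10 g hg) h) q hq

section rel

variable {G : Type} [Group G] (N' : Subgroup G) [N'.Normal] {U : Type} [CommGroup U]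
  {N : Type} [Group N]

/-- elements which centralise the image of ν act trivially -/
theorem cR_fix' (ν : N →* N') (g : G) (h : ∀ x : N, g * (ν x : G) = (ν x : G) * g) (i : ℕ)
    (x : groupHomology (Rep.trivial ℚ N ℚ) i) :
    cR N' i g (hn ν i x) = hn ν i x := by
  rw [H57.cR_hn, ← H57.hn_comp]
  refine congrFun (congrArg DFunLike.coe (H57.hn_congr _ _ (fun y => ?_) i)) x
  refine Subtype.ext ?_
  rw [MonoidHom.comp_apply, cN_coe, h, mul_inv_cancel_right]

/-- the torsion relation given by a tower -/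
theorem nf_rel (Γ' : Subgroup G) (hN : N' ≤ Γ') (deg : Γ' →* U)
    (hker : ∀ g : Γ', deg g = 1 ↔ (g : G) ∈ N') (hsurj : Function.Surjective deg)
    {Gt : Type} [Group Gt] (S : Subgroup Gt) (s : S →* Γ') (ι : N →* S) (ν : N →* N')
    (hι : ∀ x, ((s (ι x) : Γ') : G) = (ν x : G)) {r : ℕ} {W : Set Gt} (hT : IsTower Gt r W)
    (D : Set U)
    (hW : ∀ g ∈ W, ∀ h : Gt, ∃ t : S, (t : Gt) = h * g * h⁻¹ ∧ deg (s t) ∈ D)
    (q : ℕ) (hq : q < r)
    (ρ : U →* Module.End ℚ (groupHomology (Rep.trivial ℚ N' ℚ) q))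
    (hρ : ∀ g : Γ', ρ (deg g) = cR N' q g)
    (x : groupHomology (Rep.trivial ℚ N ℚ) q) :
    ∃ p ∈ Submonoid.closure {y : MonoidAlgebra ℚ U | ∃ u ∈ D, y = MonoidAlgebra.single u 1 - 1},
      MonoidAlgebra.lift ℚ (Module.End ℚ (groupHomology (Rep.trivial ℚ N' ℚ) q)) U ρ p
        (hn ν q x) = 0 := by
  let M := Submonoid.closure {y : MonoidAlgebra ℚ U | ∃ u ∈ D, y = MonoidAlgebra.single u 1 - 1}
  let R := Localization M
  refine torsion_main_zero N' Γ' hN deg hker hsurj ι ν s hι R M q ρ hρ ?_ x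
  intro y
  let u : Γ' →* R := (algebraMap (MonoidAlgebra ℚ U) R : MonoidAlgebra ℚ U →* R).comp (uL deg⁻¹)
  have hv : Van (chRep R (u.comp s)) q := by
    refine tower_van hT S (chRep R (u.comp s)) ?_ q hq
    intro g hg h
    obtain ⟨t, ht, hd⟩ := hW g hg h
    refine ⟨t, ht, ?_⟩
    -- the scalar
    let f : MonoidAlgebra ℚ U → R := algebraMap (MonoidAlgebra ℚ U) R
    have h1 : IsUnit (f (MonoidAlgebra.single (deg (s t)) 1 - 1)) :=
      IsLocalization.map_units R (⟨_, Submonoid.subset_closure ⟨_, hd, rfl⟩⟩ : M)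
    have h2 : u (s t) - 1 = f (-MonoidAlgebra.single (deg (s t))⁻¹ 1) *
        f (MonoidAlgebra.single (deg (s t)) 1 - 1) := by
      have e1 : u (s t) = f (MonoidAlgebra.single (deg (s t))⁻¹ 1) := rfl
      have e2 : (1 : R) = f 1 := (map_one (algebraMap (MonoidAlgebra ℚ U) R)).symm
      rw [e1, e2]
      change algebraMap (MonoidAlgebra ℚ U) R _ - algebraMap (MonoidAlgebra ℚ U) R _ =
        algebraMap (MonoidAlgebra ℚ U) R _ * algebraMap (MonoidAlgebra ℚ U) R _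
      rw [← map_sub, ← map_mul]
      congr 1
      rw [mul_sub, mul_one, neg_mul, MonoidAlgebra.single_mul_single, inv_mul_cancel, one_mul]
      have : (MonoidAlgebra.single (1 : U) (1 : ℚ) : MonoidAlgebra ℚ U) = 1 := rfl
      rw [this]
      ring
    have h3 : IsUnit (f (-MonoidAlgebra.single (deg (s t))⁻¹ 1)) := by
      refine IsUnit.map (algebraMap (MonoidAlgebra ℚ U) R) (IsUnit.neg ?_)
      refine IsUnit.of_mul_eq_one (MonoidAlgebra.single (deg (s t)) 1) ?_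
      rw [MonoidAlgebra.single_mul_single, inv_mul_cancel, one_mul]
      rfl
    have h4 : IsUnit (u (s t) - 1) := by rw [h2]; exact h3.mul h1
    have h5 : ∀ a : R, u (s t) * a - a = (u (s t) - 1) * a := fun a => by ring
    change Function.Bijective (fun a : R => u (s t) * a - a)
    simp only [h5]
    exact (Units.mulLeft_bijective h4.unit)
  have h0 : y = 0 := van_elt hv y
  rw [h0, map_zero]

/-- near-far theorem from a tower -/
theorem nf_abs (Γ' : Subgroup G) (hN : N' ≤ Γ')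
    (hcomm : ∀ a ∈ Γ', ∀ b ∈ Γ', a * b * a⁻¹ * b⁻¹ ∈ N') (ν : N →* N')
    {Λ : Type} [AddCommGroup Λ] (e : Λ → G) (he : ∀ l, e l ∈ Γ')
    (hadd : ∀ a b, (e (a + b))⁻¹ * (e a * e b) ∈ N')
    (Sy : Set G) (hSy : ∀ y ∈ Sy, y ∈ Γ' ∧ ∀ x : N, y * (ν x : G) = (ν x : G) * y)
    (r : ℕ) (c : ℕ → Λ)
    (hmov : ∀ m : ℕ → ℕ, m 0 = 0 → ∃ ψ : G, (∀ x : N, ψ * (ν x : G) = (ν x : G) * ψ) ∧
      ∀ I : Finset ℕ, I.Nonempty → (∀ i ∈ I, i < r) → ∀ y ∈ Sy, ∃ y' ∈ Sy,
        (e (∑ i ∈ I, (c i + m i • c 0)) * y')⁻¹ * (ψ * (e (∑ i ∈ I, c i) * y) * ψ⁻¹) ∈ N')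
    {Gt : Type} [Group Gt] (S : Subgroup Gt) (s : S →* G) (hs : ∀ t, s t ∈ Γ') (ι : N →* S)
    (hι : ∀ x, s (ι x) = (ν x : G)) {W : Set Gt} (hT : IsTower Gt r W)
    (hW : ∀ g ∈ W, ∀ h : Gt, ∃ t : S, (t : Gt) = h * g * h⁻¹ ∧
      ∃ I : Finset ℕ, I.Nonempty ∧ (∀ i ∈ I, i < r) ∧ ∃ y ∈ Sy,
        (e (∑ i ∈ I, c i) * y)⁻¹ * s t ∈ N')
    (q : ℕ) (hq : q < r) (x : groupHomology (Rep.trivial ℚ N ℚ) q) :
    ∃ a : ℕ, ((cR N' q (e (c 0)) ^ (2 ^ (r - 1)).factorial - 1) ^ a) (hn ν q x) = 0 := by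
  classical
  -- the quotient
  let Q := Γ' ⧸ N'.subgroupOf Γ'
  have hQ : ∀ a b : Q, a * b = b * a := by
    intro a b
    induction a using QuotientGroup.induction_on with
    | H a =>
    induction b using QuotientGroup.induction_on with
    | H b =>
    rw [← QuotientGroup.mk_mul, ← QuotientGroup.mk_mul, QuotientGroup.eq, Subgroup.mem_subgroupOf]
    have h := hcomm _ (inv_mem b.2) _ (inv_mem a.2)
    have h2 : ((((a * b)⁻¹ * (b * a) : Γ')) : G) = (b : G)⁻¹ * (a : G)⁻¹ * (b : G)⁻¹⁻¹ *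
        (a : G)⁻¹⁻¹ := by
      push_cast; group
    rw [h2]; exact h
  let instQ : CommGroup Q := { (inferInstance : Group Q) with mul_comm := hQ }
  let deg : Γ' →* Q := QuotientGroup.mk' _
  have hker : ∀ g : Γ', deg g = 1 ↔ (g : G) ∈ N' := by
    intro g
    exact (QuotientGroup.eq_one_iff g).trans Subgroup.mem_subgroupOf
  have hsurj : Function.Surjective deg := QuotientGroup.mk'_surjective _
  have hdeq : ∀ a b : Γ', (a : G)⁻¹ * b ∈ N' → deg a = deg b := by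
    intro a b h
    have : deg (a⁻¹ * b) = 1 := (hker _).2 h
    rw [map_mul, map_inv, inv_mul_eq_one] at this
    exact this
  -- the action of the quotient
  have hwell : ∀ g h : Γ', deg g = deg h → cR N' q (g : G) = cR N' q (h : G) := by
    intro g h hgh
    have h1 : (g : G) = (h : G) * ((h : G)⁻¹ * (g : G)) := by group
    have h2 : ((h : G)⁻¹ * (g : G)) ∈ N' := by
      have := (hker (h⁻¹ * g)).1 (by rw [map_mul, map_inv, hgh, inv_mul_cancel])
      exact this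
    rw [h1, map_mul, cR_mem N' q _ h2, mul_one]
  choose s0 hs0 using hsurj
  let ρ : Q →* Module.End ℚ (groupHomology (Rep.trivial ℚ N' ℚ) q) :=
    { toFun := fun m => cR N' q (s0 m : G)
      map_one' := by
        have h := hwell (s0 1) 1 (by rw [hs0, map_one])
        rw [h]
        exact map_one _
      map_mul' := fun a b => by
        have h := hwell (s0 (a * b)) (s0 a * s0 b) (by rw [map_mul, hs0, hs0, hs0])
        rw [h]
        exact map_mul _ _ _ }
  have hρ : ∀ g : Γ', ρ (deg g) = cR N' q g := fun g => hwell _ _ (hs0 _)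
  let L := MonoidAlgebra.lift ℚ (Module.End ℚ (groupHomology (Rep.trivial ℚ N' ℚ) q)) Q ρ
  have hL : ∀ u, L (MonoidAlgebra.single u 1) = ρ u := by
    intro u
    change MonoidAlgebra.lift ℚ _ Q ρ (MonoidAlgebra.single u 1) = _
    rw [MonoidAlgebra.lift_single, one_smul]
  -- the classes
  let E : Multiplicative Λ →* Q :=
    MonoidHom.mk' (fun l => deg ⟨e (Multiplicative.toAdd l), he _⟩) (by
      intro a b
      rw [← map_mul]
      refine hdeq _ _ ?_
      exact hadd _ _)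
  let SQ : Set Q := {u | ∃ y : Γ', (y : G) ∈ Sy ∧ deg y = u}
  let D : Set Q := {u | ∃ I : Finset ℕ, I.Nonempty ∧ (∀ i ∈ I, i < r) ∧ ∃ y ∈ SQ,
    u = E (Multiplicative.ofAdd (∑ i ∈ I, c i)) * y}
  -- the relation
  obtain ⟨p, hp, hpx⟩ := nf_rel N' Γ' hN deg hker (fun m => ⟨s0 m, hs0 m⟩) S
    (s.codRestrict Γ' hs) ι ν hι hT D (by
      intro g hg h
      obtain ⟨t, ht, I, hI1, hI2, y, hy, hty⟩ := hW g hg h
      refine ⟨t, ht, I, hI1, hI2, deg ⟨y, (hSy y hy).1⟩, ⟨⟨y, (hSy y hy).1⟩, hy, rfl⟩, ?_⟩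
      change deg _ = deg _ * deg _
      rw [← map_mul]
      exact (hdeq _ _ hty).symm) q hq ρ hρ x
  -- moved relations
  have hfix : ∀ ψ : G, (∀ x : N, ψ * (ν x : G) = (ν x : G) * ψ) →
      cR N' q ψ (hn ν q x) = hn ν q x := fun ψ h => cR_fix' N' ν ψ h q x
  have key := primes_abs ρ (hn ν q x) SQ (by
      rintro u ⟨y, hy, rfl⟩
      rw [hρ]
      exact hfix y (hSy y hy).2) E r c (by
      intro m hm
      obtain ⟨ψ, hψ, hψ'⟩ := hmov m hm
      -- transport of p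
      have htr : ∀ p ∈ Submonoid.closure {y : MonoidAlgebra ℚ Q | ∃ u ∈ D,
          y = MonoidAlgebra.single u 1 - 1}, ∃ p' ∈ Submonoid.closure {y : MonoidAlgebra ℚ Q |
            ∃ I : Finset ℕ, I.Nonempty ∧ (∀ i ∈ I, i < r) ∧ ∃ s ∈ SQ,
            y = MonoidAlgebra.single (E (Multiplicative.ofAdd
              (∑ i ∈ I, (c i + m i • c 0))) * s) 1 - 1},
          L p' = cR N' q ψ * L p * cR N' q ψ⁻¹ := by
        intro p hp
        induction hp using Submonoid.closure_induction with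
        | mem y hy =>
          obtain ⟨u, ⟨I, hI1, hI2, y', ⟨y0, hy0, rfl⟩, rfl⟩, rfl⟩ := hy
          obtain ⟨y1, hy1, hyy⟩ := hψ' I hI1 hI2 _ hy0
          refine ⟨MonoidAlgebra.single (E (Multiplicative.ofAdd
            (∑ i ∈ I, (c i + m i • c 0))) * deg ⟨y1, (hSy y1 hy1).1⟩) 1 - 1,
            Submonoid.subset_closure ⟨I, hI1, hI2, _, ⟨_, hy1, rfl⟩, rfl⟩, ?_⟩
          rw [map_sub, map_sub, hL, hL, map_one, mul_sub, sub_mul, mul_one]
          rw [← map_mul (cR N' q) ψ ψ⁻¹, mul_inv_cancel, map_one]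
          congr 1
          change ρ (deg _ * deg _) = cR N' q ψ * ρ (deg _ * deg _) * cR N' q ψ⁻¹
          rw [← map_mul, ← map_mul, hρ, hρ, ← map_mul, ← map_mul]
          have h1 := cR_mem N' q _ hyy
          rw [map_mul] at h1
          have h2 : cR N' q (e (∑ i ∈ I, (c i + m i • c 0)) * y1) *
              cR N' q (e (∑ i ∈ I, (c i + m i • c 0)) * y1)⁻¹ = 1 := by
            rw [← map_mul, mul_inv_cancel, map_one]
          have h3 := congrArg (fun z => cR N' q (e (∑ i ∈ I, (c i + m i • c 0)) * y1) * z) h1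
          simp only [← mul_assoc] at h3
          rw [h2, one_mul, mul_one] at h3
          change cR N' q (e (∑ i ∈ I, (c i + m i • c 0)) * y1) =
            cR N' q (ψ * (e (∑ i ∈ I, c i) * y0) * ψ⁻¹)
          rw [← mul_assoc ψ]
          exact h3.symm
        | one => exact ⟨1, one_mem _, by
            rw [map_one, mul_one, ← map_mul, mul_inv_cancel, map_one]⟩
        | mul a b _ _ ha hb =>
          obtain ⟨a', ha1, ha2⟩ := ha
          obtain ⟨b', hb1, hb2⟩ := hb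
          refine ⟨a' * b', mul_mem ha1 hb1, ?_⟩
          have h1 : cR N' q ψ⁻¹ * cR N' q ψ = 1 := by rw [← map_mul, inv_mul_cancel, map_one]
          rw [map_mul, map_mul, ha2, hb2]
          have h2 : cR N' q ψ * L a * cR N' q ψ⁻¹ * (cR N' q ψ * L b * cR N' q ψ⁻¹) =
              cR N' q ψ * L a * (cR N' q ψ⁻¹ * cR N' q ψ) * L b * cR N' q ψ⁻¹ := by
            simp only [mul_assoc]
          rw [h2, h1, mul_one]
          simp only [mul_assoc]
      obtain ⟨p', hp', hpp⟩ := htr p hp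
      refine ⟨p', hp', ?_⟩
      have h1 : L p' (hn ν q x) = 0 := by
        rw [hpp, Module.End.mul_apply, Module.End.mul_apply]
        have h2 : cR N' q ψ⁻¹ (hn ν q x) = hn ν q x := hfix ψ⁻¹ (by
          intro z
          have h3 := hψ z
          calc ψ⁻¹ * (ν z : G) = ψ⁻¹ * ((ν z : G) * ψ) * ψ⁻¹ := by group
            _ = ψ⁻¹ * (ψ * (ν z : G)) * ψ⁻¹ := by rw [h3]
            _ = (ν z : G) * ψ⁻¹ := by group)
        rw [h2]
        have h3 : L p (hn ν q x) = 0 := hpx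
        rw [h3, map_zero]
      exact h1)
  obtain ⟨a, ha⟩ := key
  refine ⟨a, ?_⟩
  have h1 : ρ (E (Multiplicative.ofAdd (c 0))) = cR N' q (e (c 0)) := hρ _
  rw [h1] at ha
  exact ha

end rel

end Pool.Agent.TOR
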