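import Pool.Agent.Helper41_TOR.In
import Pool.Agent.Helper41_TOR.Tz

/-! Near-far: the primes lemma and the relation coming from a tower. -/

set_option autoImplicit false

namespace Pool.Agent.TOR

open CategoryTheory CategoryTheory.Limits Rep Representation

/-- the choice of feet -/
theorem feet_exist {Λ : Type*} [AddCommGroup Λ] (K : AddSubgroup Λ) (r : ℕ) (c : ℕ → Λ)
    (hK : (2 ^ (r - 1)).factorial • c 0 ∉ K) :
    ∃ m : ℕ → ℕ, m 0 = 0 ∧ ∀ I : Finset ℕ, I.Nonempty → (∀ i ∈ I, i < r) →
      ∑ i ∈ I, (c i + m i • c 0) ∉ K := by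
  classical
  have hlow : ∀ t : ℕ, 1 ≤ t → t ≤ 2 ^ (r - 1) → t • c 0 ∉ K := by
    intro t h1 h2 h3
    obtain ⟨d, hd⟩ := Nat.dvd_factorial h1 h2
    apply hK
    rw [hd, mul_comm, mul_smul]
    exact K.nsmul_mem h3 d
  have key : ∀ j, j ≤ r → ∃ m : ℕ → ℕ, m 0 = 0 ∧ ∀ I : Finset ℕ, I.Nonempty →
      (∀ i ∈ I, i < j) → ∑ i ∈ I, (c i + m i • c 0) ∉ K := by
    intro j
    induction j with
    | zero =>
      intro _
      refine ⟨fun _ => 0, rfl, fun I hI h => ?_⟩
      obtain ⟨i, hi⟩ := hI
      exact absurd (h i hi) (Nat.not_lt_zero i)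
    | succ j ih =>
      intro hj
      obtain ⟨m, hm0, hm⟩ := ih (by omega)
      rcases Nat.eq_zero_or_pos j with rfl | hjp
      · refine ⟨m, hm0, fun I hI h => ?_⟩
        have hI1 : I = {0} := by
          ext i
          rw [Finset.mem_singleton]
          constructor
          · intro hi; have := h i hi; omega
          · rintro rfl
            obtain ⟨i, hi⟩ := hI
            have := h i hi
            have h0 : i = 0 := by omega
            rw [← h0]; exact hi
        rw [hI1, Finset.sum_singleton, hm0, zero_smul, add_zero]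
        have := hlow 1 le_rfl (Nat.one_le_two_pow)
        rwa [one_smul] at this
      · -- choose m j
        have hgood : ∃ t : ℕ, ∀ I : Finset ℕ, I ⊆ Finset.range j →
            c j + t • c 0 + ∑ i ∈ I, (c i + m i • c 0) ∉ K := by
          by_contra hcon
          push Not at hcon
          choose F hF1 hF2 using hcon
          have hcard : (Finset.powerset (Finset.range j)).card <
              (Finset.range (2 ^ j + 1)).card := by
            rw [Finset.card_powerset, Finset.card_range, Finset.card_range]
            exact Nat.lt_succ_self _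
          obtain ⟨a, ha, b, hb, hab, hFab⟩ := Finset.exists_ne_map_eq_of_card_lt_of_maps_to
            hcard (f := F) (fun t _ => Finset.mem_powerset.2 (hF1 t))
          have main : ∀ a b : ℕ, a < b → b < 2 ^ j + 1 → F a = F b → False := by
            intro a b hab hb hF
            have h1 := K.sub_mem (hF2 b) (hF2 a)
            rw [hF] at h1
            have h2 : c j + b • c 0 + ∑ i ∈ F b, (c i + m i • c 0) -
                (c j + a • c 0 + ∑ i ∈ F b, (c i + m i • c 0)) = (b - a) • c 0 := by
              rw [sub_nsmul (c 0) hab.le]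
              abel
            rw [h2] at h1
            refine hlow (b - a) (by omega) ?_ h1
            have h3 : 2 ^ j ≤ 2 ^ (r - 1) := Nat.pow_le_pow_right (by norm_num) (by omega)
            omega
          rcases Nat.lt_or_ge a b with h | h
          · exact main a b h (Finset.mem_range.1 hb) hFab
          · exact main b a (lt_of_le_of_ne h (Ne.symm hab)) (Finset.mem_range.1 ha) hFab.symm
        obtain ⟨t, ht⟩ := hgood
        refine ⟨Function.update m j t, ?_, fun I hI h => ?_⟩
        · rw [Function.update_of_ne (by omega)]; exact hm0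
        · by_cases hjI : j ∈ I
          · have h1 := ht (I.erase j) (by
              intro i hi
              rw [Finset.mem_erase] at hi
              have := h i hi.2
              rw [Finset.mem_range]
              omega)
            rw [← Finset.add_sum_erase _ _ hjI, Function.update_self]
            have h2 : ∑ i ∈ I.erase j, (c i + Function.update m j t i • c 0) =
                ∑ i ∈ I.erase j, (c i + m i • c 0) := by
              refine Finset.sum_congr rfl fun i hi => ?_
              rw [Function.update_of_ne (Finset.ne_of_mem_erase hi)]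
            rw [h2]
            exact h1
          · have h2 : ∑ i ∈ I, (c i + Function.update m j t i • c 0) =
                ∑ i ∈ I, (c i + m i • c 0) := by
              refine Finset.sum_congr rfl fun i hi => ?_
              rw [Function.update_of_ne (by rintro rfl; exact hjI hi)]
            rw [h2]
            refine hm I hI fun i hi => ?_
            have h3 := h i hi
            have h4 : i ≠ j := by rintro rfl; exact hjI hi
            omega
  exact key r le_rfl

/-- PRIMES lemma -/
theorem primes_abs {k : Type} [CommRing k] {U : Type} [CommGroup U] {V : Type} [AddCommGroup V]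
    [Module k V] (ρ : U →* Module.End k V) (x : V) (Sy : Set U) (hSy : ∀ s ∈ Sy, ρ s x = x)
    {Λ : Type} [AddCommGroup Λ] (e : Multiplicative Λ →* U) (r : ℕ) (c : ℕ → Λ)
    (hrel : ∀ m : ℕ → ℕ, m 0 = 0 → ∃ p ∈ Submonoid.closure {y : MonoidAlgebra k U |
      ∃ I : Finset ℕ, I.Nonempty ∧ (∀ i ∈ I, i < r) ∧ ∃ s ∈ Sy,
        y = MonoidAlgebra.single (e (Multiplicative.ofAdd (∑ i ∈ I, (c i + m i • c 0))) * s) 1 - 1},
      MonoidAlgebra.lift k (Module.End k V) U ρ p x = 0) :
    ∃ a : ℕ, ((ρ (e (Multiplicative.ofAdd (c 0))) ^ (2 ^ (r - 1)).factorial - 1) ^ a) x = 0 := by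
  classical
  let L := MonoidAlgebra.lift k (Module.End k V) U ρ
  have hL : ∀ u, L (MonoidAlgebra.single u 1) = ρ u := by
    intro u
    change MonoidAlgebra.lift k _ U ρ (MonoidAlgebra.single u 1) = _
    rw [MonoidAlgebra.lift_single, one_smul]
  let I : Ideal (MonoidAlgebra k U) :=
    { carrier := {p | L p x = 0}
      add_mem' := by
        intro a b ha hb
        change L (a + b) x = 0
        rw [map_add, LinearMap.add_apply]
        have ha' : L a x = 0 := ha
        have hb' : L b x = 0 := hb
        rw [ha', hb', add_zero]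
      zero_mem' := by
        change L 0 x = 0
        rw [map_zero]; rfl
      smul_mem' := by
        intro a b hb
        change L (a * b) x = 0
        have hb' : L b x = 0 := hb
        rw [map_mul, Module.End.mul_apply, hb', map_zero] }
  let g : U → MonoidAlgebra k U := fun u => MonoidAlgebra.single u 1
  have hg : ∀ a b, g (a * b) = g a * g b := by
    intro a b
    change MonoidAlgebra.single (a * b) (1 : k) = _
    rw [MonoidAlgebra.single_mul_single, one_mul]
  have hg1 : g 1 = 1 := rfl
  let N := (2 ^ (r - 1)).factorial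
  let τ : MonoidAlgebra k U := g (e (Multiplicative.ofAdd (c 0))) ^ N - 1
  by_contra hcon
  push Not at hcon
  have hdisj : ∀ m : ℕ, τ ^ m ∉ I := by
    intro m hm
    apply hcon m
    have h1 : L (τ ^ m) x = 0 := hm
    have h2 : L τ = ρ (e (Multiplicative.ofAdd (c 0))) ^ N - 1 := by
      change L (g _ ^ N - 1) = _
      rw [map_sub, map_pow, hL, map_one]
    rw [map_pow, h2] at h1
    exact h1
  obtain ⟨P, hP, hIP, hPd⟩ := Ideal.exists_le_prime_disjoint I (Submonoid.powers τ) (by
    rw [Set.disjoint_left]
    rintro a ha ⟨m, rfl⟩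
    exact hdisj m ha)
  have hτ : τ ∉ P := fun h => Set.disjoint_left.1 hPd h ⟨1, pow_one τ⟩
  -- the subgroup of inactive classes
  have hmul : ∀ a b : U, g a - 1 ∈ P → g b - 1 ∈ P → g (a * b) - 1 ∈ P := by
    intro a b ha hb
    have : g (a * b) - 1 = g a * (g b - 1) + (g a - 1) := by rw [hg]; ring
    rw [this]
    exact P.add_mem (P.mul_mem_left _ hb) ha
  have hinv : ∀ a : U, g a - 1 ∈ P → g a⁻¹ - 1 ∈ P := by
    intro a ha
    have h1 : g a⁻¹ * g a = 1 := by rw [← hg, inv_mul_cancel, hg1]
    have : g a⁻¹ - 1 = -(g a⁻¹ * (g a - 1)) := by rw [mul_sub, h1]; ring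
    rw [this]
    exact P.neg_mem (P.mul_mem_left _ ha)
  let K : AddSubgroup Λ :=
    { carrier := {l | g (e (Multiplicative.ofAdd l)) - 1 ∈ P}
      add_mem' := by
        intro a b ha hb
        change g (e (Multiplicative.ofAdd (a + b))) - 1 ∈ P
        rw [ofAdd_add, map_mul]
        exact hmul _ _ ha hb
      zero_mem' := by
        change g (e (Multiplicative.ofAdd 0)) - 1 ∈ P
        rw [ofAdd_zero, map_one, hg1, sub_self]
        exact P.zero_mem
      neg_mem' := by
        intro a ha
        change g (e (Multiplicative.ofAdd (-a))) - 1 ∈ P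
        rw [ofAdd_neg, map_inv]
        exact hinv _ ha }
  have hpow : ∀ (u : U) (n : ℕ), g (u ^ n) = g u ^ n := by
    intro u n
    induction n with
    | zero => rw [pow_zero, pow_zero, hg1]
    | succ n ih => rw [pow_succ, pow_succ, hg, ih]
  have hNK : N • c 0 ∉ K := by
    intro h
    have h1 : g (e (Multiplicative.ofAdd (N • c 0))) - 1 ∈ P := h
    rw [ofAdd_nsmul, map_pow, hpow] at h1
    exact hτ h1
  obtain ⟨m, hm0, hm⟩ := feet_exist K r c hNK
  obtain ⟨p, hp, hpx⟩ := hrel m hm0
  have hpP : p ∈ P := hIP hpx
  have hpc : p ∈ P.primeCompl := by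
    refine (Submonoid.closure_le.2 ?_) hp
    rintro y ⟨I', hI1, hI2, s, hs, rfl⟩
    intro h
    apply hm I' hI1 hI2
    change g (e (Multiplicative.ofAdd (∑ i ∈ I', (c i + m i • c 0)))) - 1 ∈ P
    have hsP : g s - 1 ∈ P := by
      apply hIP
      change L (g s - 1) x = 0
      rw [map_sub, hL, map_one, LinearMap.sub_apply, hSy s hs]
      exact sub_self _
    have h1 := hmul _ _ h (hinv _ hsP)
    rwa [mul_inv_cancel_right] at h1
  exact hpc hpP

end Pool.Agent.TOR
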