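import Pool.Agent.Helper41_TOR.Pk

set_option autoImplicit false

namespace Pool.Agent.TOR

open CategoryTheory CategoryTheory.Limits Rep Representation

universe u

variable {k : Type u} [CommRing k]

/-- alternating boundary of a family of face maps, coefficients in M -/
noncomputable def bdM (X : ℕ → Type u) (face : ∀ p, Fin (p + 2) → X (p + 1) → X p)
    (M : Type u) [AddCommGroup M] (p : ℕ) : (X (p + 1) →₀ M) →+ (X p →₀ M) :=
  ∑ i : Fin (p + 2), (-1 : ℤ) ^ (i : ℕ) • Finsupp.mapDomain.addMonoidHom (face p i)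

/-- augmentation -/
noncomputable def auM (X : Type u) (M : Type u) [AddCommGroup M] : (X →₀ M) →+ M :=
  Finsupp.liftAddHom fun _ => AddMonoidHom.id M

variable {G : Type u} [Group G]

/-- morphism of permutation modules induced by an equivariant map -/
noncomputable def permMap {X Y : Type u} [MulAction G X] [MulAction G Y] (A : Rep.{u} k G)
    (f : X → Y) (hf : ∀ (g : G) (x : X), f (g • x) = g • f x) : perm X A ⟶ perm Y A :=
  ofHom ⟨Finsupp.lmapDomain A k f, fun g => by
    refine Finsupp.lhom_ext fun x a => ?_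
    change Finsupp.lmapDomain A k f (permR X A g (Finsupp.single x a)) =
      permR Y A g (Finsupp.lmapDomain A k f (Finsupp.single x a))
    rw [permR_single, Finsupp.lmapDomain_apply, Finsupp.lmapDomain_apply,
      Finsupp.mapDomain_single, Finsupp.mapDomain_single, permR_single, hf]⟩

theorem permMap_comp {X Y Z : Type u} [MulAction G X] [MulAction G Y] [MulAction G Z]
    (A : Rep.{u} k G) (f : X → Y) (hf) (f' : Y → Z) (hf') (f'' : X → Z) (hf'')
    (h : ∀ x, f' (f x) = f'' x) : permMap A f hf ≫ permMap A f' hf' = permMap A f'' hf'' := by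
  have e : f'' = f' ∘ f := funext fun x => (h x).symm
  subst e
  refine Rep.hom_ext (DFunLike.ext _ _ fun x => ?_)
  exact (Finsupp.mapDomain_comp (v := x)).symm

variable (X : ℕ → Type u) [∀ p, MulAction G (X p)] (face : ∀ p, Fin (p + 2) → X (p + 1) → X p)

/-- the differential as a morphism of representations -/
noncomputable def dR (hG : ∀ p i (g : G) (x : X (p + 1)), face p i (g • x) = g • face p i x)
    (A : Rep.{u} k G) (p : ℕ) : perm (X (p + 1)) A ⟶ perm (X p) A :=
  ∑ i : Fin (p + 2), (-1 : ℤ) ^ (i : ℕ) • permMap A (face p i) (hG p i)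

theorem dR_comp (hG : ∀ p i (g : G) (x : X (p + 1)), face p i (g • x) = g • face p i x)
    (hs : ∀ p (i : Fin (p + 2)) (j : Fin (p + 3)) (h : (j : ℕ) ≤ i) (x : X (p + 2)),
      face p i (face (p + 1) j x) = face p (Fin.castLT j (lt_of_le_of_lt h i.2))
        (face (p + 1) i.succ x))
    (A : Rep.{u} k G) (n : ℕ) :
    dR X face hG A (n + 1) ≫ dR X face hG A n = 0 := by
  unfold dR
  simp only [Preadditive.comp_sum, Preadditive.sum_comp, ← Finset.sum_product']
  let P := Fin (n + 2) × Fin (n + 3)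
  let S : Finset P := {ij : P | (ij.2 : ℕ) ≤ (ij.1 : ℕ)}
  rw [Finset.univ_product_univ, ← Finset.sum_add_sum_compl S, ← eq_neg_iff_add_eq_zero,
    ← Finset.sum_neg_distrib]
  let φ : ∀ ij : P, ij ∈ S → P := fun ij hij =>
    (Fin.castLT ij.2 (lt_of_le_of_lt (Finset.mem_filter.mp hij).right (Fin.is_lt ij.1)), ij.1.succ)
  apply Finset.sum_bij φ
  · intro ij hij
    simp_rw [S, φ, Finset.compl_filter, Finset.mem_filter_univ, Fin.val_succ,
      Fin.val_castLT] at hij ⊢
    lia
  · rintro ⟨i, j⟩ hij ⟨i', j'⟩ hij' h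
    rw [Prod.mk_inj]
    exact ⟨by simpa [φ] using! congr_arg Prod.snd h,
      by simpa [φ, Fin.castSucc_castLT] using! congr_arg Fin.castSucc (congr_arg Prod.fst h)⟩
  · rintro ⟨i', j'⟩ hij'
    simp_rw [S, Finset.compl_filter, Finset.mem_filter_univ, not_le] at hij'
    refine ⟨(j'.pred <| ?_, Fin.castSucc i'), ?_, ?_⟩
    · rintro rfl
      simp only [Fin.val_zero, not_lt_zero] at hij'
    · simpa [S] using! Nat.le_sub_one_of_lt hij'
    · simp only [φ, Fin.castLT_castSucc, Fin.succ_pred]
  · rintro ⟨i, j⟩ hij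
    dsimp
    have hij' : (j : ℕ) ≤ i := by simpa [S] using! hij
    simp only [Preadditive.zsmul_comp, Preadditive.comp_zsmul, smul_smul, ← neg_smul]
    congr 1
    · simp only [φ, Fin.val_succ, pow_add, pow_one, mul_neg, neg_neg, mul_one]
      apply mul_comm
    · have e2 : ∀ (g : G) (x : X (n + 2)), face n (Fin.castLT j (lt_of_le_of_lt hij' i.2))
          (face (n + 1) i.succ (g • x)) = g • face n (Fin.castLT j (lt_of_le_of_lt hij' i.2))
          (face (n + 1) i.succ x) := by
        intro g x; rw [hG, hG]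
      rw [permMap_comp A _ _ _ _ _ e2 (fun x => hs n i j hij' x),
        permMap_comp A _ _ _ _ _ e2 (fun x => rfl)]

theorem dR_apply (hG : ∀ p i (g : G) (x : X (p + 1)), face p i (g • x) = g • face p i x)
    (A : Rep.{u} k G) (p : ℕ) (c : X (p + 1) →₀ A) :
    (dR X face hG A p).hom c = bdM X face A p c := by
  have h1 : ∀ (s : Finset (Fin (p + 2))),
      (∑ i ∈ s, (-1 : ℤ) ^ (i : ℕ) • permMap A (face p i) (hG p i) :
        perm (X (p + 1)) A ⟶ perm (X p) A).hom c =
      (∑ i ∈ s, (-1 : ℤ) ^ (i : ℕ) • Finsupp.mapDomain.addMonoidHom (face p i) :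
        (X (p + 1) →₀ A) →+ (X p →₀ A)) c := by
    intro s
    induction s using Finset.induction_on with
    | empty => rw [Finset.sum_empty, Finset.sum_empty]; rfl
    | insert a s ha ih =>
      rw [Finset.sum_insert ha, Finset.sum_insert ha, AddMonoidHom.add_apply, ← ih]
      rfl
  exact h1 Finset.univ

theorem aug_apply (Y : Type u) [MulAction G Y] (A : Rep.{u} k G) (c : Y →₀ A) :
    (aug Y A).hom c = auM Y A c := by
  rfl

theorem rep_exact {S : ShortComplex (Rep.{u} k G)}
    (h : ∀ x : S.X₂, S.g.hom x = 0 → ∃ y : S.X₁, S.f.hom y = x) : S.Exact := by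
  rw [← ShortComplex.exact_map_iff_of_faithful S (forget₂ (Rep.{u} k G) (ModuleCat.{u} k)),
    ShortComplex.moduleCat_exact_iff]
  exact h

/-- H1: G acts on a semisimplicial set X which is exact (with coefficients in A) in degrees < m
(augmented: including the exactness at degree 0 and surjectivity of the augmentation), and
H_(m-p)(stabiliser of x; A) = 0 for all p-simplices x, p ≤ m. Then H_m(G; A) = 0. -/
theorem van_of_action (m : ℕ) (A : Rep.{u} k G) [Nonempty (X 0)]
    (hG : ∀ p i (g : G) (x : X (p + 1)), face p i (g • x) = g • face p i x)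
    (hs : ∀ p (i : Fin (p + 2)) (j : Fin (p + 3)) (h : (j : ℕ) ≤ i) (x : X (p + 2)),
      face p i (face (p + 1) j x) = face p (Fin.castLT j (lt_of_le_of_lt h i.2))
        (face (p + 1) i.succ x))
    (h0 : 0 < m → ∀ c : X 0 →₀ A, auM (X 0) A c = 0 → ∃ b, bdM X face A 0 b = c)
    (hex : ∀ p, p + 1 < m → ∀ c : X (p + 1) →₀ A, bdM X face A p c = 0 →
      ∃ b, bdM X face A (p + 1) b = c)
    (hst : ∀ p ≤ m, ∀ x : X p, Van (res (MulAction.stabilizer G x).subtype A) (m - p)) :
    Van A m := by
  have w0 : dR X face hG A 0 ≫ aug (X 0) A = 0 := by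
    have h1 : ∀ i : Fin 2, permMap A (face 0 i) (hG 0 i) ≫ aug (X 0) A = aug (X 1) A := by
      intro i
      have h2 : (Finsupp.lsum k (fun _ : X 0 => (LinearMap.id : A →ₗ[k] A))) ∘ₗ
          Finsupp.lmapDomain A k (face 0 i) =
          Finsupp.lsum k (fun _ : X 1 => (LinearMap.id : A →ₗ[k] A)) := by
        refine Finsupp.lhom_ext fun x a => ?_
        simp
      refine Rep.hom_ext (DFunLike.ext _ _ fun c => ?_)
      exact LinearMap.congr_fun h2 c
    unfold dR
    rw [Fin.sum_univ_two]
    simp [Preadditive.add_comp, h1]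
  refine van_resolution m A (fun p => perm (X p) A) (dR X face hG A) (aug (X 0) A) inferInstance
    w0 (dR_comp X face hG hs A) ?_ ?_ ?_
  · intro hm
    exact rep_exact fun c hc => h0 hm c hc
  · intro p hp
    refine rep_exact fun c hc => ?_
    obtain ⟨b, hb⟩ := hex p hp c ((dR_apply X face hG A p c).symm.trans hc)
    exact ⟨b, (dR_apply X face hG A (p + 1) b).trans hb⟩
  · intro p hp
    exact van_perm (X p) A (m - p) fun x => ⟨1, by rw [one_smul]; exact hst p hp x⟩

end Pool.Agent.TOR
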