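import Pool.Agent.Helper41_TOR.Cj

set_option autoImplicit false

namespace Pool.Agent.TOR

open CategoryTheory CategoryTheory.Limits Rep Representation

section main

variable {G : Type} [Group G] (N : Subgroup G) [N.Normal]

/-- conjugation by g on the normal subgroup N -/
noncomputable def cN (g : G) : N →* N := (MulAut.conjNormal g : N ≃* N).toMonoidHom

theorem cN_coe (g : G) (x : N) : ((cN N g x : N) : G) = g * x * g⁻¹ :=
  MulAut.conjNormal_apply g x

/-- the conjugation representation of G on H_i(N; ℚ) -/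
noncomputable def cR (i : ℕ) : Representation ℚ G (groupHomology (Rep.trivial ℚ N ℚ) i) where
  toFun g := hm (cN N g) i
  map_one' := by
    have : cN N 1 = MonoidHom.id N := by
      ext x; simp [cN_coe]
    rw [this, hm_id]; rfl
  map_mul' g h := by
    have : cN N (g * h) = (cN N g).comp (cN N h) := by
      ext x; simp [cN_coe, mul_assoc]
    rw [this, hm_comp]; rfl

theorem cR_apply (i : ℕ) (g : G) : cR N i g = hm (cN N g) i := rfl

theorem cR_mem (i : ℕ) (g : G) (hg : g ∈ N) : cR N i g = 1 := by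
  rw [cR_apply]
  have : cN N g = cg (⟨g, hg⟩ : N) := by
    ext x; simp [cN_coe, cg_apply]
  rw [this, hm_cg]; rfl

/-- any f : N → N which is conjugation by g (as in the frozen statement) -/
theorem map_eq_cR (i : ℕ) (g : G) (f : N →* N) (hf : ∀ t : N, ((f t : N) : G) = g * t * g⁻¹)
    (ψ : Rep.trivial ℚ N ℚ ⟶ res f (Rep.trivial ℚ N ℚ))
    (x : groupHomology (Rep.trivial ℚ N ℚ) i) :
    ∃ a : ℚ, (groupHomology.map f ψ i : groupHomology (Rep.trivial ℚ N ℚ) i ⟶
      groupHomology (Rep.trivial ℚ N ℚ) i).hom x = a • cR N i g x := by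
  have : f = cN N g := by
    ext x; rw [hf, cN_coe]
  subst this
  exact hm_scalar _ ψ i x

variable {U : Type} [CommGroup U]

/-- H4, general form. Γ ≥ N, deg : Γ → U onto with kernel N; ρ the induced action of U on
H_i(N; ℚ); R a localization of ℚ[U] at M. -/
theorem torsion_main (Γ : Subgroup G) (hN : N ≤ Γ) (deg : Γ →* U)
    (hker : ∀ g : Γ, deg g = 1 ↔ (g : G) ∈ N) (hsurj : Function.Surjective deg)
    (R : Type) [CommRing R] [Algebra (MonoidAlgebra ℚ U) R]
    (M : Submonoid (MonoidAlgebra ℚ U)) [IsLocalization M R]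
    (hM : M ≤ nonZeroDivisors (MonoidAlgebra ℚ U)) (i : ℕ)
    (ρ : U →* Module.End ℚ (groupHomology (Rep.trivial ℚ N ℚ) i))
    (hρ : ∀ g : Γ, ρ (deg g) = cR N i g)
    (hv : Van (chRep R ((algebraMap (MonoidAlgebra ℚ U) R : MonoidAlgebra ℚ U →* R).comp
      (uL deg⁻¹))) i)
    (x : groupHomology (Rep.trivial ℚ N ℚ) i) :
    ∃ p ∈ M, MonoidAlgebra.lift ℚ (Module.End ℚ (groupHomology (Rep.trivial ℚ N ℚ) i)) U ρ p x
      = 0 := by
  choose s0 hs0 using hsurj
  have hs : ∀ m, (deg⁻¹ : Γ →* U) (s0 m⁻¹) = m := by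
    intro m; rw [MonoidHom.inv_apply, hs0, inv_inv]
  obtain ⟨p, hp, h⟩ := torsion_of_van (N := N) (Γ := Γ) (Subgroup.inclusion hN)
    (Subgroup.inclusion_injective hN) deg⁻¹ (by
      intro g
      rw [MonoidHom.inv_apply, inv_eq_one, hker]
      constructor
      · intro h; exact ⟨⟨g, h⟩, rfl⟩
      · rintro ⟨y, rfl⟩; exact y.2) (fun m => s0 m⁻¹) hs
    (fun m => cN N ((s0 m⁻¹ : Γ) : G)⁻¹) (by
      intro m y
      apply Subtype.ext
      change ((cN N ((s0 m⁻¹ : Γ) : G)⁻¹ y : N) : G) = ((s0 m⁻¹ : Γ) : G)⁻¹ * (y : G) *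
        ((s0 m⁻¹ : Γ) : G)
      rw [cN_coe, inv_inv]) R M hM i hv x
  refine ⟨p, hp, ?_⟩
  rw [MonoidAlgebra.lift_apply, Finsupp.sum, LinearMap.sum_apply]
  rw [Finsupp.sum] at h
  rw [← h]
  refine Finset.sum_congr rfl fun m _ => ?_
  rw [LinearMap.smul_apply]
  congr 2
  have h1 : m = deg (s0 m⁻¹)⁻¹ := by rw [map_inv, hs0, inv_inv]
  conv_lhs => rw [h1, hρ]
  rfl

end main

section cyclic

variable {G : Type} [Group G] (N : Subgroup G) [N.Normal]

/-- the variable T of ℚ[T, T⁻¹] = ℚ[ℤ] -/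
noncomputable def TT : MonoidAlgebra ℚ (Multiplicative ℤ) :=
  MonoidAlgebra.single (Multiplicative.ofAdd 1) 1

theorem TT_sub_one_ne : TT - 1 ≠ 0 := by
  intro h
  have h1 : TT = 1 := sub_eq_zero.1 h
  have h2 := congrArg (fun p : MonoidAlgebra ℚ (Multiplicative ℤ) =>
    p.coeff (Multiplicative.ofAdd 1)) h1
  simp only [TT, MonoidAlgebra.coeff_single, MonoidAlgebra.one_def, Finsupp.single_apply] at h2
  simp at h2
  have h3 : (0 : ℤ) = 1 := congrArg Multiplicative.toAdd h2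
  omega

/-- H4 for one element t with all powers nontrivial modulo N, and an arbitrary localization of
ℚ[T, T⁻¹]: every class is killed by an element of M. -/
theorem torsion_cyc (Γ : Subgroup G) (hN : N ≤ Γ) (deg : Γ →* Multiplicative ℤ)
    (hker : ∀ g : Γ, deg g = 1 ↔ (g : G) ∈ N) (t : Γ) (ht : deg t = Multiplicative.ofAdd 1)
    (R : Type) [CommRing R] [Algebra (MonoidAlgebra ℚ (Multiplicative ℤ)) R]
    (M : Submonoid (MonoidAlgebra ℚ (Multiplicative ℤ))) [IsLocalization M R]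
    (hM : M ≤ nonZeroDivisors (MonoidAlgebra ℚ (Multiplicative ℤ))) (i : ℕ)
    (hv : Van (chRep R ((algebraMap (MonoidAlgebra ℚ (Multiplicative ℤ)) R :
      MonoidAlgebra ℚ (Multiplicative ℤ) →* R).comp (uL deg⁻¹))) i)
    (x : groupHomology (Rep.trivial ℚ N ℚ) i) :
    ∃ p ∈ M, MonoidAlgebra.lift ℚ (Module.End ℚ (groupHomology (Rep.trivial ℚ N ℚ) i))
      (Multiplicative ℤ) ((cR N i).comp (zpowersHom G (t : G))) p x = 0 := by
  refine torsion_main N Γ hN deg hker ?_ R M hM i _ ?_ hv x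
  · intro m
    refine ⟨t ^ (Multiplicative.toAdd m), ?_⟩
    rw [map_zpow, ht, ← ofAdd_zsmul]
    simp
  · intro g
    rw [MonoidHom.comp_apply, zpowersHom_apply]
    have h1 : (g : G) = (t : G) ^ (Multiplicative.toAdd (deg g)) *
        ((t : G) ^ (-Multiplicative.toAdd (deg g)) * (g : G)) := by
      rw [← mul_assoc, ← zpow_add]; simp
    have h2 : ((t : G) ^ (-Multiplicative.toAdd (deg g)) * (g : G)) ∈ N := by
      have := (hker (t ^ (-Multiplicative.toAdd (deg g)) * g)).1 (by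
        rw [map_mul, map_zpow, ht, ← ofAdd_zsmul]
        simp)
      exact this
    conv_rhs => rw [h1, map_mul, cR_mem N i _ h2, mul_one]

/-- H4, unipotence: M = powers of T - 1. -/
theorem unip_of_van (Γ : Subgroup G) (hN : N ≤ Γ) (deg : Γ →* Multiplicative ℤ)
    (hker : ∀ g : Γ, deg g = 1 ↔ (g : G) ∈ N) (t : Γ) (ht : deg t = Multiplicative.ofAdd 1)
    (R : Type) [CommRing R] [Algebra (MonoidAlgebra ℚ (Multiplicative ℤ)) R]
    [IsLocalization (Submonoid.powers (TT - 1)) R] (i : ℕ)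
    (hv : Van (chRep R ((algebraMap (MonoidAlgebra ℚ (Multiplicative ℤ)) R :
      MonoidAlgebra ℚ (Multiplicative ℤ) →* R).comp (uL deg⁻¹))) i)
    (x : groupHomology (Rep.trivial ℚ N ℚ) i) :
    ∃ a : ℕ, ((cR N i t - 1) ^ a) x = 0 := by
  obtain ⟨p, ⟨a, rfl⟩, h⟩ := torsion_cyc N Γ hN deg hker t ht R (Submonoid.powers (TT - 1))
    (powers_le_nonZeroDivisors_of_noZeroDivisors TT_sub_one_ne) i hv x
  refine ⟨a, ?_⟩
  rw [← h]
  simp [TT, MonoidAlgebra.lift_single]

end cyclic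

end Pool.Agent.TOR
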