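import Pool.Agent.Helper41_TOR.La

set_option autoImplicit false

namespace Pool.Agent.TOR

open CategoryTheory CategoryTheory.Limits Rep Representation

universe u

section ovr

variable {k G H : Type u} [CommRing k] [Group G] [Group H]

/-- map of permutation modules over a homomorphism of groups -/
noncomputable def permOver (φ : G →* H) {X Y : Type u} [MulAction G X] [MulAction H Y]
    (f : X → Y) (hf : ∀ (g : G) (x : X), f (g • x) = φ g • f x) {A : Rep.{u} k G}
    {B : Rep.{u} k H} (α : A ⟶ res φ B) : perm X A ⟶ res φ (perm Y B) :=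
  ofHom ⟨Finsupp.lmapDomain B k f ∘ₗ Finsupp.mapRange.linearMap α.hom.toLinearMap, fun g => by
    refine Finsupp.lhom_ext fun x a => ?_
    change Finsupp.lmapDomain B k f (Finsupp.mapRange.linearMap α.hom.toLinearMap
      (permR X A g (Finsupp.single x a))) = permR Y B (φ g) (Finsupp.lmapDomain B k f
        (Finsupp.mapRange.linearMap α.hom.toLinearMap (Finsupp.single x a)))
    rw [permR_single]
    simp only [Finsupp.mapRange.linearMap_apply, Finsupp.mapRange_single,
      Finsupp.lmapDomain_apply, Finsupp.mapDomain_single]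
    rw [permR_single, hf]
    congr 1
    exact hom_comm_apply α g a⟩

theorem permOver_single (φ : G →* H) {X Y : Type u} [MulAction G X] [MulAction H Y]
    (f : X → Y) (hf : ∀ (g : G) (x : X), f (g • x) = φ g • f x) {A : Rep.{u} k G}
    {B : Rep.{u} k H} (α : A ⟶ res φ B) (x : X) (a : A) :
    (permOver φ f hf α).hom (Finsupp.single x a : X →₀ A) =
      (Finsupp.single (f x) (α.hom a) : Y →₀ B) := by
  change Finsupp.lmapDomain B k f (Finsupp.mapRange.linearMap α.hom.toLinearMap
      (Finsupp.single x a)) = _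
  simp only [Finsupp.mapRange.linearMap_apply, Finsupp.mapRange_single,
      Finsupp.lmapDomain_apply, Finsupp.mapDomain_single]
  rfl

/-- the map between stabilisers -/
def stφ (φ : G →* H) {X Y : Type u} [MulAction G X] [MulAction H Y]
    (f : X → Y) (hf : ∀ (g : G) (x : X), f (g • x) = φ g • f x) (x : X) :
    MulAction.stabilizer G x →* MulAction.stabilizer H (f x) :=
  (φ.comp (MulAction.stabilizer G x).subtype).codRestrict _ (fun g => by
    change φ (g : G) ∈ MulAction.stabilizer H (f x)
    rw [MulAction.mem_stabilizer_iff, ← hf, MulAction.mem_stabilizer_iff.1 g.2])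

/-- the coefficient map over the map between stabilisers -/
noncomputable def stα (φ : G →* H) {X Y : Type u} [MulAction G X] [MulAction H Y]
    (f : X → Y) (hf : ∀ (g : G) (x : X), f (g • x) = φ g • f x) {A : Rep.{u} k G}
    {B : Rep.{u} k H} (α : A ⟶ res φ B) (x : X) :
    res (MulAction.stabilizer G x).subtype A ⟶
      res (stφ φ f hf x) (res (MulAction.stabilizer H (f x)).subtype B) :=
  ofHom ⟨α.hom.toLinearMap, fun g => by
    ext a : 1
    exact hom_comm_apply α g a⟩

theorem permOver_st (φ : G →* H) {X Y : Type u} [MulAction G X] [MulAction H Y]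
    (f : X → Y) (hf : ∀ (g : G) (x : X), f (g • x) = φ g • f x) {A : Rep.{u} k G}
    {B : Rep.{u} k H} (α : A ⟶ res φ B) (x : X) (n : ℕ)
    (c : groupHomology (res (MulAction.stabilizer G x).subtype A) n) :
    gI φ (permOver φ f hf α) n (st X A x n c) =
      st Y B (f x) n (gI (stφ φ f hf x) (stα φ f hf α x) n c) := by
  let t : res (MulAction.stabilizer G x).subtype A ⟶
      res (φ.comp (MulAction.stabilizer G x).subtype) (perm Y B) :=
    ofHom ⟨Finsupp.lsingle (f x) ∘ₗ α.hom.toLinearMap, fun g => by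
      ext a : 1
      change (Finsupp.single (f x) (α.hom (A.ρ g a)) : Y →₀ B) =
        permR Y B (φ g) (Finsupp.single (f x) (α.hom a))
      have hg : φ (g : G) • f x = f x := by
        rw [← hf, MulAction.mem_stabilizer_iff.1 g.2]
      rw [permR_single, hg]
      congr 1
      exact hom_comm_apply α g a⟩
  have h1 := gI_comp (MulAction.stabilizer G x).subtype φ (sing X A x) (permOver φ f hf α) t
    (fun a => (permOver_single φ f hf α x a).symm) n c
  have h2 := gI_comp (stφ φ f hf x) (MulAction.stabilizer H (f x)).subtype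
    (stα φ f hf α x) (sing Y B (f x)) t (fun a => rfl) n c
  exact h1.trans h2.symm

theorem permOver_aug (φ : G →* H) {X Y : Type u} [MulAction G X] [MulAction H Y]
    (f : X → Y) (hf : ∀ (g : G) (x : X), f (g • x) = φ g • f x) {A : Rep.{u} k G}
    {B : Rep.{u} k H} (α : A ⟶ res φ B) (a : X →₀ A) :
    (aug Y B).hom ((permOver φ f hf α).hom a) = α.hom ((aug X A).hom a) := by
  induction a using Finsupp.induction_linear with
  | zero =>
    have h1 : (permOver φ f hf α).hom (0 : X →₀ A) = 0 := map_zero _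
    have h2 : (aug X A).hom (0 : X →₀ A) = 0 := map_zero _
    have h3 : (aug Y B).hom (0 : Y →₀ B) = 0 := map_zero _
    have h4 : α.hom (0 : A) = 0 := map_zero _
    exact ((congrArg (aug Y B).hom h1).trans h3).trans ((congrArg α.hom h2).trans h4).symm
  | add a b ha hb =>
    have h1 : (permOver φ f hf α).hom (a + b) =
      (permOver φ f hf α).hom a + (permOver φ f hf α).hom b := map_add _ _ _
    have h2 : (aug X A).hom (a + b) = (aug X A).hom a + (aug X A).hom b := map_add _ _ _
    have h3 : (aug Y B).hom ((permOver φ f hf α).hom a + (permOver φ f hf α).hom b) =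
      (aug Y B).hom ((permOver φ f hf α).hom a) + (aug Y B).hom ((permOver φ f hf α).hom b) :=
      map_add _ _ _
    rw [h2, map_add, ← ha, ← hb]
    exact (congrArg (aug Y B).hom h1).trans h3
  | single x a =>
    rw [permOver_single]
    exact (aug_single Y B (f x) (α.hom a)).trans (congrArg α.hom (aug_single X A x a).symm)

theorem bdM_single (X : ℕ → Type u) (face : ∀ p, Fin (p + 2) → X (p + 1) → X p)
    (M : Type u) [AddCommGroup M] (p : ℕ) (x : X (p + 1)) (a : M) :
    bdM X face M p (Finsupp.single x a) =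
      ∑ i : Fin (p + 2), (-1 : ℤ) ^ (i : ℕ) • Finsupp.single (face p i x) a := by
  unfold bdM
  rw [AddMonoidHom.finsetSum_apply]
  refine Finset.sum_congr rfl fun i _ => ?_
  rw [AddMonoidHom.smul_apply]
  congr 1
  exact Finsupp.mapDomain_single

theorem permOver_bdM (φ : G →* H) {X Y : ℕ → Type u} [∀ p, MulAction G (X p)]
    [∀ p, MulAction H (Y p)] (fX : ∀ p, Fin (p + 2) → X (p + 1) → X p)
    (fY : ∀ p, Fin (p + 2) → Y (p + 1) → Y p)
    (f : ∀ p, X p → Y p) (hf : ∀ p (g : G) (x : X p), f p (g • x) = φ g • f p x)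
    (hface : ∀ p i (x : X (p + 1)), f p (fX p i x) = fY p i (f (p + 1) x))
    {A : Rep.{u} k G} {B : Rep.{u} k H} (α : A ⟶ res φ B) (p : ℕ) (a : X (p + 1) →₀ A) :
    bdM Y fY B p ((permOver φ (f (p + 1)) (hf (p + 1)) α).hom a) =
      (permOver φ (f p) (hf p) α).hom (bdM X fX A p a) := by
  induction a using Finsupp.induction_linear with
  | zero =>
    have h1 : (permOver φ (f (p + 1)) (hf (p + 1)) α).hom (0 : X (p + 1) →₀ A) = 0 := map_zero _
    have h2 : (permOver φ (f p) (hf p) α).hom (0 : X p →₀ A) = 0 := map_zero _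
    rw [map_zero (bdM X fX A p)]
    exact ((congrArg (bdM Y fY B p) h1).trans (map_zero (bdM Y fY B p))).trans h2.symm
  | add a b ha hb =>
    have h1 : (permOver φ (f (p + 1)) (hf (p + 1)) α).hom (a + b) =
      (permOver φ (f (p + 1)) (hf (p + 1)) α).hom a +
        (permOver φ (f (p + 1)) (hf (p + 1)) α).hom b := map_add _ _ _
    have h2 : (permOver φ (f p) (hf p) α).hom (bdM X fX A p a + bdM X fX A p b) =
      (permOver φ (f p) (hf p) α).hom (bdM X fX A p a) +
        (permOver φ (f p) (hf p) α).hom (bdM X fX A p b) := map_add _ _ _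
    have h3 := map_add (bdM Y fY B p) ((permOver φ (f (p + 1)) (hf (p + 1)) α).hom a)
      ((permOver φ (f (p + 1)) (hf (p + 1)) α).hom b)
    rw [map_add (bdM X fX A p)]
    refine ((congrArg (bdM Y fY B p) h1).trans h3).trans (Eq.trans ?_ h2.symm)
    exact congrArg₂ (fun s t : Y p →₀ B => s + t) ha hb
  | single x a =>
    rw [bdM_single]
    have h1 := permOver_single φ (f (p + 1)) (hf (p + 1)) α x a
    refine ((congrArg (bdM Y fY B p) h1).trans (bdM_single Y fY B p _ _)).trans ?_
    have h2 : ∀ (s : Finset (Fin (p + 2))), (permOver φ (f p) (hf p) α).hom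
        (∑ i ∈ s, (-1 : ℤ) ^ (i : ℕ) • (Finsupp.single (fX p i x) a : X p →₀ A)) =
        ∑ i ∈ s, (-1 : ℤ) ^ (i : ℕ) •
          (Finsupp.single (fY p i (f (p + 1) x)) (α.hom a) : Y p →₀ B) := by
      intro s
      induction s using Finset.induction_on with
      | empty => exact map_zero _
      | insert i s hi ih =>
        rw [Finset.sum_insert hi, Finset.sum_insert hi, ← ih]
        refine (map_add (permOver φ (f p) (hf p) α).hom _ _).trans ?_
        congr 1
        refine (map_zsmul (permOver φ (f p) (hf p) α).hom _ _).trans ?_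
        congr 1
        rw [permOver_single, hface]
    exact (h2 _).symm

end ovr

section itg

variable {k : Type u} [CommRing k]

theorem gI_one {G : Type u} [Group G] (φ : G →* G) (hφ : ∀ g, φ g = g) {A : Rep.{u} k G}
    (a : A ⟶ res φ A) (ha : ∀ x, a.hom x = x) (n : ℕ) (c : groupHomology A n) :
    gI φ a n c = c := by
  have h := gI_congr (φ := φ) (ψ := MonoidHom.id G) hφ a (𝟙 A) (fun x => ha x) n c
  rw [h]
  change (groupHomology.map (MonoidHom.id G) (𝟙 A) n).hom c = c
  rw [groupHomology.map_id]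
  rfl

/-- the iterated map is induced by one homomorphism -/
theorem itr_gI (G : ℕ → Type u) [∀ j, Group (G j)] (φ : ∀ j, G j →* G (j + 1))
    (A : ∀ j, Rep.{u} k (G j)) (α : ∀ j, A j ⟶ res (φ j) (A (j + 1))) (n j : ℕ)
    (ψ : ∀ L, G j →* G (j + L)) (β : ∀ L, A j ⟶ res (ψ L) (A (j + L)))
    (h0 : ∀ g, ψ 0 g = g) (b0 : ∀ a, (β 0).hom a = a)
    (h1 : ∀ L g, ψ (L + 1) g = φ (j + L) (ψ L g))
    (b1 : ∀ L a, (β (L + 1)).hom a = (α (j + L)).hom ((β L).hom a)) (L : ℕ)
    (c : groupHomology (A j) n) : itr G φ A α n j L c = gI (ψ L) (β L) n c := by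
  induction L with
  | zero => exact (gI_one (ψ 0) h0 (β 0) b0 n c).symm
  | succ L ih =>
    rw [itr_succ, ih]
    have e : ∀ g a, (β (L + 1)).hom ((A j).ρ g a) =
        (A (j + L + 1)).ρ (((φ (j + L)).comp (ψ L)) g) ((β (L + 1)).hom a) := by
      intro g a
      refine (hom_comm_apply (β (L + 1)) g a).trans ?_
      change (A (j + L + 1)).ρ (ψ (L + 1) g) _ = _
      rw [h1]
      rfl
    let cc : A j ⟶ res ((φ (j + L)).comp (ψ L)) (A (j + L + 1)) :=
      ofHom ⟨(β (L + 1)).hom.toLinearMap, fun g => by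
        ext a : 1
        exact e g a⟩
    have h := gI_comp (ψ L) (φ (j + L)) (β L) (α (j + L)) cc (fun a => b1 L a) n c
    refine h.trans ?_
    exact gI_congr (fun g => (h1 L g).symm) cc (β (L + 1)) (fun a => rfl) n c

end itg

section ladder

variable {k : Type u} [CommRing k] (G : ℕ → Type u) [∀ j, Group (G j)]
  (φ : ∀ j, G j →* G (j + 1)) (X : ℕ → ℕ → Type u) [∀ j p, MulAction (G j) (X j p)]
  (face : ∀ j p, Fin (p + 2) → X j (p + 1) → X j p)

/-- LAD: the ladder lemma for group actions. -/
theorem ladder (m : ℕ) (A : ∀ j, Rep.{u} k (G j)) (α : ∀ j, A j ⟶ res (φ j) (A (j + 1)))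
    [∀ j, Nonempty (X j 0)]
    (hG : ∀ j p i (g : G j) (x : X j (p + 1)), face j p i (g • x) = g • face j p i x)
    (hs : ∀ j p (i : Fin (p + 2)) (l : Fin (p + 3)) (h : (l : ℕ) ≤ i) (x : X j (p + 2)),
      face j p i (face j (p + 1) l x) = face j p (Fin.castLT l (lt_of_le_of_lt h i.2))
        (face j (p + 1) i.succ x))
    (h0 : 0 < m → ∀ j, ∀ c : X j 0 →₀ A j, auM (X j 0) (A j) c = 0 →
      ∃ b, bdM (X j) (face j) (A j) 0 b = c)
    (hex : ∀ p, p + 1 < m → ∀ j, ∀ c : X j (p + 1) →₀ A j, bdM (X j) (face j) (A j) p c = 0 →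
      ∃ b, bdM (X j) (face j) (A j) (p + 1) b = c)
    (f : ∀ j p, X j p → X (j + 1) p)
    (hf : ∀ j p (g : G j) (x : X j p), f j p (g • x) = φ j g • f j p x)
    (hface : ∀ j p i (x : X j (p + 1)), f j p (face j p i x) = face (j + 1) p i (f j (p + 1) x))
    (hst : ∀ j p, p ≤ m → ∀ (x : X j p) (c),
      gI (stφ (φ j) (f j p) (hf j p) x) (stα (φ j) (f j p) (hf j p) (α j) x) (m - p) c = 0) :
    ∀ j c, itr G φ A α m j (m + 1) c = 0 := by
  have hε : ∀ j a, (aug (X j 0) (A j)).hom ((dR (X j) (face j) (hG j) (A j) 0).hom a) = 0 := by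
    intro j
    have h1 : ∀ i : Fin 2, permMap (A j) (face j 0 i) (hG j 0 i) ≫ aug (X j 0) (A j) =
        aug (X j 1) (A j) := by
      intro i
      have h2 : (Finsupp.lsum k (fun _ : X j 0 => (LinearMap.id : A j →ₗ[k] A j))) ∘ₗ
          Finsupp.lmapDomain (A j) k (face j 0 i) =
          Finsupp.lsum k (fun _ : X j 1 => (LinearMap.id : A j →ₗ[k] A j)) := by
        refine Finsupp.lhom_ext fun x a => ?_
        simp
      refine Rep.hom_ext (DFunLike.ext _ _ fun c => ?_)
      exact LinearMap.congr_fun h2 c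
    have w0 : dR (X j) (face j) (hG j) (A j) 0 ≫ aug (X j 0) (A j) = 0 := by
      unfold dR
      rw [Fin.sum_univ_two]
      simp [Preadditive.add_comp, h1]
    intro a
    exact congrArg (fun t => t.hom a) w0
  refine ladder_abs G φ m A α (fun j p => perm (X j p) (A j))
    (fun j p => permOver (φ j) (f j p) (hf j p) (α j))
    (fun j p => dR (X j) (face j) (hG j) (A j) p) (fun j => aug (X j 0) (A j))
    (fun j => (Rep.epi_iff_surjective _).1 inferInstance) hε ?_ ?_ ?_ ?_ ?_ ?_
  · intro j p a
    exact congrArg (fun t => t.hom a) (dR_comp (X j) (face j) (hG j) (hs j) (A j) p)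
  · intro hm j a ha
    obtain ⟨b, hb⟩ := h0 hm j a ha
    exact ⟨b, (dR_apply (X j) (face j) (hG j) (A j) 0 b).trans hb⟩
  · intro p hp j a ha
    obtain ⟨b, hb⟩ := hex p hp j a ((dR_apply (X j) (face j) (hG j) (A j) p a).symm.trans ha)
    exact ⟨b, (dR_apply (X j) (face j) (hG j) (A j) (p + 1) b).trans hb⟩
  · intro j a
    exact permOver_aug (φ j) (f j 0) (hf j 0) (α j) a
  · intro j p a
    have h := permOver_bdM (φ j) (face j) (face (j + 1)) (f j) (hf j) (hface j) (α j) p a
    refine (dR_apply (X (j + 1)) (face (j + 1)) (hG (j + 1)) (A (j + 1)) p _).trans (h.trans ?_)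
    exact congrArg (permOver (φ j) (f j p) (hf j p) (α j)).hom
      (dR_apply (X j) (face j) (hG j) (A j) p a).symm
  · intro j p hp c
    have h := gen_perm (X j p) (A j) (m - p) ((gI (φ j) (permOver (φ j) (f j p) (hf j p) (α j))
      (m - p)).toAddMonoidHom.ker) (fun x c => by
        change gI (φ j) (permOver (φ j) (f j p) (hf j p) (α j)) (m - p) (st _ _ x (m - p) c) = 0
        rw [permOver_st, hst j p hp x c, map_zero]) c
    exact h

end ladder

end Pool.Agent.TOR
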