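import Pool.Agent.Helper41_TOR.Pk
import Pool.Agent.Helper41_TOR.Lb

set_option autoImplicit false

namespace Pool.Agent.TOR

open CategoryTheory CategoryTheory.Limits Rep Representation

universe u

variable {k : Type u} [CommRing k]

/-- KILL: a homomorphism whose image normalises a product of r commuting subgroups, each with an
element acting by a scalar v, v - 1 a unit, is zero on homology in degrees < r. -/
theorem kill {G G' : Type u} [Group G] [Group G'] (A : Rep.{u} k G') (r : ℕ)
    (P : Fin r → Subgroup G')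
    (hc : ∀ i j, i ≠ j → ∀ x ∈ P i, ∀ y ∈ P j, x * y = y * x)
    (hz : ∀ j, ∃ z ∈ P j, ∃ v : k, IsUnit (v - 1) ∧ ∀ a : A, A.ρ z a = v • a)
    (ι : G →* G') (hn : ∀ g j, ∀ x ∈ P j, ι g * x * (ι g)⁻¹ ∈ ⨆ j, P j)
    {B : Rep.{u} k G} (f : B ⟶ res ι A) (q : ℕ) (hq : q < r) (c : groupHomology B q) :
    gI ι f q c = 0 := by
  let N : Subgroup G' := ⨆ j, P j
  let Q : Subgroup G' := ι.range ⊔ N
  have h1 : ∀ g : G, ∀ x ∈ N, ι g * x * (ι g)⁻¹ ∈ N := by
    intro g x hx
    have h2 : N ≤ N.comap (MulAut.conj (ι g)).toMonoidHom := by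
      refine iSup_le fun j y hy => ?_
      exact hn g j y hy
    exact h2 hx
  have hQ : Q ≤ Subgroup.normalizer (N : Set G') := by
    refine sup_le ?_ Subgroup.le_normalizer
    rintro _ ⟨g, rfl⟩
    rw [Subgroup.mem_normalizer_iff]
    intro x
    constructor
    · intro hx; exact h1 g x hx
    · intro hx
      have h3 := h1 g⁻¹ _ hx
      rw [map_inv] at h3
      simpa [mul_assoc] using h3
  have hnorm : (⨆ j, (P j).subgroupOf Q).Normal := by
    have e : (⨆ j, (P j).subgroupOf Q) = N.subgroupOf Q := by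
      apply le_antisymm
      · refine iSup_le fun j => ?_
        exact Subgroup.comap_mono (le_iSup P j)
      · intro x hx
        have h4 : Subgroup.map Q.subtype (⨆ j, (P j).subgroupOf Q) = N := by
          rw [Subgroup.map_iSup]
          refine iSup_congr fun j => ?_
          rw [Subgroup.subgroupOf_map_subtype, inf_eq_left.2 ((le_iSup P j).trans le_sup_right)]
        have hx2 : (x : G') ∈ Subgroup.map Q.subtype (⨆ j, (P j).subgroupOf Q) := by
          rw [h4]; exact hx
        obtain ⟨y, hy, hxy⟩ := hx2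
        have : y = x := Subtype.ext hxy
        rwa [← this]
    rw [e]
    constructor
    intro x hx g
    have h5 := (Subgroup.mem_normalizer_iff.1 (hQ g.2) (x : G')).1 hx
    exact h5
  have hv : Van (res Q.subtype A) q := by
    refine van_product (res Q.subtype A) r (fun j => (P j).subgroupOf Q) ?_ hnorm ?_ q hq
    · intro i j hij x hx y hy
      apply Subtype.ext
      exact hc i j hij x hx y hy
    · intro j
      obtain ⟨w, hw, s, hs, hwA⟩ := hz j
      exact ⟨⟨w, ((le_iSup P j).trans le_sup_right : P j ≤ Q) hw⟩, hw, s, hs, hwA⟩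
  let ι' : G →* Q := ι.codRestrict Q fun g => (le_sup_left : ι.range ≤ Q) ⟨g, rfl⟩
  let f' : B ⟶ res ι' (res Q.subtype A) := ofHom ⟨f.hom.toLinearMap, fun g => by
    ext a : 1
    exact hom_comm_apply f g a⟩
  have h := gI_comp ι' Q.subtype f' (𝟙 (res Q.subtype A)) f (fun a => rfl) q c
  have h0 : gI Q.subtype (𝟙 (res Q.subtype A)) q (gI ι' f' q c) = 0 := by
    rw [van_elt hv (gI ι' f' q c), map_zero]
  exact h.symm.trans h0

/-- a homomorphism whose image commutes with an element acting by v, v - 1 a unit, is zero on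
homology in all degrees. -/
theorem kill_comm {G G' : Type u} [Group G] [Group G'] (A : Rep.{u} k G') (z : G') (v : k)
    (hv : IsUnit (v - 1)) (hz : ∀ a : A, A.ρ z a = v • a)
    (ι : G →* G') (hc : ∀ g, z * ι g = ι g * z)
    {B : Rep.{u} k G} (f : B ⟶ res ι A) (q : ℕ) (c : groupHomology B q) :
    gI ι f q c = 0 := by
  let Q : Subgroup G' := Subgroup.centralizer {z}
  have hzQ : z ∈ Q := Subgroup.mem_centralizer_singleton_iff.2 rfl
  have hvan : Van (res Q.subtype A) q := by
    refine central_kill (res Q.subtype A) ⟨z, hzQ⟩ ?_ v hv hz q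
    rw [Subgroup.mem_center_iff]
    rintro ⟨w, hw⟩
    apply Subtype.ext
    exact Subgroup.mem_centralizer_singleton_iff.1 hw
  let ι' : G →* Q := ι.codRestrict Q fun g => Subgroup.mem_centralizer_singleton_iff.2 (hc g).symm
  let f' : B ⟶ res ι' (res Q.subtype A) := ofHom ⟨f.hom.toLinearMap, fun g => by
    ext a : 1
    exact hom_comm_apply f g a⟩
  have h := gI_comp ι' Q.subtype f' (𝟙 (res Q.subtype A)) f (fun a => rfl) q c
  have h0 : gI Q.subtype (𝟙 (res Q.subtype A)) q (gI ι' f' q c) = 0 := by
    rw [van_elt hvan (gI ι' f' q c), map_zero]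
  exact h.symm.trans h0

end Pool.Agent.TOR
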