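import Pool.Agent.Helper79_TOR.Stmts
import Pool.Agent.Helper41_TOR.Ki
import Pool.Agent.Helper41_TOR.Tz

/-! Modules KAB, ZAB, LAD, TOZ of the T2-STAB block -/

set_option autoImplicit false

namespace Pool.Agent.TST.H41

open Pointwise Set CategoryTheory Rep Pool.Agent.TOR Pool.Agent.TOR.H58 Pool.Agent.TST

theorem kab : KAB := by
  intro R _ G Γ _ _ i r P hc hn A hz B f q hq
  refine ModuleCat.hom_ext (LinearMap.ext fun c => ?_)
  exact kill A r P hc hz i (fun g j x hx => (le_iSup P j) (hn j g x hx)) f q hq c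

theorem zab : ZAB := by
  intro R _ G Γ _ _ i z hc A v hv hz B f q
  refine ModuleCat.hom_ext (LinearMap.ext fun c => ?_)
  exact kill_comm A z v hv hz i hc f q c

section lad

variable {k : Type} [CommRing k] (G : ℕ → Type) [∀ j, Group (G j)] (s : ∀ j, G j →* G (j + 1))
  (A : ∀ j, Rep.{0} k (G j)) (a : ∀ j, A j ⟶ res (s j) (A (j + 1))) (m : ℕ)

/-- transport along an equality of indices -/
noncomputable def castH {i j : ℕ} (h : i = j) :
    groupHomology (A i) m →ₗ[k] groupHomology (A j) m := by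
  subst h; exact LinearMap.id

theorem castH_gI {i j : ℕ} (h : i = j) (h' : i + 1 = j + 1) (x : groupHomology (A i) m) :
    castH G A m h' (gI (s i) (a i) m x) = gI (s j) (a j) m (castH G A m h x) := by
  subst h; rfl

theorem castH_zero {i j : ℕ} (h : i = j) (x : groupHomology (A i) m) (hx : x = 0) :
    castH G A m h x = 0 := by
  subst hx; rw [map_zero]

end lad

theorem lad : LAD := by
  intro k _ m G _ s A a X _ _ face e hG hs h0 hex he hface hst L hL0 hL
  have key := ladder G s X face m A a hG hs (fun hm j => h0 j hm) (fun p hp j => hex j p hp) e he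
    hface (fun j p hp x c => by
      have h1 := hst j p hp x (stφ (s j) (e j p) (he j p) x) (fun g => rfl)
        (stα (s j) (e j p) (he j p) (a j) x) (fun v => rfl)
      change (groupHomology.map (stφ (s j) (e j p) (he j p) x)
        (stα (s j) (e j p) (he j p) (a j) x) (m - p)).hom c = 0
      rw [h1]
      rfl)
  have h1 : ∀ n c, castH G A m (Nat.zero_add n) (itr G s A a m 0 n c) = (L n).hom c := by
    intro n
    induction n with
    | zero =>
      intro c
      rw [hL0]
      rfl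
    | succ n ih =>
      intro c
      rw [hL n]
      change castH G A m (Nat.zero_add (n + 1)) (gI (s (0 + n)) (a (0 + n)) m
        (itr G s A a m 0 n c)) = (groupHomology.map (s n) (a n) m).hom ((L n).hom c)
      rw [castH_gI G s A a m (Nat.zero_add n), ih]
      rfl
  refine ModuleCat.hom_ext (LinearMap.ext fun c => ?_)
  rw [← h1 (m + 1) c]
  exact castH_zero G A m _ _ (key 0 c)

theorem toz : TOZ := by
  intro G₁ G₂ _ _ N₁ N₂ _ s sN hsN U _ deg hker hsurj R _ _ M _ hM i ρ hρ hv ψ hψ x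
  choose s0 hs0 using hsurj
  have hs : ∀ m, (deg⁻¹ : G₂ →* U) (s0 m⁻¹) = m := by
    intro m; rw [MonoidHom.inv_apply, hs0, inv_inv]
  obtain ⟨p, hp, h⟩ := torsion_of_zero (N := N₁) (Γ := G₁) (N' := N₂) (Γ' := G₂) N₁.subtype
    N₂.subtype Subtype.val_injective sN s (fun x => (hsN x).symm) deg⁻¹ (by
      intro g
      rw [MonoidHom.inv_apply, inv_eq_one, hker]
      constructor
      · intro h; exact ⟨⟨g, h⟩, rfl⟩
      · rintro ⟨y, rfl⟩; exact y.2) (fun m => s0 m⁻¹) hs
    (fun m => cN N₂ (s0 m⁻¹)⁻¹) (by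
      intro m y
      change ((cN N₂ (s0 m⁻¹)⁻¹ y : N₂) : G₂) = (s0 m⁻¹)⁻¹ * (y : G₂) * (s0 m⁻¹)
      rw [cN_coe, inv_inv]) R M i (fun y => by
        have h1 := hv (jm R s ((algebraMap (MonoidAlgebra ℚ U) R : MonoidAlgebra ℚ U →* R).comp
          (uL deg⁻¹))) (fun r => rfl)
        exact congrArg (fun t => t.hom y) h1) x
  refine ⟨p, hp, ?_⟩
  have h2 : groupHomology.map sN ψ i = groupHomology.map (A := Rep.trivial ℚ N₁ ℚ)
      (B := Rep.trivial ℚ N₂ ℚ) sN (𝟙 (Rep.trivial ℚ N₁ ℚ)) i := by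
    refine groupHomology.map_congr rfl ?_ i
    exact LinearMap.ext fun r => hψ r
  rw [h2, MonoidAlgebra.lift_apply, Finsupp.sum, LinearMap.sum_apply]
  rw [Finsupp.sum] at h
  rw [← h]
  refine Finset.sum_congr rfl fun m _ => ?_
  rw [LinearMap.smul_apply]
  congr 2
  have h1 : m = deg (s0 m⁻¹)⁻¹ := by rw [map_inv, hs0, inv_inv]
  conv_lhs => rw [h1, hρ]
  rfl

end Pool.Agent.TST.H41
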