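import Pool.Agent.Helper79_TOR.Stmts
import Pool.Agent.Helper41_TOR.Ts

/-! Module CHN of the T2-STAB block: letters, embeddings, functoriality -/

set_option autoImplicit false

namespace Pool.Agent.TST.H41

open Pointwise Set CategoryTheory Rep Pool.Agent.TOR Pool.Agent.TOR.H58 Pool.Agent.TST

/-! ## functoriality of the stabilisation -/

theorem upE_trans {ι ι' β : Type} (e : ι ↪ ι') (e' : ι' ↪ β) (φ : MulAut (FreeGroup ι)) :
    upE (e.trans e') φ = upE e' (upE e φ) := by
  refine MulEquiv.ext fun x => ?_
  have h : (upE (e.trans e') φ).toMonoidHom = (upE e' (upE e φ)).toMonoidHom := by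
    refine fx fun b => ?_
    change upE (e.trans e') φ (FreeGroup.of b) = upE e' (upE e φ) (FreeGroup.of b)
    by_cases hb : ∃ j, e' j = b
    · obtain ⟨j, rfl⟩ := hb
      by_cases hj : ∃ i, e i = j
      · obtain ⟨i, rfl⟩ := hj
        have h1 : (FreeGroup.of (e' (e i)) : FreeGroup β) =
            FreeGroup.map (e.trans e') (FreeGroup.of i) := by rw [mof]; rfl
        have h2 : (FreeGroup.of (e' (e i)) : FreeGroup β) =
            FreeGroup.map e' (FreeGroup.map e (FreeGroup.of i)) := by rw [mof, mof]
        rw [h1, upE_map, ← h1, h2, upE_map, upE_map]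
        have h3 : ∀ y : FreeGroup ι, FreeGroup.map (e.trans e') y =
            FreeGroup.map e' (FreeGroup.map e y) := by
          intro y
          have h4 : FreeGroup.map (e.trans e') = (FreeGroup.map e').comp (FreeGroup.map e) := by
            refine fx fun a => ?_
            rw [MonoidHom.comp_apply, mof, mof, mof]; rfl
          exact DFunLike.congr_fun h4 y
        exact h3 _
      · rw [upE_new (e.trans e') φ (e' j) (fun i hi => hj ⟨i, e'.injective hi⟩)]
        have h2 : (FreeGroup.of (e' j) : FreeGroup β) =
            FreeGroup.map e' (FreeGroup.of j) := by rw [mof]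
        rw [h2, upE_map, upE_new e φ j (fun i hi => hj ⟨i, hi⟩)]
    · rw [upE_new e' _ b (fun j hj => hb ⟨j, hj⟩),
        upE_new (e.trans e') φ b (fun i hi => hb ⟨e i, hi⟩)]
  exact DFunLike.congr_fun h x

theorem upE_refl {ι : Type} (φ : MulAut (FreeGroup ι)) :
    upE (Function.Embedding.refl ι) φ = φ := by
  refine MulEquiv.ext fun x => ?_
  have h : (upE (Function.Embedding.refl ι) φ).toMonoidHom = φ.toMonoidHom := by
    refine fx fun b => ?_
    change upE (Function.Embedding.refl ι) φ (FreeGroup.of b) = φ (FreeGroup.of b)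
    have h0 : ∀ y : FreeGroup ι, FreeGroup.map (Function.Embedding.refl ι) y = y := by
      intro y
      have h4 : FreeGroup.map (Function.Embedding.refl ι) = MonoidHom.id (FreeGroup ι) := by
        refine fx fun a => ?_
        rw [mof]; rfl
      exact DFunLike.congr_fun h4 y
    have h1 := upE_map (Function.Embedding.refl ι) φ (FreeGroup.of b)
    rw [h0, h0] at h1
    exact h1
  exact DFunLike.congr_fun h x

/-! ## letters -/

/-- ι with n blocks of new letters -/
def It (ι δ : Type) : ℕ → Type
  | 0 => ι
  | n + 1 => It ι δ n ⊕ δ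

instance itFin (ι δ : Type) [Fintype ι] [Fintype δ] : ∀ n, Fintype (It ι δ n)
  | 0 => inferInstanceAs (Fintype ι)
  | n + 1 => by
    have := itFin ι δ n
    exact inferInstanceAs (Fintype (It ι δ n ⊕ δ))

/-- the embedding of the old letters -/
def emb (ι δ : Type) : ∀ n, ι ↪ It ι δ n
  | 0 => Function.Embedding.refl ι
  | n + 1 => (emb ι δ n).trans Function.Embedding.inl

/-- extension of a function on the letters -/
def fI {ι δ β : Type} (e : ι → β) (g : ℕ → δ → β) : ∀ n, It ι δ n → β
  | 0 => e
  | n + 1 => Sum.elim (fI e g n) (g n)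

theorem fI_emb {ι δ β : Type} (e : ι → β) (g : ℕ → δ → β) (n : ℕ) (i : ι) :
    fI e g n (emb ι δ n i) = e i := by
  induction n with
  | zero => rfl
  | succ n ih => exact ih

/-- choice of new letters -/
theorem exists_g {ι δ β : Type} [Fintype ι] [Fintype δ] [Fintype β] (e : ι ↪ β) (N : ℕ)
    [Nonempty β] (h : Fintype.card ι + N * Fintype.card δ ≤ Fintype.card β) :
    ∃ g : ℕ → δ → β, ∀ n, n ≤ N → Function.Injective (fI (e : ι → β) g n) := by
  classical
  have h1 : Fintype.card (Fin N × δ) ≤ Fintype.card {b : β // b ∉ Set.range e} := by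
    rw [Fintype.card_prod, Fintype.card_fin]
    have h2 : Fintype.card {b : β // b ∉ Set.range e} =
        Fintype.card β - Fintype.card {b : β // b ∈ Set.range e} :=
      Fintype.card_subtype_compl _
    have h3 : Fintype.card {b : β // b ∈ Set.range e} = Fintype.card ι := by
      have := Fintype.card_congr (Equiv.ofInjective e e.injective)
      rw [this]
    rw [h2, h3]
    omega
  obtain ⟨G⟩ := Function.Embedding.nonempty_of_card_le h1
  let g : ℕ → δ → β := fun n d => if hn : n < N then (G (⟨n, hn⟩, d)).1
    else Classical.arbitrary β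
  refine ⟨g, ?_⟩
  have key : ∀ n, n ≤ N → Function.Injective (fI (e : ι → β) g n) ∧
      ∀ x, fI (e : ι → β) g n x ∈ Set.range e ∨
        ∃ (m : Fin N) (d : δ), (m : ℕ) < n ∧ fI (e : ι → β) g n x = (G (m, d)).1 := by
    intro n
    induction n with
    | zero =>
      intro _
      exact ⟨e.injective, fun x => Or.inl ⟨x, rfl⟩⟩
    | succ n ih =>
      intro hn
      obtain ⟨i1, i2⟩ := ih (by omega)
      have hg : ∀ d, g n d = (G (⟨n, by omega⟩, d)).1 := by
        intro d
        change (if hn : n < N then (G (⟨n, hn⟩, d)).1 else Classical.arbitrary β) = _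
        rw [dif_pos]
      have hne : ∀ x d, fI (e : ι → β) g n x ≠ g n d := by
        intro x d hx
        rw [hg] at hx
        rcases i2 x with h | ⟨m, d', hm, h⟩
        · rw [hx] at h
          exact (G (⟨n, by omega⟩, d)).2 h
        · rw [h] at hx
          have h5 := G.injective (Subtype.ext hx)
          have h6 := congrArg (fun t => ((t.1 : Fin N) : ℕ)) h5
          simp only at h6
          omega
      constructor
      · intro a b hab
        rcases a with a | a <;> rcases b with b | b
        · exact congrArg Sum.inl (i1 hab)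
        · exact absurd hab (hne a b)
        · exact absurd hab.symm (hne b a)
        · have h7 : g n a = g n b := hab
          rw [hg, hg] at h7
          have h5 := G.injective (Subtype.ext h7)
          exact congrArg Sum.inr (congrArg Prod.snd h5)
      · rintro (x | d)
        · rcases i2 x with h | ⟨m, d', hm, h⟩
          · exact Or.inl h
          · exact Or.inr ⟨m, d', by omega, h⟩
        · exact Or.inr ⟨⟨n, by omega⟩, d, Nat.lt_succ_self n, hg d⟩
  intro n hn
  exact (key n hn).1

end Pool.Agent.TST.H41
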