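import Pool.Agent.Helper79_TOR.Act
import Pool.Agent.Helper41_TOR.Ch

/-! Module CHN of the T2-STAB block: T2S from LAD, ZST, XEX -/

set_option autoImplicit false

namespace Pool.Agent.TST.H41

open Pointwise Set CategoryTheory Rep Pool.Agent.TOR Pool.Agent.TOR.H58 Pool.Agent.TST

section idm

variable {Γ Γ' : Type} [Group Γ] [Group Γ'] {R : Type} [CommRing R]

/-- the identity of R as a map of rank one representations -/
noncomputable def idm (j : Γ →* Γ') (u : Γ →* R) (u' : Γ' →* R) (h : ∀ g, u' (j g) = u g) :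
    chRep R u ⟶ res j (chRep R u') :=
  ofHom ⟨LinearMap.id, fun g => by
    refine LinearMap.ext fun r => ?_
    change u g * r = u' (j g) * r
    rw [h]⟩

theorem idm_apply (j : Γ →* Γ') (u : Γ →* R) (u' : Γ' →* R) (h : ∀ g, u' (j g) = u g) (r : R) :
    ((idm j u u' h).hom r : R) = r := rfl

end idm

theorem nonempty_XX {R : Type} [CommRing R] {ι : Type} [Fintype ι] (z : ι) (χ : ι → Rˣ)
    (h : Acyc ℤ (KF (FreeGroup ι) (hsV (z := z) (χ := χ)))) : Nonempty (XX z χ 0) := by
  classical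
  have h1 : (Finsupp.single ([] : List (VV z χ)) (1 : ℤ)) ∈
      Sup ℤ (KL (KF (FreeGroup ι) (hsV (z := z) (χ := χ)))) := by
    intro l hl
    have h2 : l = [] := by
      by_contra h3
      apply hl
      rw [Finsupp.single_apply, if_neg (fun h => h3 h.symm)]
    subst h2
    intro v hv
    exact absurd hv (List.not_mem_nil)
  obtain ⟨b, hb, hbc⟩ := h _ h1 (by simp [bd_single, bd1])
  by_contra hne
  have h4 : ∀ l : List (VV z χ), b l ≠ 0 → l = [] := by
    intro l hl
    rcases l with _ | ⟨v, l⟩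
    · rfl
    · exfalso
      apply hne
      refine ⟨⟨fun _ => v, ?_⟩⟩
      have h5 := hb _ hl
      refine KF_down ?_ h5
      rintro _ ⟨_, rfl⟩
      exact List.mem_cons_self
  have h5 : b = Finsupp.single [] (b []) := by
    ext l
    rw [Finsupp.single_apply]
    split_ifs with h6
    · rw [h6]
    · by_contra h7
      exact h6 (h4 l h7).symm
  rw [h5] at hbc
  have h6 : bd (Finsupp.single ([] : List (VV z χ)) (b [])) = 0 := by simp [bd_single, bd1]
  rw [h6] at hbc
  have h7 := DFunLike.congr_fun hbc []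
  simp at h7

theorem upG_eq {ι κ β : Type} (e₁ : ι ↪ κ) (e₂ : κ ↪ β) (z : ι) (φ : Gp z) :
    upG (e₁.trans e₂) z φ = upG e₂ (e₁ z) (upG e₁ z φ) :=
  Subtype.ext (upE_trans e₁ e₂ _)

/-- factorization through an intermediate set of letters -/
theorem factor {R : Type} [CommRing R] {ι κ β : Type} [Fintype ι] [Fintype κ] [Fintype β]
    (e₁ : ι ↪ κ) (e₂ : κ ↪ β) (e : ι ↪ β) (he : e₁.trans e₂ = e) (z : ι) (χ : β → Rˣ) (q : ℕ)
    (f : chRep R (chR z (fun i => χ (e i))) ⟶ res (upG e z) (chRep R (chR (e z) χ)))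
    (hf : ∀ r : R, (f.hom r : R) = r)
    (h0 : ∀ (χ0 : ι → Rˣ) (_ : χ0 = fun i => χ (e i))
      (w : chRep R (chR z χ0) ⟶ res (upG e₁ z) (chRep R (chR (e₁ z) (fun x => χ (e₂ x))))),
      (∀ r : R, (w.hom r : R) = r) → groupHomology.map (upG e₁ z) w q = 0) :
    groupHomology.map (upG e z) f q = 0 := by
  subst he
  let w : chRep R (chR z (fun i => χ (e₂ (e₁ i)))) ⟶
      res (upG e₁ z) (chRep R (chR (e₁ z) (fun x => χ (e₂ x)))) :=
    idm _ _ _ (fun φ => chR_up e₁ z (fun x => χ (e₂ x)) φ)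
  let v : chRep R (chR (e₁ z) (fun x => χ (e₂ x))) ⟶
      res (upG e₂ (e₁ z)) (chRep R (chR (e₂ (e₁ z)) χ)) :=
    idm _ _ _ (fun φ => chR_up e₂ (e₁ z) χ φ)
  have h1 := h0 (fun i => χ (e₂ (e₁ i))) rfl w (fun r => rfl)
  let c : chRep R (chR z (fun i => χ (e₂ (e₁ i)))) ⟶
      res ((upG e₂ (e₁ z)).comp (upG e₁ z)) (chRep R (chR (e₂ (e₁ z)) χ)) :=
    idm _ _ _ (fun φ => by
      rw [MonoidHom.comp_apply, chR_up e₂ (e₁ z) χ]
      exact chR_up e₁ z (fun x => χ (e₂ x)) φ)
  have h2 := map_map (upG e₁ z) (upG e₂ (e₁ z)) w v c (fun r => rfl) q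
  have h3 : groupHomology.map (upG (e₁.trans e₂) z) f q =
      groupHomology.map ((upG e₂ (e₁ z)).comp (upG e₁ z)) c q := by
    refine groupHomology.map_congr (MonoidHom.ext fun φ => upG_eq e₁ e₂ z φ) ?_ q
    exact LinearMap.ext fun r => hf r
  rw [h3, h2, h1]
  exact Limits.zero_comp

theorem t2s (hL : LAD) (hZ : ZST) (hX : XEX) (hH : HDS) (hA : PLA) (hN : PLN) (hP : PLP) :
    T2S := by
  intro q R _ _ ι β _ _ e z χ i hiz hu hcard f hf
  let δ : Type := Fin (2 * q + 1)
  have hne : Nonempty β := ⟨e z⟩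
  obtain ⟨g, hg⟩ := exists_g (δ := δ) e (q + 1) (by
    change _ + (q + 1) * Fintype.card (Fin (2 * q + 1)) ≤ _
    rw [Fintype.card_fin]
    exact hcard)
  let χn : ∀ n, It ι δ n → Rˣ := fun n x => χ (fI (e : ι → β) g n x)
  let zn : ∀ n, It ι δ n := fun n => emb ι δ n z
  let G : ℕ → Type := fun n => Gp (zn n)
  let s : ∀ n, Gp (zn n) →* Gp (zn (n + 1)) := fun n => upS δ (zn n)
  let A : ∀ n, Rep.{0} R (Gp (zn n)) := fun n => chRep R (chR (zn n) (χn n))
  let a : ∀ n, A n ⟶ res (s n) (A (n + 1)) := fun n =>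
    idm (s n) _ _ (fun φ => chR_up (inE (It ι δ n) δ) (zn n) (χn (n + 1)) φ)
  have hac : ∀ n (M : Type) [AddCommGroup M],
      Acyc M (KF (FreeGroup (It ι δ n)) (hsV (z := zn n) (χ := χn n))) := by
    intro n M _
    refine hX R (It ι δ n) (zn n) (χn n) (emb ι δ n i) (fun h => hiz ((emb ι δ n).injective h)) ?_ M
    change IsUnit ((χ (fI (e : ι → β) g n (emb ι δ n i)) : R) - 1)
    rw [fI_emb]
    exact hu
  have hnX : ∀ n, Nonempty (XX (zn n) (χn n) 0) := fun n => nonempty_XX _ _ (hac n ℤ)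
  let L : ∀ n, groupHomology (A 0) q ⟶ groupHomology (A n) q := fun n =>
    Nat.rec (𝟙 _) (fun n h => h ≫ groupHomology.map (s n) (a n) q) n
  have key : L (q + 1) = 0 := by
    refine hL R q (fun n => Gp (zn n)) s A a (fun n p => XX (zn n) (χn n) p)
      (fun n p i x => fXX (zn n) (χn n) p i x)
      (fun n p x => xUp (z := zn n) (χ := χn (n + 1)) hH hA hN p x) ?_ ?_ ?_ ?_ ?_ ?_ ?_ L rfl
      (fun n => rfl)
    · intro j p i φ x
      exact fXX_smul p i φ x
    · intro j p i l h x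
      exact ofc_ofc _ p i l h x
    · intro j _ c hc
      exact exact0_of_acyc _ (hac j R) c hc
    · intro j p _ c hc
      exact exact_of_acyc _ (hac j R) p c hc
    · intro j p φ x
      exact xUp_smul (z := zn j) (χ := χn (j + 1)) hH hA hN hP p φ x
    · intro j p i x
      exact xUp_face (z := zn j) (χ := χn (j + 1)) hH hA hN p i x
    · intro j p hp x sx hsx f hf
      refine stab_zero (z := zn j) (χ := χn (j + 1)) hH hA hN hZ (q - p) ?_ p x sx hsx f hf
      change _ ≤ Fintype.card (Fin (2 * q + 1))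
      rw [Fintype.card_fin]
      omega
  have hLn : ∀ n, ∀ w : A 0 ⟶ res (upG (emb ι δ n) z) (A n), (∀ r : R, (w.hom r : R) = r) →
      L n = groupHomology.map (upG (emb ι δ n) z) w q := by
    intro n
    induction n with
    | zero =>
      intro w hw
      have h1 : groupHomology.map (upG (emb ι δ 0) z) w q =
          groupHomology.map (MonoidHom.id (Gp z)) (𝟙 (A 0)) q := by
        refine groupHomology.map_congr (MonoidHom.ext fun φ => Subtype.ext (upE_refl _)) ?_ q
        exact LinearMap.ext fun r => hw r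
      exact (h1.trans (groupHomology.map_id (A := A 0) (n := q))).symm
    | succ n ih =>
      intro w hw
      let wn : A 0 ⟶ res (upG (emb ι δ n) z) (A n) := idm _ _ _ (fun φ => by
        refine (chR_up (emb ι δ n) z (χn n) φ).trans ?_
        congr 2
        funext x
        exact congrArg χ (fI_emb (e : ι → β) g n x))
      have h2 : L (n + 1) = L n ≫ groupHomology.map (s n) (a n) q := rfl
      rw [h2, ih wn (fun r => rfl)]
      let c : A 0 ⟶ res ((s n).comp (upG (emb ι δ n) z)) (A (n + 1)) :=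
        ofHom ⟨LinearMap.id, fun φ => by
          refine LinearMap.ext fun r => ?_
          have h4 := hom_comm_apply w φ r
          have h5 : upG (emb ι δ (n + 1)) z φ = ((s n).comp (upG (emb ι δ n) z)) φ :=
            upG_eq (emb ι δ n) (inE (It ι δ n) δ) z φ
          change (A 0).ρ φ r = (A (n + 1)).ρ (((s n).comp (upG (emb ι δ n) z)) φ) r
          rw [← h5]
          refine (hw _).symm.trans (h4.trans ?_)
          exact congrArg ((A (n + 1)).ρ (upG (emb ι δ (n + 1)) z φ)) (hw r)⟩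
      refine (map_map (upG (emb ι δ n) z) (s n) wn (a n) c (fun r => rfl) q).symm.trans ?_
      refine groupHomology.map_congr (MonoidHom.ext fun φ =>
        (upG_eq (emb ι δ n) (inE (It ι δ n) δ) z φ).symm) ?_ q
      exact LinearMap.ext fun r => (hw r).symm
  let f' : It ι δ (q + 1) ↪ β := ⟨fI (e : ι → β) g (q + 1), hg (q + 1) le_rfl⟩
  refine factor (emb ι δ (q + 1)) f' e
    (Function.Embedding.ext fun x => fI_emb (e : ι → β) g (q + 1) x) z χ q f hf ?_
  intro χ0 hχ0 w hw
  subst hχ0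
  exact (hLn (q + 1) w hw).symm.trans key

end Pool.Agent.TST.H41
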