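import Pool.Agent.Helper41_TOR.Gp

set_option autoImplicit false

namespace Pool.Agent.TOR

open CategoryTheory CategoryTheory.Limits Rep Representation

universe u

variable {k G : Type u} [CommRing k] [Group G]

section gen

theorem hI_surj_zero {A B : Rep.{u} k G} (f : A ⟶ B) (hf : Function.Surjective f.hom)
    (y : groupHomology B 0) : ∃ z, hI f 0 z = y := by
  obtain ⟨b, rfl⟩ := H0_surj B y
  obtain ⟨a, rfl⟩ := hf b
  exact ⟨groupHomology.H0π A a, H0_map (MonoidHom.id G) (B := B) f a⟩

/-- abstract generation lemma -/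
theorem gen_resolution (m : ℕ) (A : Rep.{u} k G) (P : ℕ → Rep.{u} k G)
    (d : ∀ p, P (p + 1) ⟶ P p) (ε : P 0 ⟶ A) (hε : Epi ε)
    (w0 : d 0 ≫ ε = 0) (w : ∀ p, d (p + 1) ≫ d p = 0)
    (e0 : 0 < m → (ShortComplex.mk (d 0) ε w0).Exact)
    (e : ∀ p, p + 1 < m → (ShortComplex.mk (d (p + 1)) (d p) (w p)).Exact)
    (hv : ∀ p, 1 ≤ p → p ≤ m → Van (P p) (m - p)) (y : groupHomology A m) :
    ∃ z, hI ε m z = y := by
  cases m with
  | zero => exact hI_surj_zero ε ((Rep.epi_iff_surjective _).1 hε) y
  | succ m =>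
    let X : ShortComplex (Rep.{u} k G) := ShortComplex.mk (kernel.ι ε) ε (kernel.condition _)
    have hX : X.ShortExact :=
      { exact := ShortComplex.exact_kernel _
        mono_f := by dsimp [X]; infer_instance
        epi_g := hε }
    have hK : Van (kernel ε) m := by
      have e0' := e0 (Nat.succ_pos m)
      have hepi : Epi (kernel.lift ε (d 0) w0) :=
        (ShortComplex.exact_iff_epi_kernel_lift _).1 e0'
      refine van_resolution m (kernel ε) (fun p => P (p + 1)) (fun p => d (p + 1))
        (kernel.lift ε (d 0) w0) hepi ?_ (fun p => w (p + 1)) ?_ ?_ ?_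
      · rw [← cancel_mono (kernel.ι ε)]; simp [w 0]
      · intro hm
        have h1 := e 0 (by omega)
        have hw : d 1 ≫ kernel.lift ε (d 0) w0 = 0 := by
          rw [← cancel_mono (kernel.ι ε)]; simp [w 0]
        let φ : ShortComplex.mk (d 1) (kernel.lift ε (d 0) w0) hw ⟶
            ShortComplex.mk (d 1) (d 0) (w 0) :=
          { τ₁ := 𝟙 _
            τ₂ := 𝟙 _
            τ₃ := kernel.ι ε
            comm₁₂ := by simp
            comm₂₃ := by simp }
        have hepi1 : Epi φ.τ₁ := by dsimp [φ]; infer_instance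
        have hiso : IsIso φ.τ₂ := by dsimp [φ]; infer_instance
        have hmono : Mono φ.τ₃ := by dsimp [φ]; infer_instance
        exact (ShortComplex.exact_iff_of_epi_of_isIso_of_mono φ).2 h1
      · intro p hp
        exact e (p + 1) (by omega)
      · intro p hp
        have h2 := hv (p + 1) (by omega) (by omega)
        have h3 : m + 1 - (p + 1) = m - p := by omega
        rw [h3] at h2
        exact h2
    exact ex3 hX m y (van_elt hK _)

/-- inclusion of the stabiliser on homology -/
noncomputable def sti (X : Type u) [MulAction G X] (A : Rep.{u} k G) (x : X) (n : ℕ) :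
    groupHomology (res (MulAction.stabilizer G x).subtype A) n →ₗ[k] groupHomology A n :=
  gI (MulAction.stabilizer G x).subtype (𝟙 (res (MulAction.stabilizer G x).subtype A)) n

theorem aug_st (X : Type u) [MulAction G X] (A : Rep.{u} k G) (x : X) (n : ℕ)
    (c : groupHomology (res (MulAction.stabilizer G x).subtype A) n) :
    hI (aug X A) n (st X A x n c) = sti X A x n c := by
  refine gI_hI _ (sing X A x) (aug X A) (𝟙 _) (fun a => ?_) n c
  exact (aug_single X A x a).symm

variable (X : ℕ → Type u) [∀ p, MulAction G (X p)] (face : ∀ p, Fin (p + 2) → X (p + 1) → X p)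

/-- GEN: under the hypotheses of van_of_action for p ≥ 1 the homology of G in degree m is
generated by the homology of the stabilisers of the vertices. -/
theorem gen_of_action (m : ℕ) (A : Rep.{u} k G) [Nonempty (X 0)]
    (hG : ∀ p i (g : G) (x : X (p + 1)), face p i (g • x) = g • face p i x)
    (hs : ∀ p (i : Fin (p + 2)) (j : Fin (p + 3)) (h : (j : ℕ) ≤ i) (x : X (p + 2)),
      face p i (face (p + 1) j x) = face p (Fin.castLT j (lt_of_le_of_lt h i.2))
        (face (p + 1) i.succ x))
    (h0 : 0 < m → ∀ c : X 0 →₀ A, auM (X 0) A c = 0 → ∃ b, bdM X face A 0 b = c)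
    (hex : ∀ p, p + 1 < m → ∀ c : X (p + 1) →₀ A, bdM X face A p c = 0 →
      ∃ b, bdM X face A (p + 1) b = c)
    (hst : ∀ p, 1 ≤ p → p ≤ m → ∀ x : X p,
      Van (res (MulAction.stabilizer G x).subtype A) (m - p))
    (W : AddSubgroup (groupHomology A m)) (hW : ∀ (x : X 0) c, sti (X 0) A x m c ∈ W)
    (y : groupHomology A m) : y ∈ W := by
  have w0 : dR X face hG A 0 ≫ aug (X 0) A = 0 := by
    have h1 : ∀ i : Fin 2, permMap A (face 0 i) (hG 0 i) ≫ aug (X 0) A = aug (X 1) A := by
      intro i
      have h2 : (Finsupp.lsum k (fun _ : X 0 => (LinearMap.id : A →ₗ[k] A))) ∘ₗ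
          Finsupp.lmapDomain A k (face 0 i) =
          Finsupp.lsum k (fun _ : X 1 => (LinearMap.id : A →ₗ[k] A)) := by
        refine Finsupp.lhom_ext fun x a => ?_
        simp
      refine Rep.hom_ext (DFunLike.ext _ _ fun c => ?_)
      exact LinearMap.congr_fun h2 c
    unfold dR
    rw [Fin.sum_univ_two]
    simp [Preadditive.add_comp, h1]
  obtain ⟨z, rfl⟩ := gen_resolution m A (fun p => perm (X p) A) (dR X face hG A) (aug (X 0) A)
    inferInstance w0 (dR_comp X face hG hs A)
    (fun hm => rep_exact fun c hc => h0 hm c hc)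
    (fun p hp => rep_exact fun c hc => by
      obtain ⟨b, hb⟩ := hex p hp c ((dR_apply X face hG A p c).symm.trans hc)
      exact ⟨b, (dR_apply X face hG A (p + 1) b).trans hb⟩)
    (fun p hp1 hp => van_perm (X p) A (m - p) fun x => ⟨1, by rw [one_smul]; exact hst p hp1 hp x⟩)
    y
  have h3 := gen_perm (X 0) A m (W.comap (hI (aug (X 0) A) m).toAddMonoidHom) (fun x c => by
    change hI (aug (X 0) A) m (st (X 0) A x m c) ∈ W
    rw [aug_st]
    exact hW x c) z
  exact h3

end gen

end Pool.Agent.TOR
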