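import Pool.Agent.Helper41_TOR.Sp

set_option autoImplicit false

namespace Pool.Agent.TOR

open CategoryTheory CategoryTheory.Limits Rep Representation

universe u

variable {k G : Type u} [CommRing k] [Group G]

/-- a class only involves finitely many coefficients -/
theorem hI_local (A : Rep.{u} k G) (n : ℕ) (y : groupHomology A n) :
    ∃ s : Finset A, ∀ e : A ⟶ A, (∀ a ∈ s, e.hom a = a) → hI e n y = y := by
  classical
  induction y using groupHomology_induction_on with
  | h c =>
    set f := groupHomology.iCycles A n c with hf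
    refine ⟨Finset.image (fun g => (show (Fin n → G) →₀ A from f) g)
      (Finsupp.support (show (Fin n → G) →₀ A from f)), fun e he => ?_⟩
    have h1 : (groupHomology.chainsMap (MonoidHom.id G) e).f n f = f := by
      change ((groupHomology.chainsMap (MonoidHom.id G) e).f n).hom f = f
      rw [groupHomology.chainsMap_id_f_hom_eq_mapRange]
      refine Finsupp.ext fun g => ?_
      change e.hom ((show (Fin n → G) →₀ A from f) g) = (show (Fin n → G) →₀ A from f) g
      by_cases hg : (show (Fin n → G) →₀ A from f) g = 0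
      · rw [hg, map_zero]
      · exact he _ (Finset.mem_image_of_mem _ (Finsupp.mem_support_iff.2 hg))
    have h2 : groupHomology.cyclesMap (MonoidHom.id G) e n c = c := by
      have hm : Function.Injective (groupHomology.iCycles A n) :=
        (ModuleCat.mono_iff_injective _).1 inferInstance
      apply hm
      have h4 := ConcreteCategory.congr_hom
        (HomologicalComplex.cyclesMap_i (groupHomology.chainsMap (MonoidHom.id G) e) n) c
      exact h4.trans h1
    have h3 := groupHomology.π_map_apply (MonoidHom.id G) e n c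
    rw [h2] at h3
    exact h3

theorem hI_add {A B : Rep.{u} k G} (f g : A ⟶ B) (n : ℕ) (y : groupHomology A n) :
    hI (f + g) n y = hI f n y + hI g n y := by
  unfold hI
  rw [hmap_add]; rfl

theorem hI_sum {A B : Rep.{u} k G} {ι : Type*} (s : Finset ι) (f : ι → (A ⟶ B)) (n : ℕ)
    (y : groupHomology A n) : hI (∑ x ∈ s, f x) n y = ∑ x ∈ s, hI (f x) n y := by
  unfold hI
  rw [hmap_sum, ModuleCat.hom_sum, LinearMap.sum_apply]

theorem hI_comp {A B C : Rep.{u} k G} (f : A ⟶ B) (g : B ⟶ C) (n : ℕ)
    (y : groupHomology A n) : hI (f ≫ g) n y = hI g n (hI f n y) := by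
  unfold hI
  rw [groupHomology.map_id_comp]; rfl

variable (X : Type u) [MulAction G X] (A : Rep.{u} k G)

theorem orb_smul (x₀ : X) (g : G) (x : X) :
    g • x ∈ MulAction.orbit G x₀ ↔ x ∈ MulAction.orbit G x₀ := by
  constructor
  · rintro ⟨h, hh⟩
    have hh' : h • x₀ = g • x := hh
    exact ⟨g⁻¹ * h, by change (g⁻¹ * h) • x₀ = x; rw [mul_smul, hh', inv_smul_smul]⟩
  · rintro ⟨h, rfl⟩
    exact ⟨g * h, mul_smul g h x₀⟩

open Classical in
/-- components of the projection to an orbit -/
noncomputable def pOl (x₀ x : X) : A →ₗ[k] (MulAction.orbit G x₀ →₀ A) :=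
  if h : x ∈ MulAction.orbit G x₀ then Finsupp.lsingle ⟨x, h⟩ else 0

theorem pOl_mem (x₀ x : X) (h : x ∈ MulAction.orbit G x₀) (a : A) :
    pOl X A x₀ x a = Finsupp.single ⟨x, h⟩ a := by
  unfold pOl; rw [dif_pos h]; rfl

theorem pOl_not (x₀ x : X) (h : x ∉ MulAction.orbit G x₀) (a : A) : pOl X A x₀ x a = 0 := by
  unfold pOl; rw [dif_neg h]; rfl

/-- projection to an orbit -/
noncomputable def pO (x₀ : X) : perm X A ⟶ perm (MulAction.orbit G x₀) A :=
  ofHom ⟨Finsupp.lsum k (pOl X A x₀), fun g => by
    refine Finsupp.lhom_ext fun x a => ?_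
    change Finsupp.lsum k (pOl X A x₀) (permR X A g (Finsupp.single x a)) =
      permR (MulAction.orbit G x₀) A g (Finsupp.lsum k (pOl X A x₀) (Finsupp.single x a))
    rw [permR_single, Finsupp.lsum_single, Finsupp.lsum_single]
    by_cases h : x ∈ MulAction.orbit G x₀
    · have h' : g • x ∈ MulAction.orbit G x₀ := (orb_smul X x₀ g x).2 h
      rw [pOl_mem X A x₀ x h, pOl_mem X A x₀ _ h']
      exact (permR_single (MulAction.orbit G x₀) A g ⟨x, h⟩ a).symm
    · have h' : g • x ∉ MulAction.orbit G x₀ := fun hh => h ((orb_smul X x₀ g x).1 hh)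
      rw [pOl_not X A x₀ x h, pOl_not X A x₀ _ h', map_zero]⟩

theorem pO_single (x₀ x : X) (a : A) :
    (pO X A x₀).hom (Finsupp.single x a : X →₀ A) = pOl X A x₀ x a := by
  change Finsupp.lsum k (pOl X A x₀) (Finsupp.single x a) = _
  rw [Finsupp.lsum_single]

/-- inclusion of an orbit -/
noncomputable def iO (x₀ : X) : perm (MulAction.orbit G x₀) A ⟶ perm X A :=
  permMap A (fun x : MulAction.orbit G x₀ => (x : X)) (fun _ _ => rfl)

theorem iO_single (x₀ : X) (x : MulAction.orbit G x₀) (a : A) :
    (iO X A x₀).hom (Finsupp.single x a : MulAction.orbit G x₀ →₀ A) =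
      (Finsupp.single (x : X) a : X →₀ A) := by
  change Finsupp.lmapDomain A k _ (Finsupp.single x a) = _
  rw [Finsupp.lmapDomain_apply, Finsupp.mapDomain_single]

open Classical in
theorem iO_pO_single (x₀ x : X) (a : A) :
    (iO X A x₀).hom ((pO X A x₀).hom (Finsupp.single x a : X →₀ A)) =
      if x ∈ MulAction.orbit G x₀ then (Finsupp.single x a : X →₀ A) else 0 := by
  rw [pO_single]
  by_cases h : x ∈ MulAction.orbit G x₀
  · rw [pOl_mem X A x₀ x h, if_pos h, iO_single]
  · rw [pOl_not X A x₀ x h, if_neg h]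
    exact map_zero (iO X A x₀).hom

/-- comparison of the stabiliser of a point of the orbit with the stabiliser in X -/
noncomputable def jO (x₀ : X) (x : MulAction.orbit G x₀) :
    MulAction.stabilizer G x →* MulAction.stabilizer G (x : X) :=
  Subgroup.inclusion (fun g hg => by
    rw [MulAction.mem_stabilizer_iff] at hg ⊢
    exact congrArg Subtype.val hg)

theorem iO_st (x₀ : X) (x : MulAction.orbit G x₀) (n : ℕ)
    (c : groupHomology (res (MulAction.stabilizer G x).subtype A) n) :
    ∃ c', hI (iO X A x₀) n (st (MulAction.orbit G x₀) A x n c) = st X A (x : X) n c' := by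
  let j : res (MulAction.stabilizer G x).subtype A ⟶
      res (jO X x₀ x) (res (MulAction.stabilizer G (x : X)).subtype A) := ofHom ⟨LinearMap.id,
        fun g => by ext a; rfl⟩
  refine ⟨gI (jO X x₀ x) j n c, ?_⟩
  let t : res (MulAction.stabilizer G x).subtype A ⟶
      res (MulAction.stabilizer G x).subtype (perm X A) := ofHom ⟨Finsupp.lsingle (x : X),
        fun g => by
          ext a : 1
          change Finsupp.single (x : X) (A.ρ g a) = permR X A g (Finsupp.single (x : X) a)
          have hg : (g : G) • (x : X) = x := congrArg Subtype.val (MulAction.mem_stabilizer_iff.1 g.2)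
          rw [permR_single, hg]⟩
  refine (gI_hI _ (sing (MulAction.orbit G x₀) A x) (iO X A x₀) t (fun a => ?_) n c).trans
    (gI_comp (jO X x₀ x) (MulAction.stabilizer G (x : X)).subtype j (sing X A (x : X)) t
      (fun a => rfl) n c).symm
  exact (iO_single X A x₀ x a).symm

/-- the homology of a permutation module is generated by the homology of the stabilisers -/
theorem gen_perm (n : ℕ) (W : AddSubgroup (groupHomology (perm X A) n))
    (h : ∀ x c, st X A x n c ∈ W) (y : groupHomology (perm X A) n) : y ∈ W := by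
  classical
  obtain ⟨s, hs⟩ := hI_local (perm X A) n y
  let mkO : X → Quotient (MulAction.orbitRel G X) := Quotient.mk''
  let rep : Quotient (MulAction.orbitRel G X) → X := fun o => o.out
  have hmem : ∀ o x, x ∈ MulAction.orbit G (rep o) ↔ mkO x = o := by
    intro o x
    constructor
    · intro hx
      rw [← Quotient.out_eq' o]
      exact Quotient.sound' hx
    · rintro rfl
      exact (MulAction.orbitRel_apply).1 (Quotient.exact' (Quotient.out_eq' _).symm)
  set F : Finset (Quotient (MulAction.orbitRel G X)) :=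
    s.biUnion fun f => (Finsupp.support (show X →₀ A from f)).image mkO with hF
  let e : perm X A ⟶ perm X A := ∑ o ∈ F, pO X A (rep o) ≫ iO X A (rep o)
  have he1 : ∀ a : perm X A, e.hom a = ∑ o ∈ F, (iO X A (rep o)).hom ((pO X A (rep o)).hom a) := by
    intro a
    have h1 : ∀ F : Finset (Quotient (MulAction.orbitRel G X)),
        (∑ o ∈ F, pO X A (rep o) ≫ iO X A (rep o) : perm X A ⟶ perm X A).hom a =
        ∑ o ∈ F, (iO X A (rep o)).hom ((pO X A (rep o)).hom a) := by
      intro F
      induction F using Finset.induction_on with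
      | empty => rw [Finset.sum_empty, Finset.sum_empty]; rfl
      | insert b t hb ih =>
        rw [Finset.sum_insert hb, Finset.sum_insert hb, ← ih]; rfl
    exact h1 F
  have he : ∀ a ∈ s, e.hom a = a := by
    intro f hf
    rw [he1]
    have hlin : ∀ (t : Finset X) (v : X → A), (∑ o ∈ F, (iO X A (rep o)).hom
        ((pO X A (rep o)).hom (∑ x ∈ t, Finsupp.single x (v x) : X →₀ A))) =
        ∑ x ∈ t, ∑ o ∈ F, (iO X A (rep o)).hom ((pO X A (rep o)).hom
          (Finsupp.single x (v x) : X →₀ A)) := by
      intro t v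
      rw [Finset.sum_comm]
      refine Finset.sum_congr rfl fun o _ => ?_
      have e1 : (pO X A (rep o)).hom (∑ x ∈ t, Finsupp.single x (v x) : X →₀ A) =
          ∑ x ∈ t, (pO X A (rep o)).hom (Finsupp.single x (v x) : X →₀ A) :=
        map_sum (pO X A (rep o)).hom _ _
      rw [e1]
      exact map_sum (iO X A (rep o)).hom _ _
    have hf1 : (show X →₀ A from f) = ∑ x ∈ (show X →₀ A from f).support,
        Finsupp.single x ((show X →₀ A from f) x) := (Finsupp.sum_single _).symm
    have h2 := hlin (show X →₀ A from f).support (fun x => (show X →₀ A from f) x)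
    rw [← hf1] at h2
    refine h2.trans ?_
    refine Eq.trans ?_ hf1.symm
    refine Finset.sum_congr rfl fun x hx => ?_
    rw [Finset.sum_eq_single_of_mem (mkO x)]
    · rw [iO_pO_single, if_pos ((hmem _ _).2 rfl)]
    · rw [hF, Finset.mem_biUnion]
      exact ⟨f, hf, Finset.mem_image_of_mem _ hx⟩
    · intro o _ ho
      refine (iO_pO_single X A (rep o) x _).trans (if_neg ?_)
      rw [hmem]
      exact fun h => ho h.symm
  rw [← hs e he]
  have h3 : hI e n y = ∑ o ∈ F, hI (iO X A (rep o)) n (hI (pO X A (rep o)) n y) := by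
    rw [hI_sum]
    refine Finset.sum_congr rfl fun o _ => ?_
    exact hI_comp _ _ n y
  rw [h3]
  refine AddSubgroup.sum_mem _ fun o _ => ?_
  let x' : MulAction.orbit G (rep o) := ⟨rep o, MulAction.mem_orbit_self _⟩
  obtain ⟨c, hc⟩ := st_surj (MulAction.orbit G (rep o)) x' (fun x => by
    obtain ⟨g, hg⟩ := x.2
    exact ⟨g, Subtype.ext hg⟩) n A (hI (pO X A (rep o)) n y)
  rw [← hc]
  obtain ⟨c', hc'⟩ := iO_st X A (rep o) x' n c
  rw [hc']
  exact h _ _

end Pool.Agent.TOR
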