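import Pool.Agent.Helper41_TOR.Nl

set_option autoImplicit false

namespace Pool.Agent.TOR

open CategoryTheory CategoryTheory.Limits Rep Representation

universe u

variable {k : Type u} [CommRing k]

theorem iSup_subgroupOf_eq_top {G : Type u} [Group G] {ι : Type*} (P : ι → Subgroup G) :
    (⨆ j, (P j).subgroupOf (⨆ i, P i)) = (⊤ : Subgroup ↥(⨆ i, P i)) := by
  have h1 : Subgroup.map (⨆ i, P i).subtype (⨆ j, (P j).subgroupOf (⨆ i, P i)) = ⨆ i, P i := by
    rw [Subgroup.map_iSup]
    refine iSup_congr fun j => ?_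
    rw [Subgroup.subgroupOf_map_subtype, inf_eq_left.2 (le_iSup P j)]
  rw [eq_top_iff]
  intro x _
  have hx : (x : G) ∈ Subgroup.map (⨆ i, P i).subtype (⨆ j, (P j).subgroupOf (⨆ i, P i)) := by
    rw [h1]; exact x.2
  obtain ⟨y, hy, hxy⟩ := hx
  have : y = x := Subtype.ext hxy
  rwa [← this]

/-- commuting subgroups, each with an element acting by a scalar u ≠ 1: the group they generate
has no homology in degrees < r. -/
theorem van_commuting_top (r : ℕ) : ∀ (H : Type u) [Group H] (A : Rep.{u} k H)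
    (P : Fin r → Subgroup H) (_ : ∀ i j, i ≠ j → ∀ x ∈ P i, ∀ y ∈ P j, x * y = y * x)
    (_ : (⨆ j, P j) = ⊤)
    (_ : ∀ j, ∃ z ∈ P j, ∃ v : k, IsUnit (v - 1) ∧ ∀ a : A, A.ρ z a = v • a)
    (q : ℕ) (_ : q < r), Van A q := by
  induction r with
  | zero => intro H _ A P _ _ _ q hq; exact absurd hq (Nat.not_lt_zero _)
  | succ r ih =>
    intro H _ A P hc ht hz q hq
    let P' : Subgroup H := ⨆ j : Fin r, P j.succ
    have hP0 : ∀ x ∈ P 0, ∀ y ∈ P', x * y = y * x := by
      intro x hx y hy
      have h1 : P' ≤ Subgroup.centralizer {x} := by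
        refine iSup_le fun j w hw => ?_
        rw [Subgroup.mem_centralizer_singleton_iff]
        exact (hc 0 j.succ (Fin.succ_ne_zero j).symm x hx w hw).symm
      exact (Subgroup.mem_centralizer_singleton_iff.1 (h1 hy)).symm
    have hsup : P 0 ⊔ P' = ⊤ := by
      rw [← ht]
      apply le_antisymm
      · refine sup_le (le_iSup P 0) (iSup_le fun j => le_iSup P j.succ)
      · refine iSup_le fun j => ?_
        refine Fin.cases ?_ (fun j => ?_) j
        · exact le_sup_left
        · exact (le_iSup (fun j : Fin r => P j.succ) j).trans le_sup_right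
    have hnorm : P'.Normal := by
      rw [← Subgroup.normalizer_eq_top_iff, eq_top_iff, ← hsup]
      refine sup_le ?_ Subgroup.le_normalizer
      refine le_trans ?_ (Subgroup.centralizer_le_normalizer (P' : Set H))
      intro x hx
      rw [Subgroup.mem_centralizer_iff]
      intro y hy
      exact (hP0 x hx y hy).symm
    obtain ⟨z, hz0, v, hv, hzA⟩ := hz 0
    let Z : Subgroup H := Subgroup.zpowers z ⊔ P'
    refine van_L P' Z le_sup_right q A ?_ ?_
    · intro b hb
      refine ih ↥P' (res P'.subtype A) (fun j => (P j.succ).subgroupOf P') ?_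
        (iSup_subgroupOf_eq_top _) ?_ b (by omega)
      · intro i j hij x hx y hy
        apply Subtype.ext
        exact hc i.succ j.succ (fun h => hij (Fin.succ_injective _ h)) x hx y hy
      · intro j
        obtain ⟨w, hw, s, hs, hwA⟩ := hz j.succ
        exact ⟨⟨w, (le_iSup (fun j : Fin r => P j.succ) j) hw⟩, hw, s, hs, hwA⟩
    · have hzZ : z ∈ Z := (le_sup_left : Subgroup.zpowers z ≤ Z) (Subgroup.mem_zpowers z)
      refine central_kill (res Z.subtype A) ⟨z, hzZ⟩ ?_ v hv hzA q
      rw [Subgroup.mem_center_iff]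
      rintro ⟨w, hw⟩
      apply Subtype.ext
      have h1 : Z ≤ Subgroup.centralizer {z} := by
        refine sup_le ?_ ?_
        · rw [Subgroup.zpowers_le, Subgroup.mem_centralizer_singleton_iff]
        · intro y hy
          rw [Subgroup.mem_centralizer_singleton_iff]
          exact (hP0 z hz0 y hy).symm
      exact (Subgroup.mem_centralizer_singleton_iff.1 (h1 hw))

/-- H3 -/
theorem van_product {G : Type u} [Group G] (A : Rep.{u} k G) (r : ℕ) (P : Fin r → Subgroup G)
    (hc : ∀ i j, i ≠ j → ∀ x ∈ P i, ∀ y ∈ P j, x * y = y * x)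
    (hn : (⨆ j, P j).Normal)
    (hz : ∀ j, ∃ z ∈ P j, ∃ v : k, IsUnit (v - 1) ∧ ∀ a : A, A.ρ z a = v • a)
    (q : ℕ) (hq : q < r) : Van A q := by
  refine van_normal (⨆ j, P j) q A fun b hb => ?_
  refine van_commuting_top r ↥(⨆ j, P j) (res (⨆ j, P j).subtype A)
    (fun j => (P j).subgroupOf (⨆ j, P j)) ?_ (iSup_subgroupOf_eq_top P) ?_ b (by omega)
  · intro i j hij x hx y hy
    apply Subtype.ext
    exact hc i j hij x hx y hy
  · intro j
    obtain ⟨w, hw, s, hs, hwA⟩ := hz j
    exact ⟨⟨w, (le_iSup P j) hw⟩, hw, s, hs, hwA⟩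

end Pool.Agent.TOR
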