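import Pool.Agent.Helper41_TOR.Lw
import Pool.Agent.Helper41_TOR.Gp
import Pool.Agent.Helper41_TOR.Pk

/-! THEOREM BR: towers of free groups; used for pushes of several feet. -/

set_option autoImplicit false

namespace Pool.Agent.TOR

open CategoryTheory CategoryTheory.Limits Rep Representation

universe u

section ck

variable {k G : Type u} [CommRing k] [Group G]

/-- centre kills, bijective form -/
theorem central_kill' (A : Rep.{u} k G) (z : G) (hz : z ∈ Subgroup.center G)
    (hb : Function.Bijective (fun a : A => A.ρ z a - a)) (n : ℕ) : Van A n := by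
  refine van_of_elt fun x => ?_
  let e : A ≃ₗ[k] A := LinearEquiv.ofBijective (A.ρ z - LinearMap.id) hb
  have he : ∀ a, e a = A.ρ z a - a := fun a => rfl
  let f : A ⟶ A := cz A z hz + (-(𝟙 A))
  have hf : ∀ a, f.hom a = e a := fun a => (he a).symm ▸ (sub_eq_add_neg _ _).symm
  let f' : A ⟶ A := ofHom ⟨e.symm.toLinearMap, fun g => LinearMap.ext fun a => by
    change e.symm (A.ρ g a) = A.ρ g (e.symm a)
    rw [LinearEquiv.symm_apply_eq]
    have h1 := hom_comm_apply f g (e.symm a)
    rw [hf, hf, e.apply_symm_apply] at h1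
    exact h1.symm⟩
  have hff' : f ≫ f' = 𝟙 A := Rep.hom_ext (DFunLike.ext _ _ fun a => by
    change e.symm (f.hom a) = a
    rw [hf, e.symm_apply_apply])
  have h2 : hI f n x = 0 := by
    have h3 : hI f n x + hI (𝟙 A) n x = hI (cz A z hz) n x := by
      rw [← hI_add]
      congr 1
      change hI (cz A z hz + -(𝟙 A) + 𝟙 A) n = hI (cz A z hz) n
      rw [neg_add_cancel_right]
    have h4 : hI (𝟙 A) n x = x := by
      unfold hI
      rw [groupHomology.map_id]; rfl
    have h5 : hI (cz A z hz) n x = x := by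
      unfold hI
      rw [H_cz]; rfl
    rw [h4, h5] at h3
    exact add_eq_right.1 h3
  have h6 := hI_comp f f' n x
  rw [hff', h2, map_zero] at h6
  have h4 : hI (𝟙 A) n x = x := by
    unfold hI
    rw [groupHomology.map_id]; rfl
  rw [← h6, h4]

end ck

section flag

variable {π : Type u} [Group π] {n : ℕ} (b : Fin n → π)

theorem inv_form {φ : MulAut π} {b u u' : π} (e : φ b = u * b * u') :
    φ⁻¹ b = (φ⁻¹ u)⁻¹ * b * (φ⁻¹ u')⁻¹ := by
  apply φ.injective
  rw [map_mul, map_mul, map_inv, map_inv, MulAut.apply_inv_self, MulAut.apply_inv_self,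
    MulAut.apply_inv_self, e]
  group

/-- automorphisms moving each letter inside A_i b_i A_i -/
def FlO (φ : MulAut π) : Prop := ∀ i : Fin n, ∃ u ∈ flg b i, ∃ u' ∈ flg b i, φ (b i) = u * b i * u'

theorem FlO.stab {φ : MulAut π} (h : FlO b φ) (i : ℕ) : ∀ x ∈ flg b i, φ x ∈ flg b i := by
  intro x hx
  unfold flg at hx
  induction hx using Subgroup.closure_induction with
  | mem x hx =>
    obtain ⟨j, hj, rfl⟩ := hx
    obtain ⟨u, hu, u', hu', e⟩ := h j
    rw [e]
    exact mul_mem (mul_mem (flg_mono b hj.le hu) (flg_mem b j hj)) (flg_mono b hj.le hu')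
  | one => rw [map_one]; exact one_mem _
  | mul x y _ _ hx hy => rw [map_mul]; exact mul_mem hx hy
  | inv x _ hx => rw [map_inv]; exact inv_mem hx

theorem FlO.stab_inv {φ : MulAut π} (h : FlO b φ) (i : ℕ) : ∀ x ∈ flg b i, φ⁻¹ x ∈ flg b i := by
  induction i using Nat.strong_induction_on with
  | _ i ih =>
    intro x hx
    unfold flg at hx
    induction hx using Subgroup.closure_induction with
    | mem x hx =>
      obtain ⟨j, hj, rfl⟩ := hx
      obtain ⟨u, hu, u', hu', e⟩ := h j
      rw [inv_form e]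
      exact mul_mem (mul_mem (flg_mono b hj.le (inv_mem (ih j hj u hu))) (flg_mem b j hj))
        (flg_mono b hj.le (inv_mem (ih j hj u' hu')))
    | one => rw [map_one]; exact one_mem _
    | mul x y _ _ hx hy => rw [map_mul]; exact mul_mem hx hy
    | inv x _ hx => rw [map_inv]; exact inv_mem hx

/-- the flag group -/
def flS : Subgroup (MulAut π) where
  carrier := {φ | FlO b φ}
  one_mem' := fun i => ⟨1, one_mem _, 1, one_mem _, by rw [one_mul, mul_one]; rfl⟩
  mul_mem' := fun {φ ψ} hφ hψ i => by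
    obtain ⟨u, hu, u', hu', e⟩ := hψ i
    obtain ⟨v, hv, v', hv', e'⟩ := hφ i
    refine ⟨φ u * v, mul_mem (hφ.stab b i u hu) hv, v' * φ u', mul_mem hv' (hφ.stab b i u' hu'), ?_⟩
    change φ (ψ (b i)) = _
    rw [e, map_mul, map_mul, e']
    group
  inv_mem' := fun {φ} hφ i => by
    obtain ⟨u, hu, u', hu', e⟩ := hφ i
    refine ⟨(φ⁻¹ u)⁻¹, inv_mem (hφ.stab_inv b i u hu), (φ⁻¹ u')⁻¹,
      inv_mem (hφ.stab_inv b i u' hu'), inv_form e⟩

end flag

section br

variable {k G : Type u} [CommRing k] [Group G]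

/-- one step of the tower, relative to the ambient group -/
theorem br_level {Γ Γ' π : Type u} [Group Γ] [Group Γ'] [Group π] (M : G →* Γ) (M' : G →* Γ')
    (μ : Γ' →* Γ) (σ : Γ →* Γ') (lam : π →* Γ') (a : Γ →* MulAut π)
    (hM' : Function.Surjective M') (hμM : ∀ g, μ (M' g) = M g) (hμσ : ∀ g, μ (σ g) = g)
    (hinj : Function.Injective lam) (hker : ∀ x, μ x = 1 ↔ x ∈ lam.range)
    (hact : ∀ g p, σ g * lam p * (σ g)⁻¹ = lam (a g p)) (w : Γ) {n : ℕ} {b : Fin n → π}
    (hb : IsFB b) (N : Rep.{u} k G)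
    (h0 : ∀ q, Van (res ((Subgroup.zpowers (σ w)).comap M').subtype N) q)
    (h1 : ∀ i : Fin n, ∃ u ∈ flg b i, ∃ u' ∈ flg b i, a w (b i) = u * b i * u' ∧
      ∀ q, Van (res ((Subgroup.zpowers ((lam u)⁻¹ * σ w)).comap M').subtype N) q) (q : ℕ) :
    Van (res ((Subgroup.zpowers w).comap M).subtype N) q := by
  classical
  set H : Subgroup G := (Subgroup.zpowers w).comap M with hH
  have hθ0 : ∀ g : G, ∃ p, lam p = M' g * (σ (M g))⁻¹ := by
    intro g
    have : μ (M' g * (σ (M g))⁻¹) = 1 := by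
      rw [map_mul, map_inv, hμM, hμσ, mul_inv_cancel]
    exact (hker _).1 this
  choose θ hθ using hθ0
  have hθ' : ∀ g, lam (θ g) * σ (M g) = M' g := by
    intro g; rw [hθ, inv_mul_cancel_right]
  let C : Crs H π :=
    { α := a.comp (M.comp H.subtype)
      θ := fun g => θ g
      hθ := by
        intro g h
        apply hinj
        have e1 := hθ' ((g : G) * h)
        have e2 := hact (M g) (θ h)
        rw [map_mul M', ← hθ' (g : G), ← hθ' (h : G), map_mul M, map_mul σ] at e1
        change lam (θ ((g : G) * h)) = lam (θ g * a (M g) (θ h))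
        rw [map_mul lam, ← e2]
        have e3 : lam (θ ((g : G) * h)) = lam (θ ((g : G) * h)) * (σ (M g) * σ (M h)) *
          (σ (M g) * σ (M h))⁻¹ := by group
        rw [e3, e1]
        group }
  have hCα : ∀ (g : H) (p : π), C.α g p = a (M g) p := fun _ _ => rfl
  have hCθ : ∀ g : H, C.θ g = θ g := fun _ => rfl
  have hfl : ∀ g : H, a (M g) ∈ flS b := by
    intro g
    have h2 : Subgroup.zpowers w ≤ (flS b).comap a := by
      rw [Subgroup.zpowers_le]
      intro i
      obtain ⟨u, hu, u', hu', e, _⟩ := h1 i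
      exact ⟨u, hu, u', hu', e⟩
    exact h2 g.2
  have hmv : ∀ i : Fin n, C.Mvs (flg b i) (b i) := fun i g => hfl g i
  -- elements with prescribed image
  have hlift : ∀ x : Γ', μ x ∈ Subgroup.zpowers w → ∃ g : H, M' g = x := by
    intro x hx
    obtain ⟨g, hg⟩ := hM' x
    exact ⟨⟨g, by change M g ∈ Subgroup.zpowers w; rw [← hμM, hg]; exact hx⟩, hg⟩
  have htr : ∀ p : π, ∃ g : H, M g = 1 ∧ θ g = p := by
    intro p
    have h2 : μ (lam p) = 1 := (hker _).2 ⟨p, rfl⟩
    obtain ⟨g, hg⟩ := hlift (lam p) (by rw [h2]; exact one_mem _)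
    have h3 : M (g : G) = 1 := by rw [← hμM, hg, h2]
    refine ⟨g, h3, ?_⟩
    apply hinj
    rw [hθ, hg, h3, map_one, inv_one, mul_one]
  refine level_van C hb hmv (res H.subtype N) ?_ ?_ q
  · intro q
    refine van_perm _ _ q fun x => ?_
    obtain ⟨p, rfl⟩ := C.cl_surj _ _ x
    obtain ⟨g, hg1, hg2⟩ := htr p⁻¹
    refine ⟨g, ?_⟩
    refine van_sub N H _ ((Subgroup.zpowers (σ w)).comap M') ?_ ?_ q (h0 q)
    · intro h
      rw [MulAction.mem_stabilizer_iff, Subgroup.mem_comap]
      have e1 : g • C.cl (flg b 0) (C.flg_stb b hmv 0) p =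
          C.cl (flg b 0) (C.flg_stb b hmv 0) 1 := by
        rw [C.smul_cl, hCθ, hCα, hg2, hg1, map_one]
        congr 1
        exact inv_mul_cancel p
      rw [e1, C.smul_cl, hCθ, map_one, mul_one, C.cl_eq, flg_zero, Subgroup.mem_bot, mul_one,
        inv_eq_one]
      constructor
      · intro h2
        obtain ⟨m, hm⟩ := h.2
        refine ⟨m, ?_⟩
        change σ w ^ m = M' h
        have hm' : w ^ m = M h := hm
        rw [← hθ' h, h2, map_one, one_mul, ← hm', map_zpow]
      · rintro ⟨m, hm⟩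
        have hm' : σ w ^ m = M' h := hm
        apply hinj
        rw [hθ, map_one, ← hμM, ← hm', map_zpow μ, hμσ, map_zpow, mul_inv_cancel]
    · rintro h ⟨m, hm⟩
      have hm' : σ w ^ m = M' h := hm
      refine ⟨m, ?_⟩
      change w ^ m = M h
      rw [← hμM, ← hm', map_zpow, hμσ]
  · intro i D hD q
    obtain ⟨u, hu, u', hu', e, hv⟩ := h1 i
    refine van_perm _ _ q fun x => ?_
    have hx0 : ∃ p : π, p = x := ⟨x, rfl⟩
    obtain ⟨px, hpx⟩ := hx0
    obtain ⟨g, hg1, hg2⟩ := htr px⁻¹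
    refine ⟨g, ?_⟩
    let o : C.Edg hD (C.flg_stb b hmv i) (hmv i) := (1 : π)
    have hmu : ∀ (h : H) (v v' : π), v ∈ flg b i → v' ∈ flg b i →
        a (M h) (b i) = v * b i * v' → C.mu (hmv i) h = v := by
      intro h v v' hv hv' e'
      obtain ⟨s', hs', e2⟩ := C.mu_spec (hmv i) h
      exact hD.uniq (C.mu_mem (hmv i) h) hs' hv hv' (by rw [← e2, hCα, e'])
    have hmu1 : ∀ h : H, M h = 1 → C.mu (hmv i) h = 1 := by
      intro h hh
      refine hmu h 1 1 (one_mem _) (one_mem _) ?_
      rw [hh, map_one, one_mul, mul_one]; rfl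
    refine van_sub N H _ ((Subgroup.zpowers ((lam u)⁻¹ * σ w)).comap M') ?_ ?_ q (hv q)
    · intro h
      have e1 : g • x = o := by
        rw [← hpx]
        change (θ g * a (M g) px * C.mu (hmv i) g : π) = (1 : π)
        rw [hg2, hg1, hmu1 g hg1, map_one, mul_one]
        exact inv_mul_cancel px
      rw [e1, MulAction.mem_stabilizer_iff, Subgroup.mem_comap]
      have e2 : ∀ h : H, (h • o = o) ↔ θ h * C.mu (hmv i) h = 1 := by
        intro h
        change (θ h * a (M h) (1 : π) * C.mu (hmv i) h : π) = (1 : π) ↔ _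
        rw [map_one, mul_one]
      -- the distinguished element
      have hμv : μ ((lam u)⁻¹ * σ w) = w := by
        rw [map_mul, map_inv, (hker _).2 ⟨u, rfl⟩, inv_one, one_mul, hμσ]
      obtain ⟨g0, hg0⟩ := hlift ((lam u)⁻¹ * σ w) (by
        rw [hμv]; exact Subgroup.mem_zpowers w)
      have hMg0 : M (g0 : G) = w := by rw [← hμM, hg0, hμv]
      have hθg0 : θ g0 = u⁻¹ := by
        apply hinj
        rw [hθ, hg0, hMg0, mul_inv_cancel_right, map_inv]
      have hmg0 : C.mu (hmv i) g0 = u := hmu g0 u u' hu hu' (by rw [hMg0, e])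
      have hg0T : g0 ∈ MulAction.stabilizer H o := by
        rw [MulAction.mem_stabilizer_iff, e2, hθg0, hmg0, inv_mul_cancel]
      constructor
      · intro h2
        obtain ⟨m, hm⟩ := h.2
        have hm' : w ^ m = M h := hm
        have h3 : (g0 ^ m)⁻¹ * h ∈ MulAction.stabilizer H o :=
          mul_mem (inv_mem (zpow_mem hg0T m)) h2
        have h4 : M (((g0 ^ m)⁻¹ * h : H) : G) = 1 := by
          change M (((g0 : G) ^ m)⁻¹ * (h : G)) = 1
          rw [map_mul, map_inv, map_zpow, hMg0, hm', inv_mul_cancel]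
        have h5 : θ (((g0 ^ m)⁻¹ * h : H) : G) = 1 := by
          rw [MulAction.mem_stabilizer_iff, e2, hmu1 _ h4, mul_one] at h3
          exact h3
        have h6 := hθ' (((g0 ^ m)⁻¹ * h : H) : G)
        rw [h5, h4, map_one, map_one, mul_one] at h6
        have h7 : M' (((g0 : G) ^ m)⁻¹ * (h : G)) = 1 := h6.symm
        rw [map_mul, map_inv, map_zpow, hg0, inv_mul_eq_one] at h7
        exact ⟨m, h7⟩
      · rintro ⟨m, hm⟩
        have hm' : ((lam u)⁻¹ * σ w) ^ m = M' h := hm
        have h3 : M' (((g0 ^ m)⁻¹ * h : H) : G) = 1 := by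
          change M' (((g0 : G) ^ m)⁻¹ * (h : G)) = 1
          rw [map_mul, map_inv, map_zpow, hg0, hm', inv_mul_cancel]
        have h4 : M (((g0 ^ m)⁻¹ * h : H) : G) = 1 := by rw [← hμM, h3, map_one]
        have h5 : θ (((g0 ^ m)⁻¹ * h : H) : G) = 1 := by
          apply hinj
          rw [hθ, h3, h4, map_one, map_one, inv_one, mul_one]
        have h6 : (g0 ^ m)⁻¹ * h ∈ MulAction.stabilizer H o := by
          rw [MulAction.mem_stabilizer_iff, e2, h5, hmu1 _ h4, mul_one]
        have h7 := mul_mem (zpow_mem hg0T m) h6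
        rw [mul_inv_cancel_left] at h7
        exact h7
    · rintro h ⟨m, hm⟩
      have hm' : ((lam u)⁻¹ * σ w) ^ m = M' h := hm
      refine ⟨m, ?_⟩
      change w ^ m = M h
      rw [← hμM, ← hm', map_zpow, map_mul, map_inv, (hker _).2 ⟨u, rfl⟩, inv_one, one_mul, hμσ]

/-- THEOREM BR: tower of free groups. -/
theorem BR (r : ℕ) (Γ π : ℕ → Type u) [∀ j, Group (Γ j)] [∀ j, Group (π j)]
    (M : ∀ j, G →* Γ j) (μ : ∀ j, Γ (j + 1) →* Γ j) (σ : ∀ j, Γ j →* Γ (j + 1))
    (lam : ∀ j, π j →* Γ (j + 1)) (a : ∀ j, Γ j →* MulAut (π j))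
    (hMr : Function.Injective (M r)) (hM : ∀ j, j < r → Function.Surjective (M (j + 1)))
    (hμM : ∀ j, j < r → ∀ g, μ j (M (j + 1) g) = M j g)
    (hμσ : ∀ j, j < r → ∀ g, μ j (σ j g) = g)
    (hinj : ∀ j, j < r → Function.Injective (lam j))
    (hker : ∀ j, j < r → ∀ x, μ j x = 1 ↔ x ∈ (lam j).range)
    (hact : ∀ j, j < r → ∀ g p, σ j g * lam j p * (σ j g)⁻¹ = lam j (a j g p))
    (B : ∀ j, Set (Γ j))
    (hB : ∀ j, j < r → ∀ w ∈ B j, σ j w ∈ B (j + 1) ∧ ∃ (n : ℕ) (b : Fin n → π j), IsFB b ∧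
      ∀ i : Fin n, ∃ u ∈ flg b i, ∃ u' ∈ flg b i, a j w (b i) = u * b i * u' ∧
        (lam j u)⁻¹ * σ j w ∈ B (j + 1))
    (hB' : ∀ j, j < r → ∃ p, lam j p ∈ B (j + 1))
    (N : Rep.{u} k G)
    (hN : ∀ g, M r g ∈ B r → Function.Bijective (fun a : N => N.ρ g a - a)) :
    ∀ q, q < r → Van N q := by
  -- all-degree vanishing for cyclic extensions
  have Z : ∀ d j, j + d = r → 0 < r → ∀ w ∈ B j, ∀ q,
      Van (res ((Subgroup.zpowers w).comap (M j)).subtype N) q := by
    intro d
    induction d with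
    | zero =>
      intro j hj hr w hw q
      have hj' : j = r := hj
      subst hj'
      obtain ⟨j', rfl⟩ : ∃ j', j = j' + 1 := ⟨j - 1, by omega⟩
      obtain ⟨g, hg⟩ := hM j' (Nat.lt_succ_self _) w
      have hgH : g ∈ (Subgroup.zpowers w).comap (M (j' + 1)) := by
        rw [Subgroup.mem_comap, hg]; exact Subgroup.mem_zpowers w
      refine central_kill' _ ⟨g, hgH⟩ ?_ (hN g (by rw [hg]; exact hw)) q
      rw [Subgroup.mem_center_iff]
      rintro ⟨h, m, hm⟩
      apply Subtype.ext
      apply hMr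
      have hm' : w ^ m = M (j' + 1) h := hm
      change M (j' + 1) (h * g) = M (j' + 1) (g * h)
      rw [map_mul, map_mul, hg, ← hm']
      exact (Commute.refl w).zpow_left m
    | succ d ih =>
      intro j hj hr w hw q
      have hjr : j < r := by omega
      obtain ⟨hw1, n, b, hb, hbi⟩ := hB j hjr w hw
      refine br_level (M j) (M (j + 1)) (μ j) (σ j) (lam j) (a j) (hM j hjr) (hμM j hjr)
        (hμσ j hjr) (hinj j hjr) (hker j hjr) (hact j hjr) w hb N
        (ih (j + 1) (by omega) hr (σ j w) hw1) ?_ q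
      intro i
      obtain ⟨u, hu, u', hu', e, hv⟩ := hbi i
      exact ⟨u, hu, u', hu', e, ih (j + 1) (by omega) hr _ hv⟩
  -- the kernels
  have hkle : ∀ j, j < r → (M (j + 1)).ker ≤ (M j).ker := by
    intro j hj g hg
    rw [MonoidHom.mem_ker] at hg ⊢
    rw [← hμM j hj, hg, map_one]
  have T : ∀ d j, j + d = r → ∀ q, q < d → Van (res (M j).ker.subtype N) q := by
    intro d
    induction d with
    | zero => intro j _ q hq; exact absurd hq (Nat.not_lt_zero q)
    | succ d ih =>
      intro j hj q hq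
      have hjr : j < r := by omega
      obtain ⟨p, hp⟩ := hB' j hjr
      have hZle : (Subgroup.zpowers (lam j p)).comap (M (j + 1)) ≤ (M j).ker := by
        rintro g ⟨m, hm⟩
        have hm' : lam j p ^ m = M (j + 1) g := hm
        rw [MonoidHom.mem_ker, ← hμM j hjr, ← hm', map_zpow, (hker j hjr _).2 ⟨p, rfl⟩, one_zpow]
      refine van_L ((M (j + 1)).ker.subgroupOf (M j).ker)
        (((Subgroup.zpowers (lam j p)).comap (M (j + 1))).subgroupOf (M j).ker) ?_ q
        (res (M j).ker.subtype N) ?_ ?_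
      · intro g hg
        rw [Subgroup.mem_subgroupOf, MonoidHom.mem_ker] at hg
        rw [Subgroup.mem_subgroupOf, Subgroup.mem_comap, hg]
        exact one_mem _
      · intro b hb
        exact van_sub N (M j).ker _ (M (j + 1)).ker (fun g => Iff.rfl) (hkle j hjr) b
          (ih (j + 1) (by omega) b (by omega))
      · exact van_sub N (M j).ker _ ((Subgroup.zpowers (lam j p)).comap (M (j + 1)))
          (fun g => Iff.rfl) hZle q (Z d (j + 1) (by omega) (by omega) _ hp q)
  intro q hq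
  exact van_normal (M 0).ker q N fun b hb => T r 0 (by omega) b (by omega)

end br

end Pool.Agent.TOR
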