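import Pool.Agent.Helper41_TOR.Tn

set_option autoImplicit false

namespace Pool.Agent.TOR

open CategoryTheory CategoryTheory.Limits Rep Representation

universe u

section conj

variable {k G : Type u} [CommRing k] [Group G]

/-- conjugation by g as an endomorphism -/
def cg (g : G) : G →* G := (MulAut.conj g).toMonoidHom

theorem cg_apply (g h : G) : cg g h = g * h * g⁻¹ := rfl

/-- the action of g intertwines A and its conjugate -/
noncomputable def cj (A : Rep.{u} k G) (g : G) : A ⟶ res (cg g) A :=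
  ofHom ⟨A.ρ g, fun h => by
    change A.ρ g ∘ₗ A.ρ h = A.ρ (cg g h) ∘ₗ A.ρ g
    rw [← Module.End.mul_eq_comp, ← Module.End.mul_eq_comp, ← map_mul, ← map_mul, cg_apply,
      inv_mul_cancel_right]⟩

theorem cj_apply (A : Rep.{u} k G) (g : G) (a : A) : (cj A g).hom a = A.ρ g a := rfl

theorem H0_cj (A : Rep.{u} k G) (g : G) :
    groupHomology.map (cg g) (cj A g) 0 = 𝟙 _ := by
  rw [← cancel_epi (groupHomology.H0π A)]
  have h := groupHomology.H0π_comp_map (cg g) (B := A) (cj A g)
  rw [h, Category.comp_id, ← cancel_mono (groupHomology.H0Iso A).hom]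
  ext a
  simp only [Category.assoc, groupHomology.H0π_comp_H0Iso_hom, ModuleCat.hom_comp,
    LinearMap.comp_apply]
  exact (Representation.Coinvariants.mk_eq_iff _).2 (Representation.Coinvariants.sub_mem_ker _ _)

/-- inner automorphisms act trivially on group homology -/
theorem H_cj (g : G) (n : ℕ) : ∀ A : Rep.{u} k G,
    groupHomology.map (cg g) (cj A g) n = 𝟙 _ := by
  classical
  induction n with
  | zero => intro A; exact H0_cj A g
  | succ n ih =>
    intro A
    let X := ses (⊥ : Subgroup G) A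
    have hX : X.ShortExact := ses_exact _ A
    have nat : ∀ {B C : Rep.{u} k G} (f : B ⟶ C),
        groupHomology.chainsMap (cg g) (cj B g) ≫ groupHomology.chainsMap (MonoidHom.id G) f =
        groupHomology.chainsMap (MonoidHom.id G) f ≫ groupHomology.chainsMap (cg g) (cj C g) := by
      intro B C f
      rw [← groupHomology.chainsMap_comp, ← groupHomology.chainsMap_comp]
      refine groupHomology.chainsMap_congr rfl ?_
      ext a
      exact hom_comm_apply f g a
    let φ : X.map (groupHomology.chainsFunctor k G) ⟶ X.map (groupHomology.chainsFunctor k G) :=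
      { τ₁ := groupHomology.chainsMap (cg g) (cj _ g)
        τ₂ := groupHomology.chainsMap (cg g) (cj _ g)
        τ₃ := groupHomology.chainsMap (cg g) (cj _ g)
        comm₁₂ := nat _
        comm₂₃ := nat _ }
    have hn := HomologicalComplex.HomologySequence.δ_naturality φ
      (groupHomology.map_chainsFunctor_shortExact hX)
      (groupHomology.map_chainsFunctor_shortExact hX) (n+1) n (by simp)
    have hm : Mono (groupHomology.δ hX (n + 1) n rfl) :=
      groupHomology.mono_δ_of_isZero hX n (van_ind_bot A n)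
    have h1 : HomologicalComplex.homologyMap φ.τ₁ n = 𝟙 _ := ih X.X₁
    rw [h1, Category.comp_id] at hn
    have h2 : groupHomology.map (cg g) (cj X.X₃ g) (n + 1) = 𝟙 _ := by
      refine (cancel_mono (groupHomology.δ hX (n + 1) n rfl)).1 ?_
      rw [Category.id_comp]
      exact hn.symm
    exact h2

end conj

section operators

variable {N : Type} [Group N]

theorem hm_cg (g : N) (i : ℕ) : hm (cg g) i = LinearMap.id := by
  have h := H_cj g i (Rep.trivial ℚ N ℚ)
  have h2 : groupHomology.map (A := Rep.trivial ℚ N ℚ) (B := Rep.trivial ℚ N ℚ) (cg g)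
    (𝟙 (Rep.trivial ℚ N ℚ)) i = groupHomology.map (cg g) (cj (Rep.trivial ℚ N ℚ) g) i :=
    groupHomology.map_congr rfl rfl i
  unfold hm
  rw [h2, h]
  rfl

theorem hm_id (i : ℕ) : hm (MonoidHom.id N) i = LinearMap.id := by
  unfold hm
  have h := groupHomology.map_id (A := Rep.trivial ℚ N ℚ) (n := i)
  exact congrArg ModuleCat.Hom.hom h

theorem hm_comp (f g : N →* N) (i : ℕ) : hm (g.comp f) i = hm g i ∘ₗ hm f i := by
  unfold hm
  have h := groupHomology.map_comp (A := Rep.trivial ℚ N ℚ) (B := Rep.trivial ℚ N ℚ)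
    (C := Rep.trivial ℚ N ℚ) f g (𝟙 (Rep.trivial ℚ N ℚ)) (𝟙 (Rep.trivial ℚ N ℚ)) i
  have h2 : groupHomology.map (A := Rep.trivial ℚ N ℚ) (B := Rep.trivial ℚ N ℚ) (g.comp f)
    (𝟙 (Rep.trivial ℚ N ℚ)) i = groupHomology.map (A := Rep.trivial ℚ N ℚ)
      (B := Rep.trivial ℚ N ℚ) (g.comp f) ((𝟙 (Rep.trivial ℚ N ℚ)) ≫
        (resFunctor f).map (𝟙 (Rep.trivial ℚ N ℚ))) i :=
    groupHomology.map_congr rfl (by ext; rfl) i
  exact congrArg ModuleCat.Hom.hom (h2.trans h)

/-- any coefficient map is a scalar -/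
theorem hm_scalar (f : N →* N)
    (ψ : Rep.trivial ℚ N ℚ ⟶ res f (Rep.trivial ℚ N ℚ)) (i : ℕ)
    (x : groupHomology (Rep.trivial ℚ N ℚ) i) :
    ∃ a : ℚ, (groupHomology.map f ψ i : groupHomology (Rep.trivial ℚ N ℚ) i ⟶
      groupHomology (Rep.trivial ℚ N ℚ) i).hom x = a • hm f i x := by
  refine ⟨ψ.hom (1 : ℚ), ?_⟩
  have h0 : groupHomology.chainsMap f ψ = (ψ.hom (1 : ℚ) : ℚ) •
      groupHomology.chainsMap (A := Rep.trivial ℚ N ℚ) (B := Rep.trivial ℚ N ℚ) f
        (𝟙 (Rep.trivial ℚ N ℚ)) := by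
    refine HomologicalComplex.hom_ext _ _ fun j => ModuleCat.hom_ext ?_
    refine Finsupp.lhom_ext fun g a => ?_
    have e1 := groupHomology.chainsMap_f_single f ψ j g a
    have e2 := groupHomology.chainsMap_f_single (A := Rep.trivial ℚ N ℚ)
      (B := Rep.trivial ℚ N ℚ) f (𝟙 (Rep.trivial ℚ N ℚ)) j g a
    refine e1.trans (Eq.trans ?_ (congrArg (fun t => (ψ.hom (1 : ℚ) : ℚ) • t) e2).symm)
    have h3 : ψ.hom a = (ψ.hom (1 : ℚ) : ℚ) • (a : ℚ) := by
      have h4 : ψ.hom ((a : ℚ) • (1 : ℚ)) = (a : ℚ) • ψ.hom (1 : ℚ) := map_smul ψ.hom _ _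
      have h5 : (a : ℚ) • (1 : ℚ) = (a : ℚ) := by rw [smul_eq_mul, mul_one]
      rw [h5] at h4
      rw [h4]
      exact mul_comm _ _
    rw [h3]
    exact (Finsupp.smul_single _ _ _).symm
  have h1 : groupHomology.map f ψ i = (ψ.hom (1 : ℚ) : ℚ) •
      groupHomology.map (A := Rep.trivial ℚ N ℚ) (B := Rep.trivial ℚ N ℚ) f
        (𝟙 (Rep.trivial ℚ N ℚ)) i := by
    rw [groupHomology.map, h0, homMap_smul]
    rfl
  rw [h1]
  rfl

end operators

end Pool.Agent.TOR
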