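import Pool.Agent.Helper41_TOR.Se

set_option autoImplicit false

namespace Pool.Agent.TOR

open CategoryTheory CategoryTheory.Limits Rep Representation

universe u

variable {k G : Type u} [CommRing k] [Group G]

section defs

variable (X : Type u) [MulAction G X]

/-- a ↦ single x₀ a as a map of representations of the stabiliser -/
noncomputable def sing (A : Rep.{u} k G) (x₀ : X) : res (MulAction.stabilizer G x₀).subtype A ⟶
    res (MulAction.stabilizer G x₀).subtype (perm X A) :=
  ofHom ⟨Finsupp.lsingle x₀, fun s => by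
    ext a : 1
    change Finsupp.single x₀ (A.ρ s a) = permR X A s (Finsupp.single x₀ a)
    rw [permR_single, MulAction.mem_stabilizer_iff.1 s.2]⟩

theorem sing_apply (A : Rep.{u} k G) (x₀ : X) (a : A) :
    (sing X A x₀).hom a = (Finsupp.single x₀ a : X →₀ A) := rfl

/-- the Shapiro map -/
noncomputable def st (A : Rep.{u} k G) (x₀ : X) (n : ℕ) :
    groupHomology (res (MulAction.stabilizer G x₀).subtype A) n →ₗ[k]
      groupHomology (perm X A) n :=
  gI (MulAction.stabilizer G x₀).subtype (sing X A x₀) n

/-- restriction of a map to the stabiliser -/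
noncomputable def rsf {A B : Rep.{u} k G} (f : A ⟶ B) (x₀ : X) :
    res (MulAction.stabilizer G x₀).subtype A ⟶ res (MulAction.stabilizer G x₀).subtype B :=
  (resFunctor (MulAction.stabilizer G x₀).subtype).map f

theorem rsf_apply {A B : Rep.{u} k G} (f : A ⟶ B) (x₀ : X) (a : A) :
    (rsf X f x₀).hom a = f.hom a := rfl

/-- functoriality of perm in the coefficients -/
noncomputable def permFun {A B : Rep.{u} k G} (f : A ⟶ B) : perm X A ⟶ perm X B :=
  ofHom ⟨Finsupp.mapRange.linearMap f.hom.toLinearMap, fun g => by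
    refine Finsupp.lhom_ext fun x a => ?_
    change Finsupp.mapRange.linearMap f.hom.toLinearMap (permR X A g (Finsupp.single x a)) =
      permR X B g (Finsupp.mapRange.linearMap f.hom.toLinearMap (Finsupp.single x a))
    rw [permR_single, Finsupp.mapRange.linearMap_apply, Finsupp.mapRange.linearMap_apply,
      Finsupp.mapRange_single, Finsupp.mapRange_single, permR_single]
    congr 1
    exact hom_comm_apply f g a⟩

theorem permFun_apply {A B : Rep.{u} k G} (f : A ⟶ B) (c : X →₀ A) :
    (permFun X f).hom c = Finsupp.mapRange f.hom (map_zero f.hom) c := rfl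

theorem permFun_single {A B : Rep.{u} k G} (f : A ⟶ B) (x : X) (a : A) :
    (permFun X f).hom (Finsupp.single x a : X →₀ A) = (Finsupp.single x (f.hom a) : X →₀ B) := by
  rw [permFun_apply, Finsupp.mapRange_single]

theorem permFun_zero {S : ShortComplex (Rep.{u} k G)} :
    permFun X S.f ≫ permFun X S.g = 0 := by
  refine Rep.hom_ext (DFunLike.ext _ _ fun c => ?_)
  change (permFun X S.g).hom ((permFun X S.f).hom c) = 0
  rw [permFun_apply, permFun_apply]
  refine Finsupp.ext fun x => ?_
  rw [Finsupp.mapRange_apply, Finsupp.mapRange_apply]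
  exact comp_zero_elt S _

/-- perm X applied to a short complex -/
noncomputable def prmS (S : ShortComplex (Rep.{u} k G)) : ShortComplex (Rep.{u} k G) :=
  ShortComplex.mk (permFun X S.f) (permFun X S.g) (permFun_zero X)

theorem prmS_exact {S : ShortComplex (Rep.{u} k G)} (hS : S.ShortExact) :
    (prmS X S).ShortExact := by
  classical
  have h1 := se_inj hS
  have h3 := se_surj hS
  refine se_mk ?_ ?_ ?_
  · exact Finsupp.mapRange_injective S.f.hom (map_zero S.f.hom) h1
  · intro c hc
    have hc' : ∀ x : X, S.g.hom ((show X →₀ S.X₂ from c) x) = 0 := by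
      intro x
      have := DFunLike.congr_fun (show Finsupp.mapRange S.g.hom (map_zero S.g.hom) c =
        (0 : X →₀ S.X₃) from hc) x
      rw [Finsupp.mapRange_apply] at this
      exact this
    choose y hy using fun x => exact_elt hS.exact _ (hc' x)
    refine ⟨∑ x ∈ (show X →₀ S.X₂ from c).support, Finsupp.single x (y x), ?_⟩
    have h4 : (permFun X S.f).hom (∑ x ∈ (show X →₀ S.X₂ from c).support,
        Finsupp.single x (y x) : X →₀ S.X₁) = ∑ x ∈ (show X →₀ S.X₂ from c).support,
        (Finsupp.single x ((show X →₀ S.X₂ from c) x) : X →₀ S.X₂) := by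
      refine (map_sum (permFun X S.f).hom _ _).trans ?_
      refine Finset.sum_congr rfl fun x _ => ?_
      refine (permFun_single X S.f x (y x)).trans ?_
      rw [hy]
    exact h4.trans (Finsupp.sum_single (show X →₀ S.X₂ from c))
  · exact Finsupp.mapRange_surjective S.g.hom (map_zero S.g.hom) h3

/-- naturality of the Shapiro map in the coefficients -/
theorem st_nat {A B : Rep.{u} k G} (f : A ⟶ B) (x₀ : X) (n : ℕ)
    (c : groupHomology (res (MulAction.stabilizer G x₀).subtype A) n) :
    hI (permFun X f) n (st X A x₀ n c) = st X B x₀ n (hI (rsf X f x₀) n c) := by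
  let t : res (MulAction.stabilizer G x₀).subtype A ⟶
    res (MulAction.stabilizer G x₀).subtype (perm X B) := rsf X f x₀ ≫ sing X B x₀
  refine (gI_hI _ (sing X A x₀) (permFun X f) t (fun a => ?_) n c).trans
    (hI_gI _ (rsf X f x₀) (sing X B x₀) t (fun a => rfl) n c).symm
  exact (permFun_single X f x₀ a).symm

theorem st_delta {S : ShortComplex (Rep.{u} k G)} (hS : S.ShortExact) (x₀ : X) (n : ℕ)
    (z : groupHomology (res (MulAction.stabilizer G x₀).subtype S.X₃) (n + 1)) :
    st X S.X₁ x₀ n (dl (resS_exact (MulAction.stabilizer G x₀).subtype hS) n z) =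
      dl (prmS_exact X hS) n (st X S.X₃ x₀ (n + 1) z) :=
  gI_dl (MulAction.stabilizer G x₀).subtype (resS_exact _ hS) (prmS_exact X hS)
    (sing X S.X₁ x₀) (sing X S.X₂ x₀) (sing X S.X₃ x₀)
    (fun a => permFun_single X S.f x₀ a) (fun a => permFun_single X S.g x₀ a) n z

/-- every element of H_0 comes from the coefficients -/
theorem H0_surj (A : Rep.{u} k G) (y : groupHomology A 0) : ∃ a : A, groupHomology.H0π A a = y :=
  (ModuleCat.epi_iff_surjective (groupHomology.H0π A)).1 inferInstance y

theorem H0_map {H : Type u} [Group H] (φ : G →* H) {A : Rep.{u} k G} {B : Rep.{u} k H}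
    (f : A ⟶ res φ B) (a : A) :
    gI φ f 0 (groupHomology.H0π A a) = groupHomology.H0π B (f.hom a) := by
  have h := groupHomology.H0π_comp_map φ (B := B) f
  exact congrArg (fun t => t.hom a) h

theorem H0_act (A : Rep.{u} k G) (g : G) (a : A) :
    groupHomology.H0π A (A.ρ g a) = groupHomology.H0π A a := by
  have hinj : Function.Injective (groupHomology.H0Iso A).hom :=
    (ModuleCat.mono_iff_injective _).1 inferInstance
  apply hinj
  have h := fun b : A => congrArg (fun t => t.hom b) (groupHomology.H0π_comp_H0Iso_hom A)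
  refine (h (A.ρ g a)).trans (Eq.trans ?_ (h a).symm)
  exact (Representation.Coinvariants.mk_eq_iff _).2 (Representation.Coinvariants.sub_mem_ker _ _)

theorem st_surj_zero (A : Rep.{u} k G) (x₀ : X) (ht : ∀ x : X, ∃ g : G, g • x₀ = x) :
    Function.Surjective (st X A x₀ 0) := by
  intro y
  obtain ⟨f, rfl⟩ := H0_surj (perm X A) y
  induction (show X →₀ A from f) using Finsupp.induction_linear with
  | zero => exact ⟨0, by rw [map_zero]; exact (map_zero (groupHomology.H0π (perm X A)).hom).symm⟩
  | add a b ha hb =>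
    obtain ⟨u, hu⟩ := ha
    obtain ⟨v, hv⟩ := hb
    refine ⟨u + v, ?_⟩
    rw [map_add, hu, hv]
    exact (map_add (groupHomology.H0π (perm X A)).hom _ _).symm
  | single x a =>
    obtain ⟨g, rfl⟩ := ht x
    have e1 : (perm X A).ρ g ((sing X A x₀).hom (A.ρ g⁻¹ a)) =
        (Finsupp.single (g • x₀) a : X →₀ A) := by
      change permR X A g (Finsupp.single x₀ (A.ρ g⁻¹ a)) = _
      rw [permR_single]
      congr 1
      rw [← Module.End.mul_apply, ← map_mul, mul_inv_cancel, map_one]
      rfl
    refine ⟨groupHomology.H0π _ (A.ρ g⁻¹ a), ?_⟩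
    refine (H0_map _ (sing X A x₀) (A.ρ g⁻¹ a)).trans ?_
    exact (H0_act (perm X A) g _).symm.trans (congrArg (groupHomology.H0π (perm X A)) e1)

/-- retraction onto the coinvariants of the stabiliser -/
noncomputable def retC (A : Rep.{u} k G) (x₀ : X) (h : X → G) :
    (X →₀ A) →ₗ[k] Coinvariants (res (MulAction.stabilizer G x₀).subtype A).ρ :=
  Finsupp.lsum k fun x => Coinvariants.mk _ ∘ₗ A.ρ (h x)⁻¹

theorem retC_single (A : Rep.{u} k G) (x₀ : X) (h : X → G) (x : X) (a : A) :
    retC X A x₀ h (Finsupp.single x a) = Coinvariants.mk _ (A.ρ (h x)⁻¹ a) := by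
  unfold retC
  rw [Finsupp.lsum_single]; rfl

theorem retC_act (A : Rep.{u} k G) (x₀ : X) (h : X → G) (hh : ∀ x, h x • x₀ = x) (g : G)
    (c : X →₀ A) : retC X A x₀ h (permR X A g c) = retC X A x₀ h c := by
  induction c using Finsupp.induction_linear with
  | zero => simp
  | add a b ha hb => rw [map_add, map_add, map_add, ha, hb]
  | single x a =>
    rw [permR_single, retC_single, retC_single]
    have hs : (h (g • x))⁻¹ * g * h x ∈ MulAction.stabilizer G x₀ := by
      rw [MulAction.mem_stabilizer_iff, mul_smul, mul_smul, hh x, inv_smul_eq_iff, hh]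
    have h1 : A.ρ (h (g • x))⁻¹ (A.ρ g a) =
        A.ρ ((h (g • x))⁻¹ * g * h x) (A.ρ (h x)⁻¹ a) := by
      rw [← Module.End.mul_apply, ← Module.End.mul_apply, ← map_mul, ← map_mul,
        mul_inv_cancel_right]
    rw [h1]
    exact (Representation.Coinvariants.mk_eq_iff _).2
      (Representation.Coinvariants.sub_mem_ker (ρ := (res (MulAction.stabilizer G x₀).subtype A).ρ)
        ⟨_, hs⟩ (A.ρ (h x)⁻¹ a))

theorem st_inj_zero (A : Rep.{u} k G) (x₀ : X) (ht : ∀ x : X, ∃ g : G, g • x₀ = x) :
    ∀ y, st X A x₀ 0 y = 0 → y = 0 := by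
  intro y hy
  choose h hh using ht
  obtain ⟨b, rfl⟩ := H0_surj _ y
  have h1 : (groupHomology.H0π (perm X A)) ((sing X A x₀).hom b) = 0 :=
    (H0_map _ (sing X A x₀) b).symm.trans hy
  have h2 : Coinvariants.mk (perm X A).ρ ((sing X A x₀).hom b) = 0 := by
    have h3 := congrArg (fun t => t.hom ((sing X A x₀).hom b))
      (groupHomology.H0π_comp_H0Iso_hom (perm X A))
    refine h3.symm.trans ?_
    change (groupHomology.H0Iso (perm X A)).hom.hom
      ((groupHomology.H0π (perm X A)) ((sing X A x₀).hom b)) = 0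
    rw [h1, map_zero]
  have h4 : retC X A x₀ h (Finsupp.single x₀ b) = 0 := by
    let L : Coinvariants (perm X A).ρ →ₗ[k]
        Coinvariants (res (MulAction.stabilizer G x₀).subtype A).ρ :=
      Coinvariants.lift (perm X A).ρ (retC X A x₀ h) (fun g => by
        ext c : 1
        exact retC_act X A x₀ h hh g c)
    have h5 := congrArg L h2
    rw [map_zero] at h5
    exact h5
  rw [retC_single] at h4
  have hs : (h x₀)⁻¹ ∈ MulAction.stabilizer G x₀ := by
    rw [MulAction.mem_stabilizer_iff, inv_smul_eq_iff, hh]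
  have h6 : Coinvariants.mk (res (MulAction.stabilizer G x₀).subtype A).ρ b = 0 := by
    rw [← h4]
    exact ((Representation.Coinvariants.mk_eq_iff _).2
      (Representation.Coinvariants.sub_mem_ker (ρ := (res (MulAction.stabilizer G x₀).subtype A).ρ)
        ⟨_, hs⟩ b)).symm
  have hinj : Function.Injective (groupHomology.H0Iso
      (res (MulAction.stabilizer G x₀).subtype A)).hom :=
    (ModuleCat.mono_iff_injective _).1 inferInstance
  apply hinj
  rw [map_zero]
  exact (congrArg (fun t => t.hom b) (groupHomology.H0π_comp_H0Iso_hom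
    (res (MulAction.stabilizer G x₀).subtype A))).trans h6

theorem vanE (S : Subgroup G) (A : Rep.{u} k G) (n : ℕ) :
    Van (res S.subtype (perm G A)) (n + 1) := by
  classical
  have h : Van (perm G (res S.subtype A)) (n + 1) := by
    refine van_perm G (res S.subtype A) (n + 1) fun x => ⟨1, ?_⟩
    have hs : Subsingleton (MulAction.stabilizer S ((1 : S) • x)) := by
      refine ⟨fun a b => ?_⟩
      have ha : ∀ a : MulAction.stabilizer S ((1 : S) • x), (a : S) = 1 := by
        intro a
        have h1 := MulAction.mem_stabilizer_iff.1 a.2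
        have h2 : ((a : S) : G) * ((1 : S) • x) = (1 : S) • x := h1
        exact Subtype.ext (mul_eq_right.1 h2)
      exact Subtype.ext ((ha a).trans (ha b).symm)
    exact isZero_groupHomology_succ_of_subsingleton _ n
  exact h

/-- 0 → K → k[G] ⊗ A → A → 0 -/
noncomputable def sesE (A : Rep.{u} k G) : ShortComplex (Rep.{u} k G) :=
  ShortComplex.mk (kernel.ι (aug G A)) (aug G A) (kernel.condition _)

theorem sesE_exact (A : Rep.{u} k G) : (sesE A).ShortExact where
  exact := ShortComplex.exact_kernel _
  mono_f := by dsimp [sesE]; infer_instance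
  epi_g := by dsimp [sesE]; infer_instance

theorem van_permE (A : Rep.{u} k G) (n : ℕ) : Van (perm X (perm G A)) (n + 1) :=
  van_perm X (perm G A) (n + 1) fun x => ⟨1, by rw [one_smul]; exact vanE _ A n⟩

/-- Shapiro: the Shapiro map of a transitive G-set is onto -/
theorem st_surj (x₀ : X) (ht : ∀ x : X, ∃ g : G, g • x₀ = x) (n : ℕ) :
    ∀ A : Rep.{u} k G, ∀ y, ∃ c, st X A x₀ n c = y := by
  induction n with
  | zero => intro A y; exact st_surj_zero X A x₀ ht y
  | succ n ih =>
    intro A y
    have hS := sesE_exact A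
    have hP := prmS_exact X hS
    have hR := resS_exact (MulAction.stabilizer G x₀).subtype hS
    -- the class δ y
    obtain ⟨c, hc⟩ := ih (sesE A).X₁ (dl hP n y)
    -- c dies in E
    have h1 : hI (rsf X (sesE A).f x₀) n c = 0 := by
      have h2 : st X (sesE A).X₂ x₀ n (hI (rsf X (sesE A).f x₀) n c) = 0 := by
        rw [← st_nat, hc]
        exact ex1z hP n y
      cases n with
      | zero => exact st_inj_zero X _ x₀ ht _ h2
      | succ n => exact van_elt (vanE _ A n) _
    -- lift c
    obtain ⟨z, hz⟩ := ex1 hR n c h1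
    refine ⟨z, ?_⟩
    have h3 := st_delta X hS x₀ n z
    have h5 : dl hP n (st X (sesE A).X₃ x₀ (n + 1) z) = dl hP n y :=
      h3.symm.trans ((congrArg (st X (sesE A).X₁ x₀ n) hz).trans hc)
    have h4 := (map_sub (dl hP n) (st X (sesE A).X₃ x₀ (n + 1) z) y).trans (sub_eq_zero.2 h5)
    exact sub_eq_zero.1 (dl_inj hP n (van_permE X A n) _ h4)

end defs

end Pool.Agent.TOR
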