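import Pool.Agent.Helper41_TOR.Se
import Pool.Agent.Helper41_TOR.Sp

/-! Forest lemma: homology of permutation modules on the vertices, edges and components of a
forest. -/

set_option autoImplicit false

namespace Pool.Agent.TOR

open CategoryTheory CategoryTheory.Limits Rep Representation

universe u

section chains

variable {Eg V W : Type u} {A : Type u} [AddCommGroup A]

/-- scalar extension of integral chains -/
noncomputable def TT1 (Eg A : Type u) [AddCommGroup A] : (Eg →₀ ℤ) →+ A →+ (Eg →₀ A) :=
  Finsupp.liftAddHom fun e => zmultiplesHom (A →+ (Eg →₀ A)) (Finsupp.singleAddHom e)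

theorem TT1_single (e : Eg) (a : A) : TT1 Eg A (Finsupp.single e 1) a = Finsupp.single e a := by
  simp [TT1]

/-- the extension of Θ -/
noncomputable def TT2 (Θ : V → Eg →₀ ℤ) : (V →₀ A) →+ (Eg →₀ A) :=
  Finsupp.liftAddHom fun v => TT1 Eg A (Θ v)

theorem TT2_single (Θ : V → Eg →₀ ℤ) (v : V) (a : A) :
    TT2 (A := A) Θ (Finsupp.single v a) = TT1 Eg A (Θ v) a := by
  simp [TT2]

/-- the boundary map of a graph -/
noncomputable def gbd (s t : Eg → V) : (Eg →₀ A) →+ (V →₀ A) :=
  Finsupp.mapDomain.addMonoidHom t - Finsupp.mapDomain.addMonoidHom s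

theorem gbd_single (s t : Eg → V) (e : Eg) (a : A) :
    gbd s t (Finsupp.single e a) = Finsupp.single (t e) a - Finsupp.single (s e) a := by
  simp [gbd]

theorem gbd_inj (s t : Eg → V) (Θ : V → Eg →₀ ℤ)
    (hΘ : ∀ e, Θ (t e) - Θ (s e) = Finsupp.single e 1) :
    Function.Injective (gbd (A := A) s t) := by
  have h : ∀ x : Eg →₀ A, TT2 Θ (gbd s t x) = x := by
    intro x
    induction x using Finsupp.induction_linear with
    | zero => rw [map_zero, map_zero]
    | add x y hx hy => rw [map_add, map_add, hx, hy]
    | single e a =>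
      rw [gbd_single, map_sub, TT2_single, TT2_single, ← AddMonoidHom.sub_apply, ← map_sub, hΘ,
        TT1_single]
  exact Function.LeftInverse.injective h

theorem gbd_exact (s t : Eg → V) (c : V → W) (hsurj : Function.Surjective c)
    (hconn : ∀ v v', c v = c v' → Relation.EqvGen (fun a b => ∃ e, s e = a ∧ t e = b) v v')
    (x : V →₀ A) (hx : Finsupp.mapDomain c x = 0) : ∃ y, gbd (A := A) s t y = x := by
  let R : AddSubgroup (V →₀ A) := (gbd (A := A) s t).range
  have h1 : ∀ v v', Relation.EqvGen (fun a b => ∃ e, s e = a ∧ t e = b) v v' →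
      ∀ a : A, (Finsupp.single v a - Finsupp.single v' a : V →₀ A) ∈ R := by
    intro v v' h
    induction h with
    | rel v v' h =>
      obtain ⟨e, rfl, rfl⟩ := h
      intro a
      refine ⟨- Finsupp.single e a, ?_⟩
      rw [map_neg, gbd_single, neg_sub]
    | refl v => intro a; rw [sub_self]; exact zero_mem R
    | symm v v' _ ih =>
      intro a
      rw [← neg_sub]
      exact neg_mem (ih a)
    | trans v v' v'' _ _ ih1 ih2 =>
      intro a
      have := add_mem (ih1 a) (ih2 a)
      rwa [sub_add_sub_cancel] at this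
  choose σ hσ using hsurj
  have h2 : ∀ x : V →₀ A, x - Finsupp.mapDomain (fun v => σ (c v)) x ∈ R := by
    intro x
    induction x using Finsupp.induction_linear with
    | zero => rw [Finsupp.mapDomain_zero, sub_zero]; exact zero_mem R
    | add x y hx hy =>
      rw [Finsupp.mapDomain_add, add_sub_add_comm]
      exact add_mem hx hy
    | single v a =>
      rw [Finsupp.mapDomain_single]
      exact h1 v (σ (c v)) (hconn _ _ (hσ (c v)).symm) a
  have h3 : Finsupp.mapDomain (fun v => σ (c v)) x = 0 := by
    have : (fun v => σ (c v)) = σ ∘ c := rfl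
    rw [this, Finsupp.mapDomain_comp, hx, Finsupp.mapDomain_zero]
  have h4 := h2 x
  rw [h3, sub_zero] at h4
  exact h4

end chains

section forest

variable {k G : Type u} [CommRing k] [Group G] {Eg V W : Type u} [MulAction G Eg]
  [MulAction G V] [MulAction G W]

/-- forest lemma -/
theorem forest_van (A : Rep.{u} k G) (s t : Eg → V) (hs : ∀ (g : G) e, s (g • e) = g • s e)
    (ht : ∀ (g : G) e, t (g • e) = g • t e) (c : V → W) (hc : ∀ (g : G) v, c (g • v) = g • c v)
    (hsurj : Function.Surjective c) (hcst : ∀ e, c (t e) = c (s e))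
    (Θ : V → Eg →₀ ℤ) (hΘ : ∀ e, Θ (t e) - Θ (s e) = Finsupp.single e 1)
    (hconn : ∀ v v', c v = c v' → Relation.EqvGen (fun a b => ∃ e, s e = a ∧ t e = b) v v')
    (h1 : ∀ q, Van (perm Eg A) q) (h2 : ∀ q, Van (perm V A) q) (q : ℕ) : Van (perm W A) q := by
  let f : perm Eg A ⟶ perm V A := permMap A t ht - permMap A s hs
  let g : perm V A ⟶ perm W A := permMap A c hc
  have hf : ∀ x : Eg →₀ A, f.hom x = gbd (A := A) s t x := fun x => rfl
  have w : f ≫ g = 0 := by
    have e1 : permMap A t ht ≫ permMap A c hc = permMap A (fun e => c (t e))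
        (fun g e => by rw [ht, hc]) := permMap_comp A _ _ _ _ _ _ (fun _ => rfl)
    have e2 : permMap A s hs ≫ permMap A c hc = permMap A (fun e => c (t e))
        (fun g e => by rw [ht, hc]) := permMap_comp A _ _ _ _ _ _ (fun x => (hcst x).symm)
    change (permMap A t ht - permMap A s hs) ≫ permMap A c hc = 0
    rw [Preadditive.sub_comp, e1, e2, sub_self]
  have hS : (ShortComplex.mk f g w).ShortExact := by
    refine se_mk ?_ ?_ ?_
    · exact gbd_inj (A := A) s t Θ hΘ
    · intro x hx
      exact gbd_exact (A := A) s t c hsurj hconn x hx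
    · intro y
      induction y using Finsupp.induction_linear with
      | zero => exact ⟨0, map_zero _⟩
      | add x y hx hy =>
        obtain ⟨a, ha⟩ := hx
        obtain ⟨b, hb⟩ := hy
        exact ⟨a + b, (map_add g.hom a b).trans (by rw [ha, hb]; rfl)⟩
      | single w a =>
        obtain ⟨v, rfl⟩ := hsurj w
        exact ⟨(Finsupp.single v a : V →₀ A), Finsupp.mapDomain_single⟩
  rcases q with _ | q
  · have : Epi g := (Rep.epi_iff_surjective _).2 (se_surj hS)
    exact van_zero_of_epi g (h2 0)
  · exact van_right_succ hS q (h2 (q + 1)) (h1 q)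

end forest

end Pool.Agent.TOR
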