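import Mathlib

set_option autoImplicit false

namespace Pool.Agent.TOR

open CategoryTheory CategoryTheory.Limits Rep

universe u

variable {k G : Type u} [CommRing k] [Group G]

/-- Vanishing of group homology in degree n. -/
abbrev Van (A : Rep.{u} k G) (n : ℕ) : Prop := IsZero (groupHomology A n)

/-- the counit of induction from a subgroup -/
noncomputable def cou (S : Subgroup G) (A : Rep.{u} k G) :
    ind S.subtype (res S.subtype A) ⟶ A :=
  (indResHomEquiv S.subtype (res S.subtype A) A).symm (𝟙 _)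

theorem cou_mk (S : Subgroup G) (A : Rep.{u} k G) (h : G) (a : A) :
    (cou S A).hom (Representation.IndV.mk S.subtype (res S.subtype A).ρ h a) = A.ρ h⁻¹ a := by
  simp [cou]

theorem cou_surj (S : Subgroup G) (A : Rep.{u} k G) : Function.Surjective (cou S A).hom := by
  intro a
  refine ⟨Representation.IndV.mk S.subtype (res S.subtype A).ρ 1 a, ?_⟩
  rw [cou_mk]; simp

instance cou_epi (S : Subgroup G) (A : Rep.{u} k G) : Epi (cou S A) :=
  (Rep.epi_iff_surjective _).2 (cou_surj S A)

/-- action of a central element as an endomorphism -/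
noncomputable def cz (A : Rep.{u} k G) (z : G) (hz : z ∈ Subgroup.center G) : A ⟶ A :=
  ofHom ⟨A.ρ z, fun g => by
    rw [← Module.End.mul_eq_comp, ← Module.End.mul_eq_comp, ← map_mul, ← map_mul,
      Subgroup.mem_center_iff.1 hz g]⟩

theorem cz_apply (A : Rep.{u} k G) (z : G) (hz : z ∈ Subgroup.center G) (a : A) :
    (cz A z hz).hom a = A.ρ z a := rfl

theorem cz_nat {A B : Rep.{u} k G} (f : A ⟶ B) (z : G) (hz : z ∈ Subgroup.center G) :
    cz A z hz ≫ f = f ≫ cz B z hz := by
  ext a
  exact (hom_comm_apply f z a)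

theorem H0_cz (A : Rep.{u} k G) (z : G) (hz : z ∈ Subgroup.center G) :
    groupHomology.map (MonoidHom.id G) (cz A z hz) 0 = 𝟙 _ := by
  rw [← cancel_epi (groupHomology.H0π A)]
  have h := groupHomology.H0π_comp_map (MonoidHom.id G) (B := A) (cz A z hz)
  rw [h, Category.comp_id, ← cancel_mono (groupHomology.H0Iso A).hom]
  ext a
  simp only [Category.assoc, groupHomology.H0π_comp_H0Iso_hom, ModuleCat.hom_comp,
    LinearMap.comp_apply]
  exact (Representation.Coinvariants.mk_eq_iff _).2 (Representation.Coinvariants.sub_mem_ker _ _)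

/-- the standard short exact sequence 0 → K → Ind Res A → A → 0 -/
noncomputable def ses (S : Subgroup G) (A : Rep.{u} k G) : ShortComplex (Rep.{u} k G) :=
  ShortComplex.mk (kernel.ι (cou S A)) (cou S A) (kernel.condition _)

theorem ses_exact (S : Subgroup G) (A : Rep.{u} k G) : (ses S A).ShortExact where
  exact := ShortComplex.exact_kernel _
  mono_f := by dsimp [ses]; infer_instance
  epi_g := by dsimp [ses]; infer_instance

theorem van_ind_bot [DecidableEq G] (A : Rep.{u} k G) (n : ℕ) :
    Van (ind (⊥ : Subgroup G).subtype (res (⊥ : Subgroup G).subtype A)) (n + 1) :=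
  (isZero_groupHomology_succ_of_subsingleton _ n).of_iso (groupHomology.indIso _ _ _)

theorem H_cz (z : G) (hz : z ∈ Subgroup.center G) (n : ℕ) : ∀ A : Rep.{u} k G,
    groupHomology.map (MonoidHom.id G) (cz A z hz) n = 𝟙 _ := by
  classical
  induction n with
  | zero => intro A; exact H0_cz A z hz
  | succ n ih =>
    intro A
    let X := ses (⊥ : Subgroup G) A
    have hX : X.ShortExact := ses_exact _ A
    let φ : X ⟶ X :=
      { τ₁ := cz _ z hz
        τ₂ := cz _ z hz
        τ₃ := cz _ z hz
        comm₁₂ := cz_nat _ z hz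
        comm₂₃ := cz_nat _ z hz }
    have hn := HomologicalComplex.HomologySequence.δ_naturality
      ((groupHomology.chainsFunctor k G).mapShortComplex.map φ)
      (groupHomology.map_chainsFunctor_shortExact hX)
      (groupHomology.map_chainsFunctor_shortExact hX) (n+1) n (by simp)
    have hm : Mono (groupHomology.δ hX (n + 1) n rfl) :=
      groupHomology.mono_δ_of_isZero hX n (van_ind_bot A n)
    have h1 : HomologicalComplex.homologyMap
        ((groupHomology.chainsFunctor k G).mapShortComplex.map φ).τ₁ n = 𝟙 _ := ih X.X₁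
    rw [h1, Category.comp_id] at hn
    have h2 : groupHomology.map (MonoidHom.id G) (cz X.X₃ z hz) (n + 1) = 𝟙 _ := by
      refine (cancel_mono (groupHomology.δ hX (n + 1) n rfl)).1 ?_
      rw [Category.id_comp]
      exact hn.symm
    exact h2

theorem homMap_smul {C : Type*} [Category* C] [Preadditive C] {R : Type*} [Semiring R]
    [CategoryTheory.Linear R C] {ι : Type*} {c : ComplexShape ι} {K L : HomologicalComplex C c}
    (f : K ⟶ L) (u : R) (i : ι) [K.HasHomology i] [L.HasHomology i] :
    HomologicalComplex.homologyMap (u • f) i = u • HomologicalComplex.homologyMap f i :=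
  ShortComplex.homologyMap_smul ((HomologicalComplex.shortComplexFunctor C c i).map f) u

theorem map_smul' (A : Rep.{u} k G) (u : k) (φ : A ⟶ A) (hφ : ∀ a : A, φ.hom a = u • a) (n : ℕ)
    (x : groupHomology A n) :
    (groupHomology.map (MonoidHom.id G) φ n).hom x = u • x := by
  have h0 : groupHomology.chainsMap (MonoidHom.id G) φ = u • 𝟙 _ := by
    ext i g a
    simp [hφ]
  have h1 : groupHomology.map (MonoidHom.id G) φ n = u • 𝟙 _ := by
    rw [groupHomology.map, h0, homMap_smul, HomologicalComplex.homologyMap_id]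
    rfl
  rw [h1]
  rfl

/-- H2: a central element which acts by a scalar u with u - 1 a unit kills the homology. -/
theorem central_kill (A : Rep.{u} k G) (z : G) (hz : z ∈ Subgroup.center G) (u : k)
    (hu : IsUnit (u - 1)) (hA : ∀ a : A, A.ρ z a = u • a) (n : ℕ) : Van A n := by
  have h1 := H_cz z hz n A
  refine (IsZero.iff_id_eq_zero _).2 ?_
  ext x
  have h2 := map_smul' A u (cz A z hz) hA n x
  rw [h1] at h2
  obtain ⟨v, hv⟩ := hu.exists_left_inv
  have h3 : (u - 1) • x = 0 := by
    rw [sub_smul, one_smul, ← h2]; simp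
  have h4 : x = 0 := by
    calc x = (v * (u - 1)) • x := by rw [hv, one_smul]
      _ = 0 := by rw [mul_smul, h3, smul_zero]
  simp [h4]

end Pool.Agent.TOR

namespace Pool.Agent.TOR

open CategoryTheory CategoryTheory.Limits Rep

universe u

variable {k G : Type u} [CommRing k] [Group G]

theorem van_mid {X : ShortComplex (Rep.{u} k G)} (hX : X.ShortExact) (n : ℕ)
    (h1 : Van X.X₁ n) (h3 : Van X.X₃ n) : Van X.X₂ n :=
  (groupHomology.mapShortComplex₂_exact hX n).isZero_X₂
    (h1.eq_of_src _ _) (h3.eq_of_tgt _ _)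

theorem van_right_succ {X : ShortComplex (Rep.{u} k G)} (hX : X.ShortExact) (n : ℕ)
    (h2 : Van X.X₂ (n + 1)) (h1 : Van X.X₁ n) : Van X.X₃ (n + 1) :=
  (groupHomology.mapShortComplex₃_exact hX (i := n + 1) (j := n) rfl).isZero_X₂
    (h2.eq_of_src _ _) (h1.eq_of_tgt _ _)

theorem van_left {X : ShortComplex (Rep.{u} k G)} (hX : X.ShortExact) (n : ℕ)
    (h3 : Van X.X₃ (n + 1)) (h2 : Van X.X₂ n) : Van X.X₁ n :=
  (groupHomology.mapShortComplex₁_exact hX (i := n + 1) (j := n) rfl).isZero_X₂
    (h3.eq_of_src _ _) (h2.eq_of_tgt _ _)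

theorem van_zero_of_epi {A B : Rep.{u} k G} (f : A ⟶ B) [Epi f] (h : Van A 0) : Van B 0 := by
  refine (IsZero.iff_id_eq_zero _).2 ?_
  rw [← cancel_epi (groupHomology.map (MonoidHom.id G) f 0)]
  exact h.eq_of_src _ _

/-- Retracts (as objects) inherit vanishing. -/
theorem van_retract {A B : Rep.{u} k G} (i : A ⟶ B) (r : B ⟶ A) (h : i ≫ r = 𝟙 A) (n : ℕ)
    (hB : Van B n) : Van A n := by
  refine (IsZero.iff_id_eq_zero _).2 ?_
  rw [← groupHomology.map_id, ← h, groupHomology.map_id_comp]
  have : groupHomology.map (MonoidHom.id G) i n = 0 := hB.eq_of_tgt _ _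
  rw [this, zero_comp]

theorem van_iso {A B : Rep.{u} k G} (e : A ≅ B) (n : ℕ) (hB : Van B n) : Van A n :=
  van_retract e.hom e.inv e.hom_inv_id n hB

/-- H1, abstract form: a resolution P_m → … → P_0 → A → 0 which is exact at P_0, …, P_(m-1)
with H_(m-p)(G; P_p) = 0 for all p ≤ m and more generally H_q(G;P_p) = 0 for q + p ≤ m. -/
theorem van_resolution (m : ℕ) : ∀ (A : Rep.{u} k G) (P : ℕ → Rep.{u} k G)
    (d : ∀ p, P (p + 1) ⟶ P p) (ε : P 0 ⟶ A) (_ : Epi ε)
    (w0 : d 0 ≫ ε = 0) (w : ∀ p, d (p + 1) ≫ d p = 0)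
    (_ : 0 < m → (ShortComplex.mk (d 0) ε w0).Exact)
    (_ : ∀ p, p + 1 < m → (ShortComplex.mk (d (p + 1)) (d p) (w p)).Exact)
    (_ : ∀ p ≤ m, Van (P p) (m - p)), Van A m := by
  induction m with
  | zero =>
    intro A P d ε hε w0 w _ _ hv
    exact van_zero_of_epi ε (hv 0 le_rfl)
  | succ m ih =>
    intro A P d ε hε w0 w e0 e hv
    let K := kernel ε
    let X : ShortComplex (Rep.{u} k G) := ShortComplex.mk (kernel.ι ε) ε (kernel.condition _)
    have hX : X.ShortExact :=
      { exact := ShortComplex.exact_kernel _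
        mono_f := by dsimp [X]; infer_instance
        epi_g := hε }
    refine van_right_succ hX m (hv 0 (Nat.zero_le _)) ?_
    have e0' := e0 (Nat.succ_pos m)
    have hepi : Epi (kernel.lift ε (d 0) w0) :=
      (ShortComplex.exact_iff_epi_kernel_lift _).1 e0'
    refine ih K (fun p => P (p + 1)) (fun p => d (p + 1)) (kernel.lift ε (d 0) w0) hepi ?_
      (fun p => w (p + 1)) ?_ ?_ ?_
    · rw [← cancel_mono (kernel.ι ε)]; simp [w 0]
    · intro hm
      have h1 := e 0 (by omega)
      have hw : d 1 ≫ kernel.lift ε (d 0) w0 = 0 := by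
        rw [← cancel_mono (kernel.ι ε)]; simp [w 0]
      let φ : ShortComplex.mk (d 1) (kernel.lift ε (d 0) w0) hw ⟶
          ShortComplex.mk (d 1) (d 0) (w 0) :=
        { τ₁ := 𝟙 _
          τ₂ := 𝟙 _
          τ₃ := kernel.ι ε
          comm₁₂ := by simp
          comm₂₃ := by simp }
      have hepi1 : Epi φ.τ₁ := by dsimp [φ]; infer_instance
      have hiso : IsIso φ.τ₂ := by dsimp [φ]; infer_instance
      have hmono : Mono φ.τ₃ := by dsimp [φ]; infer_instance
      exact (ShortComplex.exact_iff_of_epi_of_isIso_of_mono φ).2 h1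
    · intro p hp
      exact e (p + 1) (by omega)
    · intro p hp
      have h2 := hv (p + 1) (by omega)
      have h3 : m + 1 - (p + 1) = m - p := by omega
      rw [h3] at h2
      exact h2

end Pool.Agent.TOR
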