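import Pool.Agent.Helper41_TOR.Br

/-! Induced modules for elements with bijective difference; variants of BR. -/

set_option autoImplicit false

namespace Pool.Agent.TOR

open CategoryTheory CategoryTheory.Limits Rep Representation

universe u

variable {k G : Type u} [CommRing k] [Group G]

/-- if every conjugate of `w` lies in `S` and has bijective difference on `A`, then `w` has
bijective difference on the induced module -/
theorem ind_bij (S : Subgroup G) (A : Rep.{u} k S) (w : G)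
    (hw : ∀ h : G, ∃ s : S, (s : G) = h * w * h⁻¹ ∧
      Function.Bijective (fun a : A => A.ρ s a - a)) :
    Function.Bijective (fun a : (Rep.ind S.subtype A :) => (Rep.ind S.subtype A).ρ w a - a) := by
  choose s hs hb using hw
  -- the difference operators
  let T : G → (A →ₗ[k] A) := fun h => A.ρ (s h) - LinearMap.id
  have hT : ∀ h a, T h a = A.ρ (s h) a - a := fun _ _ => rfl
  let E : ∀ h : G, (A ≃ₗ[k] A) := fun h => LinearEquiv.ofBijective (T h) (hb h)
  have hE : ∀ h a, E h a = A.ρ (s h) a - a := fun _ _ => rfl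
  have hconj : ∀ (g : S) (h : G), s ((g : G) * h) = g * s h * g⁻¹ := by
    intro g h
    apply Subtype.ext
    rw [hs]
    push_cast
    rw [hs]
    group
  have hEc : ∀ (g : S) (h : G) (a : A), (E ((g : G) * h)).symm (A.ρ g a) =
      A.ρ g ((E h).symm a) := by
    intro g h a
    rw [LinearEquiv.symm_apply_eq, hE, hconj]
    rw [← Module.End.mul_apply, ← map_mul, inv_mul_cancel_right, map_mul, Module.End.mul_apply,
      ← map_sub]
    congr 1
    exact ((E h).apply_symm_apply a).symm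
  -- the relation in the induced module
  have hrel : ∀ (g : S) (h : G) (a : A),
      IndV.mk S.subtype A.ρ ((g : G) * h) (A.ρ g a) = IndV.mk S.subtype A.ρ h a := by
    intro g h a
    have := Coinvariants.mk_self_apply
      (Representation.tprod ((Representation.leftRegular k G).comp S.subtype) A.ρ) g
      ((MonoidAlgebra.single h (1 : k) : MonoidAlgebra k G) ⊗ₜ[k] a)
    simpa using this
  let I : IndV S.subtype A.ρ →ₗ[k] IndV S.subtype A.ρ :=
    Representation.Coinvariants.lift _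
      (TensorProduct.lift <| (Finsupp.lift _ _ _ fun h =>
        IndV.mk S.subtype A.ρ h ∘ₗ (E h).symm.toLinearMap) ∘ₗ
        (MonoidAlgebra.coeffLinearEquiv k).toLinearMap)
      (by
        intro g
        ext h a
        simp only [LinearMap.coe_comp, Function.comp_apply, MonoidAlgebra.lsingle_apply]
        have h1 := hrel g h ((E h).symm a)
        rw [← hEc] at h1
        simpa using h1)
  have hI : ∀ h a, I (IndV.mk S.subtype A.ρ h a) = IndV.mk S.subtype A.ρ h ((E h).symm a) := by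
    intro h a
    simp [I]
  let D : IndV S.subtype A.ρ →ₗ[k] IndV S.subtype A.ρ :=
    (A.ρ.ind S.subtype) w - LinearMap.id
  have hD : ∀ h a, D (IndV.mk S.subtype A.ρ h a) = IndV.mk S.subtype A.ρ h (E h a) := by
    intro h a
    have h1 : (A.ρ.ind S.subtype) w (IndV.mk S.subtype A.ρ h a) =
        IndV.mk S.subtype A.ρ h (A.ρ (s h) a) := by
      rw [ind_mk]
      have h2 := hrel (s h)⁻¹ h (A.ρ (s h) a)
      rw [← Module.End.mul_apply, ← map_mul, inv_mul_cancel, map_one, Module.End.one_apply] at h2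
      have h3 : (((s h)⁻¹ : S) : G) * h = h * w⁻¹ := by
        rw [InvMemClass.coe_inv, hs]; group
      rw [h3] at h2
      exact h2
    change (A.ρ.ind S.subtype) w (IndV.mk S.subtype A.ρ h a) - IndV.mk S.subtype A.ρ h a = _
    rw [h1, hE, map_sub]
  have h1 : D ∘ₗ I = LinearMap.id := by
    refine IndV.hom_ext _ _ fun h => LinearMap.ext fun a => ?_
    change D (I (IndV.mk S.subtype A.ρ h a)) = IndV.mk S.subtype A.ρ h a
    rw [hI, hD, LinearEquiv.apply_symm_apply]
  have h2 : I ∘ₗ D = LinearMap.id := by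
    refine IndV.hom_ext _ _ fun h => LinearMap.ext fun a => ?_
    change I (D (IndV.mk S.subtype A.ρ h a)) = IndV.mk S.subtype A.ρ h a
    rw [hD, hI, LinearEquiv.symm_apply_apply]
  refine Function.bijective_iff_has_inverse.2 ⟨I, fun x => ?_, fun x => ?_⟩
  · exact LinearMap.congr_fun h2 x
  · exact LinearMap.congr_fun h1 x

/-- Shapiro's lemma: vanishing for an induced module gives vanishing for the subgroup -/
theorem van_of_ind (S : Subgroup G) (A : Rep.{u} k S) (q : ℕ) (h : Van (Rep.ind S.subtype A) q) :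
    Van A q := by
  classical
  exact h.of_iso (groupHomology.indIso S A q).symm

/-- Shapiro's lemma, other direction -/
theorem van_ind (S : Subgroup G) (A : Rep.{u} k S) (q : ℕ) (h : Van A q) :
    Van (Rep.ind S.subtype A) q := by
  classical
  exact h.of_iso (groupHomology.indIso S A q)

section rank

variable {π : Type u} [Group π]

/-- sorting a finite basis with a rank function -/
theorem rank_flg {ι : Type} [Finite ι] (rk : ι → ℕ) (b : ι → π) : ∃ (n : ℕ) (e : Fin n ≃ ι),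
    ∀ i : Fin n, Subgroup.closure {x | ∃ l, rk l < rk (e i) ∧ b l = x} ≤ flg (b ∘ e) i := by
  classical
  have := Fintype.ofFinite ι
  obtain ⟨e0⟩ := Fintype.truncEquivFin ι
  let σ := Tuple.sort (rk ∘ e0.symm)
  refine ⟨_, σ.trans e0.symm, fun i => ?_⟩
  rw [Subgroup.closure_le]
  rintro x ⟨l, hl, rfl⟩
  refine Subgroup.subset_closure ⟨(σ.trans e0.symm).symm l, ?_, ?_⟩
  · by_contra hcon
    rw [not_lt] at hcon
    have h1 := Tuple.monotone_sort (rk ∘ e0.symm) hcon
    have h2 : (rk ∘ e0.symm) (Tuple.sort (rk ∘ e0.symm) ((σ.trans e0.symm).symm l)) = rk l := by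
      change rk ((σ.trans e0.symm) ((σ.trans e0.symm).symm l)) = rk l
      rw [Equiv.apply_symm_apply]
    have h3 : rk (e0.symm (σ i)) ≤ rk l := by
      rw [← h2]; exact h1
    exact absurd hl (not_lt.2 h3)
  · change b ((σ.trans e0.symm) ((σ.trans e0.symm).symm l)) = b l
    rw [Equiv.apply_symm_apply]

end rank

/-- THEOREM BR with a finite index type and a rank function. -/
theorem BR' (r : ℕ) (Γ π : ℕ → Type u) [∀ j, Group (Γ j)] [∀ j, Group (π j)]
    (M : ∀ j, G →* Γ j) (μ : ∀ j, Γ (j + 1) →* Γ j) (σ : ∀ j, Γ j →* Γ (j + 1))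
    (lam : ∀ j, π j →* Γ (j + 1)) (a : ∀ j, Γ j →* MulAut (π j))
    (hMr : Function.Injective (M r)) (hM : ∀ j, j < r → Function.Surjective (M (j + 1)))
    (hμM : ∀ j, j < r → ∀ g, μ j (M (j + 1) g) = M j g)
    (hμσ : ∀ j, j < r → ∀ g, μ j (σ j g) = g)
    (hinj : ∀ j, j < r → Function.Injective (lam j))
    (hker : ∀ j, j < r → ∀ x, μ j x = 1 ↔ x ∈ (lam j).range)
    (hact : ∀ j, j < r → ∀ g p, σ j g * lam j p * (σ j g)⁻¹ = lam j (a j g p))
    (B : ∀ j, Set (Γ j))
    (hB : ∀ j, j < r → ∀ w ∈ B j, σ j w ∈ B (j + 1) ∧ ∃ (ι : Type) (_ : Finite ι) (rk : ι → ℕ)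
      (b : ι → π j), Subgroup.closure (Set.range b) = ⊤ ∧
      (∀ (K : Type u) [Group K] (f : ι → K), ∃ φ : π j →* K, ∀ i, φ (b i) = f i) ∧
      ∀ i : ι, ∃ u ∈ Subgroup.closure {x | ∃ l, rk l < rk i ∧ b l = x},
        ∃ u' ∈ Subgroup.closure {x | ∃ l, rk l < rk i ∧ b l = x}, a j w (b i) = u * b i * u' ∧
        (lam j u)⁻¹ * σ j w ∈ B (j + 1))
    (hB' : ∀ j, j < r → ∃ p, lam j p ∈ B (j + 1))
    (N : Rep.{u} k G)
    (hN : ∀ g, M r g ∈ B r → Function.Bijective (fun a : N => N.ρ g a - a)) :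
    ∀ q, q < r → Van N q := by
  refine BR r Γ π M μ σ lam a hMr hM hμM hμσ hinj hker hact B ?_ hB' N hN
  intro j hj w hw
  obtain ⟨h1, ι, hι, rk, b, hg, he, h2⟩ := hB j hj w hw
  obtain ⟨n, e, hf⟩ := rank_flg rk b
  refine ⟨h1, n, b ∘ e, ⟨?_, ?_⟩, ?_⟩
  · rw [EquivLike.range_comp]; exact hg
  · intro K _ f
    obtain ⟨φ, hφ⟩ := he K (f ∘ e.symm)
    refine ⟨φ, fun i => ?_⟩
    change φ (b (e i)) = f i
    rw [hφ]
    change f (e.symm (e i)) = f i
    rw [Equiv.symm_apply_apply]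
  · intro i
    obtain ⟨u, hu, u', hu', h3, h4⟩ := h2 (e i)
    exact ⟨u, hf i hu, u', hf i hu', h3, h4⟩

/-- THEOREM BR for a subgroup `S` containing all conjugates of the elements above `B r`. -/
theorem BR_sub (r : ℕ) (Γ π : ℕ → Type u) [∀ j, Group (Γ j)] [∀ j, Group (π j)]
    (M : ∀ j, G →* Γ j) (μ : ∀ j, Γ (j + 1) →* Γ j) (σ : ∀ j, Γ j →* Γ (j + 1))
    (lam : ∀ j, π j →* Γ (j + 1)) (a : ∀ j, Γ j →* MulAut (π j))
    (hMr : Function.Injective (M r)) (hM : ∀ j, j < r → Function.Surjective (M (j + 1)))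
    (hμM : ∀ j, j < r → ∀ g, μ j (M (j + 1) g) = M j g)
    (hμσ : ∀ j, j < r → ∀ g, μ j (σ j g) = g)
    (hinj : ∀ j, j < r → Function.Injective (lam j))
    (hker : ∀ j, j < r → ∀ x, μ j x = 1 ↔ x ∈ (lam j).range)
    (hact : ∀ j, j < r → ∀ g p, σ j g * lam j p * (σ j g)⁻¹ = lam j (a j g p))
    (B : ∀ j, Set (Γ j))
    (hB : ∀ j, j < r → ∀ w ∈ B j, σ j w ∈ B (j + 1) ∧ ∃ (ι : Type) (_ : Finite ι) (rk : ι → ℕ)
      (b : ι → π j), Subgroup.closure (Set.range b) = ⊤ ∧
      (∀ (K : Type u) [Group K] (f : ι → K), ∃ φ : π j →* K, ∀ i, φ (b i) = f i) ∧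
      ∀ i : ι, ∃ u ∈ Subgroup.closure {x | ∃ l, rk l < rk i ∧ b l = x},
        ∃ u' ∈ Subgroup.closure {x | ∃ l, rk l < rk i ∧ b l = x}, a j w (b i) = u * b i * u' ∧
        (lam j u)⁻¹ * σ j w ∈ B (j + 1))
    (hB' : ∀ j, j < r → ∃ p, lam j p ∈ B (j + 1))
    (S : Subgroup G) (N : Rep.{u} k S)
    (hN : ∀ g, M r g ∈ B r → ∀ h : G, ∃ s : S, (s : G) = h * g * h⁻¹ ∧
      Function.Bijective (fun a : N => N.ρ s a - a)) :
    ∀ q, q < r → Van N q := by
  intro q hq
  refine van_of_ind S N q (BR' r Γ π M μ σ lam a hMr hM hμM hμσ hinj hker hact B hB hB' _ ?_ q hq)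
  intro g hg
  exact ind_bij S N g (hN g hg)

end Pool.Agent.TOR
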