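import Pool.Agent.Helper41_TOR.Gn

set_option autoImplicit false

namespace Pool.Agent.TOR

open CategoryTheory CategoryTheory.Limits Rep Representation

universe u

section ker

variable {k G : Type u} [CommRing k] [Group G]

/-- the kernel of a map of representations, concretely -/
noncomputable def krR {A B : Rep.{u} k G} (f : A ⟶ B) :
    Representation k G (LinearMap.ker f.hom.toLinearMap) where
  toFun g := (A.ρ g).restrict (fun x hx => by
    have hx' : f.hom x = 0 := hx
    change f.hom (A.ρ g x) = 0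
    rw [hom_comm_apply f g x, hx', map_zero])
  map_one' := by ext x; simp
  map_mul' g h := by ext x; simp

/-- the kernel of a map of representations, concretely -/
noncomputable def kr {A B : Rep.{u} k G} (f : A ⟶ B) : Rep.{u} k G := Rep.of (krR f)

/-- inclusion of the kernel -/
noncomputable def krι {A B : Rep.{u} k G} (f : A ⟶ B) : kr f ⟶ A :=
  ofHom ⟨(LinearMap.ker f.hom.toLinearMap).subtype, fun _ => rfl⟩

theorem krι_apply {A B : Rep.{u} k G} (f : A ⟶ B) (x : LinearMap.ker f.hom.toLinearMap) :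
    (krι f).hom x = (x : A) := rfl

/-- the short complex of the kernel -/
noncomputable def krS {A B : Rep.{u} k G} (f : A ⟶ B) : ShortComplex (Rep.{u} k G) :=
  ShortComplex.mk (krι f) f (by
    refine Rep.hom_ext (DFunLike.ext _ _ fun c => ?_)
    exact (show LinearMap.ker f.hom.toLinearMap from c).2)

theorem krS_exact {A B : Rep.{u} k G} (f : A ⟶ B) (hf : Function.Surjective f.hom) :
    (krS f).ShortExact := by
  refine se_mk ?_ ?_ hf
  · exact Subtype.val_injective
  · intro x hx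
    exact ⟨⟨x, hx⟩, rfl⟩

/-- lift to the kernel -/
noncomputable def krL {A B C : Rep.{u} k G} (f : A ⟶ B) (g : C ⟶ A)
    (h : ∀ c, f.hom (g.hom c) = 0) : C ⟶ kr f :=
  ofHom ⟨g.hom.toLinearMap.codRestrict _ h, fun s => by
    ext c : 1
    exact Subtype.ext (hom_comm_apply g s c)⟩

theorem krL_apply {A B C : Rep.{u} k G} (f : A ⟶ B) (g : C ⟶ A)
    (h : ∀ c, f.hom (g.hom c) = 0) (c : C) :
    (show LinearMap.ker f.hom.toLinearMap from (krL f g h).hom c) = ⟨g.hom c, h c⟩ := rfl

end ker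

section mapker

variable {k G H : Type u} [CommRing k] [Group G] [Group H]

/-- the map induced on kernels -/
noncomputable def krM (φ : G →* H) {A B : Rep.{u} k G} {A' B' : Rep.{u} k H} (f : A ⟶ B)
    (f' : A' ⟶ B') (a : A ⟶ res φ A') (b : B ⟶ res φ B')
    (h : ∀ x, f'.hom (a.hom x) = b.hom (f.hom x)) : kr f ⟶ res φ (kr f') :=
  ofHom ⟨(a.hom.toLinearMap ∘ₗ (LinearMap.ker f.hom.toLinearMap).subtype).codRestrict
    (LinearMap.ker f'.hom.toLinearMap) (fun x => by
      change f'.hom (a.hom (x : A)) = 0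
      rw [h]
      have hx : f.hom (x : A) = 0 := x.2
      rw [hx, map_zero]), fun s => by
    ext c : 1
    refine Subtype.ext ?_
    exact hom_comm_apply a s (show LinearMap.ker f.hom.toLinearMap from c).1⟩

theorem krM_apply (φ : G →* H) {A B : Rep.{u} k G} {A' B' : Rep.{u} k H} (f : A ⟶ B)
    (f' : A' ⟶ B') (a : A ⟶ res φ A') (b : B ⟶ res φ B')
    (h : ∀ x, f'.hom (a.hom x) = b.hom (f.hom x)) (c : LinearMap.ker f.hom.toLinearMap) :
    ((show LinearMap.ker f'.hom.toLinearMap from (krM φ f f' a b h).hom c) : A') =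
      a.hom (c : A) := rfl

end mapker

section ladder

variable {k : Type u} [CommRing k] (G : ℕ → Type u) [∀ j, Group (G j)]
  (φ : ∀ j, G j →* G (j + 1))

/-- iterated maps on homology -/
noncomputable def itr (A : ∀ j, Rep.{u} k (G j)) (α : ∀ j, A j ⟶ res (φ j) (A (j + 1)))
    (n j : ℕ) : ∀ L : ℕ, groupHomology (A j) n →ₗ[k] groupHomology (A (j + L)) n
  | 0 => LinearMap.id
  | L + 1 => (gI (φ (j + L)) (α (j + L)) n).comp (itr A α n j L)

theorem itr_succ (A : ∀ j, Rep.{u} k (G j)) (α : ∀ j, A j ⟶ res (φ j) (A (j + 1)))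
    (n j L : ℕ) (c : groupHomology (A j) n) :
    itr G φ A α n j (L + 1) c = gI (φ (j + L)) (α (j + L)) n (itr G φ A α n j L c) := rfl

/-- abstract ladder lemma -/
theorem ladder_abs (m : ℕ) : ∀ (A : ∀ j, Rep.{u} k (G j)) (α : ∀ j, A j ⟶ res (φ j) (A (j + 1)))
    (P : ∀ j, ℕ → Rep.{u} k (G j)) (π : ∀ j p, P j p ⟶ res (φ j) (P (j + 1) p))
    (d : ∀ j p, P j (p + 1) ⟶ P j p) (ε : ∀ j, P j 0 ⟶ A j)
    (_ : ∀ j, Function.Surjective (ε j).hom)
    (_ : ∀ j a, (ε j).hom ((d j 0).hom a) = 0)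
    (_ : ∀ j p a, (d j p).hom ((d j (p + 1)).hom a) = 0)
    (_ : 0 < m → ∀ j a, (ε j).hom a = 0 → ∃ b, (d j 0).hom b = a)
    (_ : ∀ p, p + 1 < m → ∀ j a, (d j p).hom a = 0 → ∃ b, (d j (p + 1)).hom b = a)
    (_ : ∀ j a, (ε (j + 1)).hom ((π j 0).hom a) = (α j).hom ((ε j).hom a))
    (_ : ∀ j p a, (d (j + 1) p).hom ((π j (p + 1)).hom a) = (π j p).hom ((d j p).hom a))
    (_ : ∀ j p, p ≤ m → ∀ c, gI (φ j) (π j p) (m - p) c = 0),
    ∀ j c, itr G φ A α m j (m + 1) c = 0 := by
  induction m with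
  | zero =>
    intro A α P π d ε hε w0 w e0 e c0 c1 hz j c
    obtain ⟨z, rfl⟩ := hI_surj_zero (ε j) (hε j) c
    rw [itr_succ]
    change gI (φ j) (α j) 0 (hI (ε j) 0 z) = 0
    let t : P j 0 ⟶ res (φ j) (A (j + 1)) := ε j ≫ α j
    have h1 := hI_gI (φ j) (ε j) (α j) t (fun _ => rfl) 0 z
    have h2 := gI_hI (φ j) (π j 0) (ε (j + 1)) t (fun a => (c0 j a).symm) 0 z
    rw [h1, ← h2]
    have h3 := hz j 0 le_rfl z
    have h4 : gI (φ j) (π j 0) 0 z = 0 := h3
    rw [h4, map_zero]
  | succ m ih =>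
    intro A α P π d ε hε w0 w e0 e c0 c1 hz j c
    have hX : ∀ j, (krS (ε j)).ShortExact := fun j => krS_exact (ε j) (hε j)
    let κ : ∀ j, kr (ε j) ⟶ res (φ j) (kr (ε (j + 1))) := fun j =>
      krM (φ j) (ε j) (ε (j + 1)) (π j 0) (α j) (c0 j)
    have ih' := ih (fun j => kr (ε j)) κ (fun j p => P j (p + 1)) (fun j p => π j (p + 1))
      (fun j p => d j (p + 1)) (fun j => krL (ε j) (d j 0) (w0 j)) ?_ ?_ (fun j p => w j (p + 1))
      ?_ ?_ ?_ (fun j p => c1 j (p + 1)) ?_
    · -- commutation with the connecting maps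
      have hcomm : ∀ L, dl (hX (j + L)) m (itr G φ A α (m + 1) j L c) =
          itr G φ (fun j => kr (ε j)) κ m j L (dl (hX j) m c) := by
        intro L
        induction L with
        | zero => rfl
        | succ L ihL =>
          rw [itr_succ, itr_succ, ← ihL]
          exact (gI_dl (φ (j + L)) (hX (j + L)) (hX (j + L + 1)) (κ (j + L)) (π (j + L) 0)
            (α (j + L)) (fun _ => rfl) (c0 (j + L)) m _).symm
      have h1 := hcomm (m + 1)
      rw [ih' j (dl (hX j) m c)] at h1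
      obtain ⟨z, hz1⟩ := ex3 (hX (j + (m + 1))) m _ h1
      rw [itr_succ, ← hz1]
      let t : P (j + (m + 1)) 0 ⟶ res (φ (j + (m + 1))) (A (j + (m + 1) + 1)) :=
        ε (j + (m + 1)) ≫ α (j + (m + 1))
      have h2 := hI_gI (φ (j + (m + 1))) (ε (j + (m + 1))) (α (j + (m + 1))) t
        (fun _ => rfl) (m + 1) z
      have h3 := gI_hI (φ (j + (m + 1))) (π (j + (m + 1)) 0) (ε (j + (m + 1) + 1)) t
        (fun a => (c0 _ a).symm) (m + 1) z
      have h4 : gI (φ (j + (m + 1))) (π (j + (m + 1)) 0) (m + 1) z = 0 :=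
        hz (j + (m + 1)) 0 (Nat.zero_le _) z
      refine h2.trans (h3.symm.trans ?_)
      rw [h4, map_zero]
    · intro j a
      obtain ⟨b, hb⟩ := e0 (Nat.succ_pos m) j _ (show LinearMap.ker (ε j).hom.toLinearMap from a).2
      exact ⟨b, Subtype.ext hb⟩
    · intro j a
      exact Subtype.ext (w j 0 a)
    · intro hm j a ha
      exact e 0 (by omega) j a (congrArg Subtype.val ha)
    · intro p hp j a ha
      exact e (p + 1) (by omega) j a ha
    · intro j a
      exact Subtype.ext (c1 j 0 a)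
    · intro j p hp c
      have h := hz j (p + 1) (by omega)
      have h3 : m + 1 - (p + 1) = m - p := by omega
      rw [h3] at h
      exact h c

end ladder

end Pool.Agent.TOR
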