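import Pool.Agent.Helper41_TOR.Fo

/-! The level lemma: a group acting on a free group through a crossed homomorphism -/

set_option autoImplicit false

namespace Pool.Agent.TOR

open CategoryTheory CategoryTheory.Limits Rep Representation

universe u

section defs

variable {H π : Type u} [Group H] [Group π]

/-- crossed action of H on the group π -/
structure Crs (H π : Type u) [Group H] [Group π] where
  α : H →* MulAut π
  θ : H → π
  hθ : ∀ g h, θ (g * h) = θ g * α g (θ h)

theorem Crs.θ_one (C : Crs H π) : C.θ 1 = 1 := by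
  have h := C.hθ 1 1
  rw [mul_one, map_one] at h
  have h2 : C.θ 1 = C.θ 1 * C.θ 1 := h
  exact (mul_eq_left.1 h2.symm)

/-- stable subgroup -/
def Crs.Stb (C : Crs H π) (A : Subgroup π) : Prop := ∀ h, ∀ a ∈ A, C.α h a ∈ A

/-- cosets -/
def Crs.Cos (C : Crs H π) (A : Subgroup π) (_ : C.Stb A) : Type u := π ⧸ A

instance (C : Crs H π) (A : Subgroup π) (hA : C.Stb A) : MulAction H (C.Cos A hA) where
  smul g x := Quotient.map' (fun p => C.θ g * C.α g p) (fun p p' h => by
    rw [QuotientGroup.leftRel_apply] at h ⊢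
    have h2 := hA g _ h
    rw [map_mul, map_inv] at h2
    have h3 : (C.θ g * C.α g p)⁻¹ * (C.θ g * C.α g p') = (C.α g p)⁻¹ * C.α g p' := by group
    rw [h3]
    exact h2) x
  one_smul x := by
    refine Quotient.inductionOn' x fun p => ?_
    change (QuotientGroup.mk (C.θ 1 * C.α 1 p) : π ⧸ A) = QuotientGroup.mk p
    rw [C.θ_one, map_one, one_mul]
    rfl
  mul_smul g h x := by
    refine Quotient.inductionOn' x fun p => ?_
    change (QuotientGroup.mk (C.θ (g * h) * C.α (g * h) p) : π ⧸ A) =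
      QuotientGroup.mk (C.θ g * C.α g (C.θ h * C.α h p))
    rw [C.hθ, map_mul C.α, map_mul (C.α g), mul_assoc]
    rfl

/-- class of a point -/
def Crs.cl (C : Crs H π) (A : Subgroup π) (hA : C.Stb A) (p : π) : C.Cos A hA :=
  (QuotientGroup.mk p : π ⧸ A)

theorem Crs.cl_surj (C : Crs H π) (A : Subgroup π) (hA : C.Stb A) :
    Function.Surjective (C.cl A hA) := QuotientGroup.mk_surjective

theorem Crs.cl_eq (C : Crs H π) (A : Subgroup π) (hA : C.Stb A) (p p' : π) :
    C.cl A hA p = C.cl A hA p' ↔ p⁻¹ * p' ∈ A := QuotientGroup.eq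

theorem Crs.smul_cl (C : Crs H π) (A : Subgroup π) (hA : C.Stb A) (g : H) (p : π) :
    g • C.cl A hA p = C.cl A hA (C.θ g * C.α g p) := rfl

/-- Fox derivative with respect to b, zero on A -/
def IsFox (A : Subgroup π) (b : π) (D : π → (π →₀ ℤ)) : Prop :=
  (∀ x y, D (x * y) = D x + Finsupp.mapDomain (x * ·) (D y)) ∧ (∀ a ∈ A, D a = 0) ∧
    D b = Finsupp.single 1 1

theorem IsFox.uniq {A : Subgroup π} {b : π} {D : π → (π →₀ ℤ)} (hD : IsFox A b D) {u u' v v' : π}
    (hu : u ∈ A) (hu' : u' ∈ A) (hv : v ∈ A) (hv' : v' ∈ A) (h : u * b * u' = v * b * v') :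
    u = v := by
  have h1 : ∀ u ∈ A, ∀ u' ∈ A, D (u * b * u') = Finsupp.single u 1 := by
    intro u hu u' hu'
    rw [hD.1, hD.1, hD.2.1 u hu, hD.2.1 u' hu', hD.2.2, Finsupp.mapDomain_zero,
      Finsupp.mapDomain_single, mul_one, zero_add, add_zero]
  have h2 := h1 u hu u' hu'
  rw [h, h1 v hv v' hv'] at h2
  exact ((Finsupp.single_left_inj one_ne_zero).1 h2).symm

/-- the letter b is moved inside A b A -/
def Crs.Mvs (C : Crs H π) (A : Subgroup π) (b : π) : Prop :=
  ∀ h, ∃ u ∈ A, ∃ u' ∈ A, C.α h b = u * b * u'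

/-- the left multiplier -/
noncomputable def Crs.mu (C : Crs H π) {A : Subgroup π} {b : π} (hb : C.Mvs A b) (h : H) : π :=
  (hb h).choose

theorem Crs.mu_mem (C : Crs H π) {A : Subgroup π} {b : π} (hb : C.Mvs A b) (h : H) :
    C.mu hb h ∈ A := (hb h).choose_spec.1

theorem Crs.mu_spec (C : Crs H π) {A : Subgroup π} {b : π} (hb : C.Mvs A b) (h : H) :
    ∃ u' ∈ A, C.α h b = C.mu hb h * b * u' := (hb h).choose_spec.2

/-- edges -/
def Crs.Edg (C : Crs H π) {A : Subgroup π} {b : π} {D : π → (π →₀ ℤ)} (_ : IsFox A b D)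
    (_ : C.Stb A) (_ : C.Mvs A b) : Type u := π

theorem Crs.mu_one (C : Crs H π) {A : Subgroup π} {b : π} {D : π → (π →₀ ℤ)} (hD : IsFox A b D)
    (hb : C.Mvs A b) : C.mu hb 1 = 1 := by
  obtain ⟨u', hu', h⟩ := C.mu_spec hb 1
  rw [map_one] at h
  have h2 : C.mu hb 1 * b * u' = 1 * b * 1 := by rw [← h, one_mul, mul_one]; rfl
  exact hD.uniq (C.mu_mem hb 1) hu' (one_mem A) (one_mem A) h2

theorem Crs.mu_mul (C : Crs H π) {A : Subgroup π} {b : π} {D : π → (π →₀ ℤ)} (hD : IsFox A b D)
    (hA : C.Stb A) (hb : C.Mvs A b) (g h : H) :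
    C.mu hb (g * h) = C.α g (C.mu hb h) * C.mu hb g := by
  obtain ⟨u', hu', e1⟩ := C.mu_spec hb (g * h)
  obtain ⟨v', hv', e2⟩ := C.mu_spec hb g
  obtain ⟨w', hw', e3⟩ := C.mu_spec hb h
  have e4 : C.mu hb (g * h) * b * u' = (C.α g (C.mu hb h) * C.mu hb g) * b * (v' * C.α g w') := by
    rw [← e1, map_mul]
    change C.α g (C.α h b) = _
    rw [e3, map_mul, map_mul, e2]
    group
  exact hD.uniq (C.mu_mem hb _) hu' (mul_mem (hA g _ (C.mu_mem hb h)) (C.mu_mem hb g))
    (mul_mem hv' (hA g _ hw')) e4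

noncomputable instance (C : Crs H π) {A : Subgroup π} {b : π} {D : π → (π →₀ ℤ)}
    (hD : IsFox A b D) (hA : C.Stb A) (hb : C.Mvs A b) : MulAction H (C.Edg hD hA hb) where
  smul g p := (C.θ g * C.α g p * C.mu hb g : π)
  one_smul p := by
    change (C.θ 1 * C.α 1 p * C.mu hb 1 : π) = p
    rw [C.θ_one, C.mu_one hD, map_one, one_mul, mul_one]
    rfl
  mul_smul g h p := by
    change (C.θ (g * h) * C.α (g * h) p * C.mu hb (g * h) : π) =
      C.θ g * C.α g (C.θ h * C.α h p * C.mu hb h) * C.mu hb g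
    rw [C.hθ, C.mu_mul hD hA hb, map_mul C.α, map_mul (C.α g), map_mul (C.α g)]
    change C.θ g * C.α g (C.θ h) * C.α g (C.α h p) * _ = _
    group

theorem Crs.smul_edg (C : Crs H π) {A : Subgroup π} {b : π} {D : π → (π →₀ ℤ)} (hD : IsFox A b D)
    (hA : C.Stb A) (hb : C.Mvs A b) (g : H) (p : C.Edg hD hA hb) :
    (g • p : C.Edg hD hA hb) = (C.θ g * C.α g p * C.mu hb g : π) := rfl

end defs

section level

variable {k H π : Type u} [CommRing k] [Group H] [Group π]

/-- one level -/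
theorem level_step (C : Crs H π) {A B : Subgroup π} {b : π} {D : π → (π →₀ ℤ)}
    (hD : IsFox A b D) (hA : C.Stb A) (hB : C.Stb B) (hb : C.Mvs A b)
    (hAB : B = Subgroup.closure ((A : Set π) ∪ {b})) (N : Rep.{u} k H)
    (h1 : ∀ q, Van (perm (C.Edg hD hA hb) N) q) (h2 : ∀ q, Van (perm (C.Cos A hA) N) q)
    (q : ℕ) : Van (perm (C.Cos B hB) N) q := by
  have hAleB : A ≤ B := by
    rw [hAB]
    exact fun a ha => Subgroup.subset_closure (Or.inl ha)
  have hbB : b ∈ B := by
    rw [hAB]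
    exact Subgroup.subset_closure (Or.inr rfl)
  let s : C.Edg hD hA hb → C.Cos A hA := fun p => C.cl A hA p
  let t : C.Edg hD hA hb → C.Cos A hA := fun p => C.cl A hA ((show π from p) * b)
  let c : C.Cos A hA → C.Cos B hB := fun x => Quotient.map' (fun p => p) (fun p p' h => by
    rw [QuotientGroup.leftRel_apply] at h ⊢
    exact hAleB h) x
  have hccl : ∀ p : π, c (C.cl A hA p) = C.cl B hB p := fun p => rfl
  let Θ : C.Cos A hA → (C.Edg hD hA hb →₀ ℤ) := fun x => Quotient.liftOn' x D (fun p p' h => by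
    rw [QuotientGroup.leftRel_apply] at h
    have h3 : p' = p * (p⁻¹ * p') := by group
    rw [h3, hD.1, hD.2.1 _ h, Finsupp.mapDomain_zero, add_zero])
  have hΘcl : ∀ p : π, Θ (C.cl A hA p) = D p := fun p => rfl
  refine forest_van N s t ?_ ?_ c ?_ ?_ ?_ Θ ?_ ?_ h1 h2 q
  · intro g p
    change C.cl A hA (C.θ g * C.α g p * C.mu hb g) = g • C.cl A hA p
    rw [C.smul_cl, C.cl_eq]
    have : (C.θ g * C.α g p * C.mu hb g)⁻¹ * (C.θ g * C.α g p) = (C.mu hb g)⁻¹ := by group
    rw [this]
    exact inv_mem (C.mu_mem hb g)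
  · intro g p
    change C.cl A hA (C.θ g * C.α g p * C.mu hb g * b) = g • C.cl A hA ((show π from p) * b)
    rw [C.smul_cl, C.cl_eq]
    obtain ⟨u', hu', e⟩ := C.mu_spec hb g
    have : (C.θ g * C.α g p * C.mu hb g * b)⁻¹ * (C.θ g * C.α g ((show π from p) * b)) = u' := by
      rw [map_mul, e]; group
    rw [this]
    exact hu'
  · intro g x
    obtain ⟨p, rfl⟩ := C.cl_surj A hA x
    rfl
  · intro y
    obtain ⟨p, rfl⟩ := C.cl_surj B hB y
    exact ⟨C.cl A hA p, rfl⟩
  · intro p
    change C.cl B hB ((show π from p) * b) = C.cl B hB p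
    rw [C.cl_eq]
    have : ((show π from p) * b)⁻¹ * (show π from p) = b⁻¹ := by group
    rw [this]
    exact inv_mem hbB
  · intro p
    change D ((show π from p) * b) - D p = Finsupp.single (show π from p) 1
    rw [hD.1, hD.2.2, Finsupp.mapDomain_single, mul_one, add_sub_cancel_left]
  · intro v v' hv
    obtain ⟨p, rfl⟩ := C.cl_surj A hA v
    obtain ⟨p', rfl⟩ := C.cl_surj A hA v'
    rw [hccl, hccl, C.cl_eq] at hv
    have key : ∀ y ∈ Subgroup.closure ((A : Set π) ∪ {b}), ∀ p : π,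
        Relation.EqvGen (fun a b => ∃ e, s e = a ∧ t e = b) (C.cl A hA p) (C.cl A hA (p * y)) := by
      intro y hy
      induction hy using Subgroup.closure_induction with
      | mem y hy =>
        intro p
        rcases hy with hy | hy
        · have : C.cl A hA p = C.cl A hA (p * y) := by
            rw [C.cl_eq, inv_mul_cancel_left]; exact hy
          rw [← this]
          exact Relation.EqvGen.refl _
        · have hy' : y = b := hy
          subst hy'
          exact Relation.EqvGen.rel _ _ ⟨(show C.Edg hD hA hb from p), rfl, rfl⟩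
      | one => intro p; rw [mul_one]; exact Relation.EqvGen.refl _
      | mul x y _ _ hx hy =>
        intro p
        have := (hx p).trans _ _ _ (hy (p * x))
        rwa [mul_assoc] at this
      | inv x _ hx =>
        intro p
        have := (hx (p * x⁻¹)).symm
        rwa [inv_mul_cancel_right] at this
    have h5 := key (p⁻¹ * p') (hAB ▸ hv) p
    rwa [mul_inv_cancel_left] at h5

end level

end Pool.Agent.TOR
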