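import Pool.Agent.Helper41_TOR.Lv

/-! The level lemma, assembled; transport along isomorphisms of groups -/

set_option autoImplicit false

namespace Pool.Agent.TOR

open CategoryTheory CategoryTheory.Limits Rep Representation

universe u

section tools

variable {k G G' : Type u} [CommRing k] [Group G] [Group G']

theorem van_of_elt {A : Rep.{u} k G} {n : ℕ} (h : ∀ x : groupHomology A n, x = 0) : Van A n := by
  have : Subsingleton (groupHomology A n) := ⟨fun x y => (h x).trans (h y).symm⟩
  exact ModuleCat.isZero_of_subsingleton _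

/-- invariance under isomorphisms of groups -/
theorem van_equiv (e : G ≃* G') (A : Rep.{u} k G) (B : Rep.{u} k G') (f : A →ₗ[k] B)
    (f' : B →ₗ[k] A) (hf : ∀ g a, f (A.ρ g a) = B.ρ (e g) (f a)) (hff' : ∀ a, f' (f a) = a)
    (hf'f : ∀ b, f (f' b) = b) (n : ℕ) (h : Van B n) : Van A n := by
  refine van_of_elt fun x => ?_
  let F : A ⟶ res e.toMonoidHom B := ofHom ⟨f, fun g => LinearMap.ext fun a => hf g a⟩
  let F' : B ⟶ res e.symm.toMonoidHom A := ofHom ⟨f', fun g => LinearMap.ext fun b => by
    change f' (B.ρ g b) = A.ρ (e.symm g) (f' b)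
    have h1 := hf (e.symm g) (f' b)
    rw [e.apply_symm_apply, hf'f] at h1
    rw [← h1, hff']⟩
  let c : A ⟶ res (e.symm.toMonoidHom.comp e.toMonoidHom) A :=
    ofHom ⟨LinearMap.id, fun g => LinearMap.ext fun a => by
      change A.ρ g a = A.ρ (e.symm (e g)) a
      rw [e.symm_apply_apply]⟩
  have h2 := gI_comp e.toMonoidHom e.symm.toMonoidHom F F' c (fun a => (hff' a).symm) n x
  have h3 : gI (e.symm.toMonoidHom.comp e.toMonoidHom) c n x = x := by
    have h4 := gI_congr (φ := e.symm.toMonoidHom.comp e.toMonoidHom) (ψ := MonoidHom.id G)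
      (fun g => e.symm_apply_apply g) c (𝟙 A) (fun a => rfl) n x
    rw [h4]
    change (groupHomology.map (MonoidHom.id G) (𝟙 A) n).hom x = x
    rw [groupHomology.map_id]
    rfl
  rw [h3, van_elt h (gI e.toMonoidHom F n x), map_zero] at h2
  exact h2.symm

/-- a subgroup of a subgroup -/
theorem van_sub (N : Rep.{u} k G) (H : Subgroup G) (S : Subgroup H) (S' : Subgroup G)
    (hS : ∀ g : H, g ∈ S ↔ (g : G) ∈ S') (hle : S' ≤ H) (q : ℕ)
    (h : Van (res S'.subtype N) q) : Van (res S.subtype (res H.subtype N)) q := by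
  let e : S ≃* S' :=
    { toFun := fun g => ⟨((g : H) : G), (hS _).1 g.2⟩
      invFun := fun g => ⟨⟨g, hle g.2⟩, (hS _).2 g.2⟩
      left_inv := fun _ => rfl
      right_inv := fun _ => rfl
      map_mul' := fun _ _ => rfl }
  exact van_equiv e (res S.subtype (res H.subtype N)) (res S'.subtype N) LinearMap.id
    LinearMap.id (fun g a => rfl) (fun a => rfl) (fun a => rfl) q h

/-- one point -/
theorem van_point (X : Type u) [MulAction G X] [Subsingleton X] (x : X) (N : Rep.{u} k G) (q : ℕ)
    (h : Van (perm X N) q) : Van N q := by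
  have : Nonempty X := ⟨x⟩
  let i : N ⟶ perm X N := ofHom ⟨Finsupp.lsingle x, fun g => LinearMap.ext fun a => by
    change (Finsupp.single x (N.ρ g a) : X →₀ N) = permR X N g (Finsupp.single x a)
    rw [permR_single, Subsingleton.elim (g • x) x]⟩
  refine van_retract i (aug X N) ?_ q h
  refine Rep.hom_ext (DFunLike.ext _ _ fun a => ?_)
  exact aug_single X N x a

end tools

section fox

variable {π : Type u} [Group π]

/-- a finite free basis, ordered -/
structure IsFB {n : ℕ} (b : Fin n → π) : Prop where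
  gen : Subgroup.closure (Set.range b) = ⊤
  ext : ∀ (K : Type u) [Group K] (f : Fin n → K), ∃ φ : π →* K, ∀ i, φ (b i) = f i

/-- the subgroup generated by the first i letters -/
def flg {n : ℕ} (b : Fin n → π) (i : ℕ) : Subgroup π :=
  Subgroup.closure {x | ∃ j : Fin n, (j : ℕ) < i ∧ b j = x}

theorem flg_zero {n : ℕ} (b : Fin n → π) : flg b 0 = ⊥ := by
  unfold flg
  have : {x | ∃ j : Fin n, (j : ℕ) < 0 ∧ b j = x} = ∅ := by
    ext x; simp
  rw [this, Subgroup.closure_empty]

theorem flg_last {n : ℕ} {b : Fin n → π} (hb : IsFB b) : flg b n = ⊤ := by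
  rw [eq_top_iff, ← hb.gen]
  refine Subgroup.closure_mono ?_
  rintro _ ⟨j, rfl⟩
  exact ⟨j, j.2, rfl⟩

theorem flg_mono {n : ℕ} (b : Fin n → π) {i j : ℕ} (h : i ≤ j) : flg b i ≤ flg b j := by
  refine Subgroup.closure_mono ?_
  rintro _ ⟨l, hl, rfl⟩
  exact ⟨l, by omega, rfl⟩

theorem flg_mem {n : ℕ} (b : Fin n → π) (i : Fin n) {j : ℕ} (h : (i : ℕ) < j) : b i ∈ flg b j :=
  Subgroup.subset_closure ⟨i, h, rfl⟩

theorem flg_succ {n : ℕ} (b : Fin n → π) (i : Fin n) :
    flg b (i + 1) = Subgroup.closure ((flg b i : Set π) ∪ {b i}) := by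
  apply le_antisymm
  · refine (Subgroup.closure_le _).2 ?_
    rintro _ ⟨l, hl, rfl⟩
    rcases Nat.lt_succ_iff_lt_or_eq.1 hl with h | h
    · exact Subgroup.subset_closure (Or.inl (flg_mem b l h))
    · have : l = i := Fin.ext h
      subst this
      exact Subgroup.subset_closure (Or.inr rfl)
  · refine (Subgroup.closure_le _).2 ?_
    rintro x (hx | hx)
    · exact flg_mono b (Nat.le_succ _) hx
    · have : x = b i := hx
      rw [this]
      exact flg_mem b i (Nat.lt_succ_self _)

/-- translation action on chains -/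
noncomputable def trn (π : Type u) [Group π] : π →* MulAut (Multiplicative (π →₀ ℤ)) where
  toFun x := AddEquiv.toMultiplicative (Finsupp.domCongr (Equiv.mulLeft x))
  map_one' := by
    ext v y
    simp
    rfl
  map_mul' x y := by
    ext v z
    simp
    rfl

theorem trn_apply (x : π) (v : π →₀ ℤ) :
    trn π x (Multiplicative.ofAdd v) = Multiplicative.ofAdd (Finsupp.mapDomain (x * ·) v) := by
  change Multiplicative.ofAdd (Finsupp.domCongr (Equiv.mulLeft x) v) = _
  rw [Finsupp.domCongr_apply, Finsupp.equivMapDomain_eq_mapDomain]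
  rfl

theorem exists_fox {n : ℕ} {b : Fin n → π} (hb : IsFB b) (i : Fin n) :
    ∃ D : π → (π →₀ ℤ), IsFox (flg b i) (b i) D := by
  classical
  obtain ⟨φ, hφ⟩ := hb.ext (SemidirectProduct (Multiplicative (π →₀ ℤ)) π (trn π)) (fun j =>
    ⟨Multiplicative.ofAdd (if j = i then Finsupp.single 1 1 else 0), b j⟩)
  have hr : ∀ x, (φ x).right = x := by
    intro x
    have hx : x ∈ Subgroup.closure (Set.range b) := by rw [hb.gen]; trivial
    induction hx using Subgroup.closure_induction with
    | mem x hx => obtain ⟨j, rfl⟩ := hx; rw [hφ]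
    | one => rw [map_one]; rfl
    | mul x y _ _ hx hy => rw [map_mul, SemidirectProduct.mul_right, hx, hy]
    | inv x _ hx => rw [map_inv, SemidirectProduct.inv_right, hx]
  let D : π → (π →₀ ℤ) := fun x => Multiplicative.toAdd (φ x).left
  have hmul : ∀ x y, D (x * y) = D x + Finsupp.mapDomain (x * ·) (D y) := by
    intro x y
    change Multiplicative.toAdd (φ (x * y)).left = _
    rw [map_mul, SemidirectProduct.mul_left, hr]
    have h1 := trn_apply x (D y)
    have h2 : Multiplicative.ofAdd (D y) = (φ y).left := rfl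
    rw [h2] at h1
    rw [h1]
    rfl
  have hone : D 1 = 0 := by
    change Multiplicative.toAdd (φ 1).left = 0
    rw [map_one]; rfl
  have hbj : ∀ j, D (b j) = if j = i then Finsupp.single 1 1 else 0 := by
    intro j
    change Multiplicative.toAdd (φ (b j)).left = _
    rw [hφ]; rfl
  refine ⟨D, hmul, ?_, ?_⟩
  · intro x hx
    unfold flg at hx
    induction hx using Subgroup.closure_induction with
    | mem x hx =>
      obtain ⟨j, hj, rfl⟩ := hx
      rw [hbj, if_neg (fun h => by rw [h] at hj; exact lt_irrefl _ hj)]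
    | one => exact hone
    | mul x y _ _ hx hy => rw [hmul, hx, hy, Finsupp.mapDomain_zero, add_zero]
    | inv x _ hx =>
      have h1 := hmul x x⁻¹
      rw [mul_inv_cancel, hone, hx, zero_add] at h1
      have h2 : Function.Injective (Finsupp.mapDomain (M := ℤ) (fun y : π => x * y)) :=
        Finsupp.mapDomain_injective (mul_right_injective x)
      apply h2
      rw [← h1, Finsupp.mapDomain_zero]
  · rw [hbj, if_pos rfl]

end fox

section level

variable {k H π : Type u} [CommRing k] [Group H] [Group π]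

/-- stability of the flag -/
theorem Crs.flg_stb (C : Crs H π) {n : ℕ} (b : Fin n → π)
    (hα : ∀ i : Fin n, C.Mvs (flg b i) (b i)) (i : ℕ) : C.Stb (flg b i) := by
  intro h x hx
  unfold flg at hx
  induction hx using Subgroup.closure_induction with
  | mem x hx =>
    obtain ⟨j, hj, rfl⟩ := hx
    obtain ⟨u, hu, u', hu', e⟩ := hα j h
    rw [e]
    exact mul_mem (mul_mem (flg_mono b hj.le hu) (flg_mem b j hj)) (flg_mono b hj.le hu')
  | one => rw [map_one]; exact one_mem _
  | mul x y _ _ hx hy => rw [map_mul]; exact mul_mem hx hy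
  | inv x _ hx => rw [map_inv]; exact inv_mem hx

/-- LEVEL LEMMA -/
theorem level_van (C : Crs H π) {n : ℕ} {b : Fin n → π} (hb : IsFB b)
    (hα : ∀ i : Fin n, C.Mvs (flg b i) (b i)) (N : Rep.{u} k H)
    (hpt : ∀ q, Van (perm (C.Cos (flg b 0) (C.flg_stb b hα 0)) N) q)
    (hedge : ∀ (i : Fin n) (D : π → (π →₀ ℤ)) (hD : IsFox (flg b i) (b i) D), ∀ q,
      Van (perm (C.Edg hD (C.flg_stb b hα i) (hα i)) N) q) (q : ℕ) : Van N q := by
  have key : ∀ i, i ≤ n → ∀ q, Van (perm (C.Cos (flg b i) (C.flg_stb b hα i)) N) q := by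
    intro i
    induction i with
    | zero => intro _; exact hpt
    | succ i ih =>
      intro hi
      let ii : Fin n := ⟨i, by omega⟩
      obtain ⟨D, hD⟩ := exists_fox hb ii
      exact level_step C hD (C.flg_stb b hα i) (C.flg_stb b hα (i + 1)) (hα ii) (flg_succ b ii) N
        (hedge ii D hD) (ih (by omega))
  have hss : Subsingleton (C.Cos (flg b n) (C.flg_stb b hα n)) := by
    constructor
    intro x y
    obtain ⟨p, rfl⟩ := C.cl_surj _ _ x
    obtain ⟨p', rfl⟩ := C.cl_surj _ _ y
    rw [C.cl_eq, flg_last hb]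
    trivial
  exact van_point _ (C.cl (flg b n) (C.flg_stb b hα n) 1) N q (key n le_rfl q)

end level

end Pool.Agent.TOR
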