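import Pool.Agent.Helper41_TOR.Ps2

set_option autoImplicit false

namespace Pool.Agent.TOR

open CategoryTheory CategoryTheory.Limits Rep Representation

universe u

variable {k G : Type u} [CommRing k] [Group G]

/-- augmentation of the permutation module -/
noncomputable def aug (X : Type u) [MulAction G X] (A : Rep.{u} k G) : perm X A ⟶ A :=
  ofHom ⟨Finsupp.lsum k (fun _ => LinearMap.id), fun g => by
    refine Finsupp.lhom_ext fun x a => ?_
    change Finsupp.lsum k (fun _ => LinearMap.id) (permR X A g (Finsupp.single x a)) =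
      A.ρ g (Finsupp.lsum k (fun _ => LinearMap.id) (Finsupp.single x a))
    rw [permR_single, Finsupp.lsum_single, Finsupp.lsum_single]
    rfl⟩

theorem aug_single (X : Type u) [MulAction G X] (A : Rep.{u} k G) (x : X) (a : A) :
    (aug X A).hom (Finsupp.single x a) = a := by
  change Finsupp.lsum k (fun _ => LinearMap.id) (Finsupp.single x a) = a
  rw [Finsupp.lsum_single]; rfl

instance aug_epi (X : Type u) [MulAction G X] [Nonempty X] (A : Rep.{u} k G) : Epi (aug X A) := by
  refine (Rep.epi_iff_surjective _).2 fun a => ?_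
  obtain ⟨x⟩ := ‹Nonempty X›
  exact ⟨Finsupp.single x a, aug_single X A x a⟩

/-- 0 → K → k[G/Z] ⊗ A → A → 0 -/
noncomputable def sesZ (Z : Subgroup G) (A : Rep.{u} k G) : ShortComplex (Rep.{u} k G) :=
  ShortComplex.mk (kernel.ι (aug (G ⧸ Z) A)) (aug (G ⧸ Z) A) (kernel.condition _)

theorem sesZ_exact (Z : Subgroup G) (A : Rep.{u} k G) : (sesZ Z A).ShortExact where
  exact := ShortComplex.exact_kernel _
  mono_f := by dsimp [sesZ]; infer_instance
  epi_g := by dsimp [sesZ]; infer_instance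

theorem van_permZ (Z : Subgroup G) (A : Rep.{u} k G) (n : ℕ) (h : Van (res Z.subtype A) n) :
    Van (perm (G ⧸ Z) A) n := by
  refine van_perm _ A n fun x => ?_
  induction x using Quotient.inductionOn' with
  | h g =>
    refine ⟨g⁻¹, ?_⟩
    have h1 : g⁻¹ • ((g : G) : G ⧸ Z) = ((1 : G) : G ⧸ Z) := by
      change ((g⁻¹ * g : G) : G ⧸ Z) = _
      rw [inv_mul_cancel]
    have h2 : MulAction.stabilizer G (g⁻¹ • ((g : G) : G ⧸ Z)) = Z := by
      rw [h1, MulAction.stabilizer_quotient]
    change Van (res (MulAction.stabilizer G (g⁻¹ • ((g : G) : G ⧸ Z))).subtype A) n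
    rw [h2]
    exact h

/-- P acts trivially on G/Z when P is normal and contained in Z -/
theorem triv_act (P Z : Subgroup G) [P.Normal] (hPZ : P ≤ Z) (g : G) (hg : g ∈ P) (x : G ⧸ Z) :
    g • x = x := by
  induction x using Quotient.inductionOn' with
  | h y =>
    change ((g * y : G) : G ⧸ Z) = ((y : G) : G ⧸ Z)
    rw [QuotientGroup.eq]
    apply hPZ
    have := ‹P.Normal›.conj_mem g⁻¹ (P.inv_mem hg) y⁻¹
    simpa [mul_assoc] using this

theorem van_permP (P Z : Subgroup G) [P.Normal] (hPZ : P ≤ Z) (A : Rep.{u} k G) (n : ℕ)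
    (h : Van (res P.subtype A) n) : Van (res P.subtype (perm (G ⧸ Z) A)) n := by
  classical
  refine van_family _ n (fun _ : G ⧸ Z => res P.subtype A)
    (fun x => ofHom ⟨Finsupp.lapply x, fun g => ?_⟩)
    (fun x => ofHom ⟨Finsupp.lsingle x, fun g => ?_⟩) (fun _ => h) ?_
  · refine Finsupp.lhom_ext fun y a => ?_
    change (permR (G ⧸ Z) A g (Finsupp.single y a)) x = A.ρ g ((Finsupp.single y a : _ →₀ A) x)
    rw [permR_single, triv_act P Z hPZ g g.2 y]
    by_cases hxy : y = x
    · subst hxy; simp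
    · rw [Finsupp.single_eq_of_ne' hxy, Finsupp.single_eq_of_ne' hxy, map_zero]
  · ext a : 1
    change Finsupp.single x (A.ρ g a) = permR (G ⧸ Z) A g (Finsupp.single x a)
    rw [permR_single, triv_act P Z hPZ g g.2 x]
  · intro s
    refine ⟨s.biUnion fun f => Finsupp.support (show (G ⧸ Z) →₀ A from f), ?_⟩
    intro f hf
    have h1 : ∀ x ∈ s.biUnion (fun f => Finsupp.support (show (G ⧸ Z) →₀ A from f)),
        x ∉ Finsupp.support (show (G ⧸ Z) →₀ A from f) →
        (Finsupp.single x ((show (G ⧸ Z) →₀ A from f) x) : (G ⧸ Z) →₀ A) = 0 := by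
      intro x _ hx
      rw [Finsupp.notMem_support_iff.1 hx, Finsupp.single_zero]
    have h2 := Finset.sum_subset (Finset.subset_biUnion_of_mem
      (fun f => Finsupp.support (show (G ⧸ Z) →₀ A from f)) hf) h1
    exact h2.symm.trans (Finsupp.sum_single _)

/-- the P-equivariant section a ↦ [Z] ⊗ a -/
noncomputable def secP (P Z : Subgroup G) (hPZ : P ≤ Z) (A : Rep.{u} k G) :
    res P.subtype A ⟶ res P.subtype (perm (G ⧸ Z) A) :=
  ofHom ⟨Finsupp.lsingle ((1 : G) : G ⧸ Z), fun g => by
    ext a : 1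
    change Finsupp.single _ (A.ρ g a) = permR (G ⧸ Z) A g (Finsupp.single _ a)
    rw [permR_single]
    congr 1
    change ((1 : G) : G ⧸ Z) = ((g * 1 : G) : G ⧸ Z)
    rw [QuotientGroup.eq]
    simpa using hPZ g.2⟩

theorem van_kerP (P Z : Subgroup G) [P.Normal] (hPZ : P ≤ Z) (A : Rep.{u} k G) (n : ℕ)
    (h : Van (res P.subtype A) n) : Van (res P.subtype (kernel (aug (G ⧸ Z) A))) n := by
  let X := (sesZ Z A).map (resFunctor.{u} P.subtype)
  have hXs : X.ShortExact := (Rep.shortExact_res P.subtype).2 (sesZ_exact Z A)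
  have hX : X.Exact := hXs.exact
  have hm : Mono X.f := hXs.mono_f
  have hs : secP P Z hPZ A ≫ X.g = 𝟙 _ := by
    ext a
    exact aug_single (G ⧸ Z) A _ a
  let sp := ShortComplex.Splitting.ofExactOfSection X hX (secP P Z hPZ A) hs hm
  exact van_retract X.f sp.r sp.f_r n (van_permP P Z hPZ A n h)

theorem L_of_N (P Z : Subgroup G) [P.Normal] (hPZ : P ≤ Z) (q : ℕ)
    (hN : ∀ m < q, ∀ A : Rep.{u} k G, (∀ b ≤ m, Van (res P.subtype A) b) → Van A m)
    (A : Rep.{u} k G) (hP : ∀ b < q, Van (res P.subtype A) b) (hZ : Van (res Z.subtype A) q) :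
    Van A q := by
  have hF := van_permZ Z A q hZ
  rcases q with _ | n
  · exact van_zero_of_epi (aug (G ⧸ Z) A) hF
  · refine van_right_succ (sesZ_exact Z A) n hF ?_
    exact hN n (Nat.lt_succ_self n) _ fun b hb => van_kerP P Z hPZ A b (hP b (by omega))

/-- normal subgroup lemma -/
theorem van_normal (P : Subgroup G) [P.Normal] (q : ℕ) : ∀ (A : Rep.{u} k G)
    (_ : ∀ b ≤ q, Van (res P.subtype A) b), Van A q := by
  induction q using Nat.strong_induction_on with
  | _ q ih =>
    intro A hA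
    exact L_of_N P P le_rfl q (fun m hm A' h' => ih m hm A' h') A
      (fun b hb => hA b hb.le) (hA q le_rfl)

/-- Lemma L -/
theorem van_L (P Z : Subgroup G) [P.Normal] (hPZ : P ≤ Z) (q : ℕ) (A : Rep.{u} k G)
    (hP : ∀ b < q, Van (res P.subtype A) b) (hZ : Van (res Z.subtype A) q) : Van A q :=
  L_of_N P Z hPZ q (fun m _ A' h' => van_normal P m A' h') A hP hZ

end Pool.Agent.TOR
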