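import Pool.Agent.Helper41_TOR.Hl

set_option autoImplicit false

namespace Pool.Agent.TOR

open CategoryTheory CategoryTheory.Limits Rep

universe u

variable {k G : Type u} [CommRing k] [Group G]

theorem chainsMap_add {A B : Rep.{u} k G} (f g : A ⟶ B) :
    groupHomology.chainsMap (MonoidHom.id G) (B := B) (f + g) =
      groupHomology.chainsMap (MonoidHom.id G) f + groupHomology.chainsMap (MonoidHom.id G) g := by
  ext i x a y
  have h1 : (f + g).hom a = f.hom a + g.hom a := rfl
  simp [h1]

theorem hmap_add {A B : Rep.{u} k G} (f g : A ⟶ B) (n : ℕ) :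
    groupHomology.map (MonoidHom.id G) (B := B) (f + g) n =
      groupHomology.map (MonoidHom.id G) f n + groupHomology.map (MonoidHom.id G) g n := by
  rw [groupHomology.map, chainsMap_add, HomologicalComplex.homologyMap_add]
  rfl

theorem hmap_zero {A B : Rep.{u} k G} (n : ℕ) :
    groupHomology.map (MonoidHom.id G) (B := B) (0 : A ⟶ B) n = 0 := by
  rw [groupHomology.map, groupHomology.chainsMap_zero, HomologicalComplex.homologyMap_zero]
  rfl

theorem hmap_sum {A B : Rep.{u} k G} {ι : Type*} (s : Finset ι) (f : ι → (A ⟶ B)) (n : ℕ) :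
    groupHomology.map (MonoidHom.id G) (B := B) (∑ x ∈ s, f x) n =
      ∑ x ∈ s, groupHomology.map (MonoidHom.id G) (f x) n := by
  classical
  induction s using Finset.induction_on with
  | empty => rw [Finset.sum_empty, Finset.sum_empty]; exact hmap_zero n
  | insert a s ha ih => rw [Finset.sum_insert ha, Finset.sum_insert ha, hmap_add, ih]

/-- DS': endomorphisms which fix finitely many vectors and act by zero on homology. -/
theorem van_local (A : Rep.{u} k G) (n : ℕ)
    (h : ∀ s : Finset A, ∃ e : A ⟶ A, (∀ a ∈ s, e.hom a = a) ∧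
      groupHomology.map (MonoidHom.id G) e n = 0) : Van A n := by
  classical
  refine (IsZero.iff_id_eq_zero _).2 ?_
  ext y
  induction y using groupHomology_induction_on with
  | h c =>
    set f := groupHomology.iCycles A n c with hf
    obtain ⟨e, he, h0⟩ := h (Finset.image (fun g => (show (Fin n → G) →₀ A from f) g)
      (Finsupp.support (show (Fin n → G) →₀ A from f)))
    have h1 : (groupHomology.chainsMap (MonoidHom.id G) e).f n f = f := by
      change ((groupHomology.chainsMap (MonoidHom.id G) e).f n).hom f = f
      rw [groupHomology.chainsMap_id_f_hom_eq_mapRange]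
      refine Finsupp.ext fun g => ?_
      change e.hom ((show (Fin n → G) →₀ A from f) g) = (show (Fin n → G) →₀ A from f) g
      by_cases hg : (show (Fin n → G) →₀ A from f) g = 0
      · rw [hg, map_zero]
      · exact he _ (Finset.mem_image_of_mem _ (Finsupp.mem_support_iff.2 hg))
    have h2 : groupHomology.cyclesMap (MonoidHom.id G) e n c = c := by
      have hm : Function.Injective (groupHomology.iCycles A n) :=
        (ModuleCat.mono_iff_injective _).1 inferInstance
      apply hm
      have h4 := ConcreteCategory.congr_hom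
        (HomologicalComplex.cyclesMap_i (groupHomology.chainsMap (MonoidHom.id G) e) n) c
      exact h4.trans h1
    have h3 := groupHomology.π_map_apply (MonoidHom.id G) e n c
    rw [h2, h0] at h3
    simpa using h3.symm

theorem hmap_factor {A B : Rep.{u} k G} (p : A ⟶ B) (i : B ⟶ A) (n : ℕ) (hB : Van B n) :
    groupHomology.map (MonoidHom.id G) (A := A) (B := A) (p ≫ i) n = 0 := by
  rw [groupHomology.map_id_comp]
  have : groupHomology.map (MonoidHom.id G) p n = 0 := hB.eq_of_tgt _ _
  rw [this, zero_comp]

/-- DS'': locally finite decompositions. -/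
theorem van_family (A : Rep.{u} k G) (n : ℕ) {ι : Type u} (B : ι → Rep.{u} k G)
    (p : ∀ x, A ⟶ B x) (i : ∀ x, B x ⟶ A) (hB : ∀ x, Van (B x) n)
    (h : ∀ s : Finset A, ∃ F : Finset ι, ∀ a ∈ s, ∑ x ∈ F, (i x).hom ((p x).hom a) = a) :
    Van A n := by
  refine van_local A n fun s => ?_
  obtain ⟨F, hF⟩ := h s
  refine ⟨∑ x ∈ F, p x ≫ i x, ?_, ?_⟩
  · intro a ha
    have h1 : ∀ F : Finset ι, (∑ x ∈ F, p x ≫ i x : A ⟶ A).hom a =
        ∑ x ∈ F, (i x).hom ((p x).hom a) := by
      classical
      intro F
      induction F using Finset.induction_on with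
      | empty => rw [Finset.sum_empty, Finset.sum_empty]; rfl
      | insert b t hb ih =>
        rw [Finset.sum_insert hb, Finset.sum_insert hb, ← ih]; rfl
    rw [h1, hF a ha]
  · rw [hmap_sum]
    exact Finset.sum_eq_zero fun x _ => hmap_factor _ _ _ (hB x)

/-- The permutation module of a G-set X with coefficients in A (diagonal action). -/
noncomputable def permR (X : Type u) [MulAction G X] (A : Rep.{u} k G) :
    Representation k G (X →₀ A) where
  toFun g := Finsupp.lmapDomain A k (g • ·) ∘ₗ Finsupp.mapRange.linearMap (A.ρ g)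
  map_one' := by ext x a : 2; simp
  map_mul' g h := by ext x a : 2; simp [mul_smul]

/-- The permutation module of a G-set X with coefficients in A (diagonal action). -/
noncomputable def perm (X : Type u) [MulAction G X] (A : Rep.{u} k G) : Rep.{u} k G :=
  Rep.of (permR X A)

theorem permR_single (X : Type u) [MulAction G X] (A : Rep.{u} k G) (g : G) (x : X) (a : A) :
    permR X A g (Finsupp.single x a) = Finsupp.single (g • x) (A.ρ g a) := by
  simp [permR]

end Pool.Agent.TOR
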