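import Pool.Agent.Helper41_TOR.Ps

set_option autoImplicit false

namespace Pool.Agent.TOR

open CategoryTheory CategoryTheory.Limits Rep Representation

universe u

variable {k G : Type u} [CommRing k] [Group G]

theorem indmk_smul (S : Subgroup G) (A : Rep.{u} k G) (s : S) (h : G) (a : A) :
    IndV.mk S.subtype (res S.subtype A).ρ ((s : G) * h) (A.ρ s a) =
      IndV.mk S.subtype (res S.subtype A).ρ h a := by
  refine (Coinvariants.mk_eq_iff _).2 ?_
  have := Coinvariants.sub_mem_ker (ρ := Representation.tprod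
    ((Representation.leftRegular k G).comp S.subtype)
    (res S.subtype A).ρ) s ((MonoidAlgebra.single h (1 : k)) ⊗ₜ[k] a)
  simpa using this

variable (X : Type u) [MulAction G X] (A : Rep.{u} k G) (x₀ : X)

/-- the local component of the projection -/
noncomputable def loc (x : X) : A →ₗ[k] IndV (MulAction.stabilizer G x₀).subtype
    (res (MulAction.stabilizer G x₀).subtype A).ρ := by
  classical
  exact if hx : ∃ h : G, h⁻¹ • x₀ = x then
    IndV.mk _ _ (Classical.choose hx) ∘ₗ A.ρ (Classical.choose hx) else 0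

theorem loc_eq (x : X) (h : G) (hx : h⁻¹ • x₀ = x) (a : A) :
    loc X A x₀ x a = IndV.mk (MulAction.stabilizer G x₀).subtype
      (res (MulAction.stabilizer G x₀).subtype A).ρ h (A.ρ h a) := by
  have hx' : ∃ h : G, h⁻¹ • x₀ = x := ⟨h, hx⟩
  unfold loc
  rw [dif_pos hx']
  set c := Classical.choose hx' with hc
  have hc' : c⁻¹ • x₀ = x := Classical.choose_spec hx'
  have hs : c * h⁻¹ ∈ MulAction.stabilizer G x₀ := by
    rw [MulAction.mem_stabilizer_iff, mul_smul, hx, ← hc', smul_inv_smul]
  have h1 := indmk_smul (MulAction.stabilizer G x₀) A ⟨c * h⁻¹, hs⟩ h (A.ρ h a)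
  refine Eq.trans ?_ h1
  have h2 : A.ρ (c * h⁻¹) (A.ρ h a) = A.ρ c a := by
    rw [← Module.End.mul_apply, ← map_mul, inv_mul_cancel_right]
  have h3 : c * h⁻¹ * h = c := inv_mul_cancel_right _ _
  change IndV.mk _ _ c (A.ρ c a) = IndV.mk _ _ (c * h⁻¹ * h) (A.ρ (c * h⁻¹) (A.ρ h a))
  rw [h2, h3]

theorem loc_zero (x : X) (hx : ¬ ∃ h : G, h⁻¹ • x₀ = x) : loc X A x₀ x = 0 := by
  unfold loc
  rw [dif_neg hx]

/-- projection to the orbit of x₀ -/
noncomputable def pOrb : perm X A ⟶ ind (MulAction.stabilizer G x₀).subtype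
    (res (MulAction.stabilizer G x₀).subtype A) :=
  ofHom ⟨Finsupp.lsum k (loc X A x₀), fun g => by
    refine Finsupp.lhom_ext fun x a => ?_
    change Finsupp.lsum k (loc X A x₀) (permR X A g (Finsupp.single x a)) =
      (Representation.ind _ _) g (Finsupp.lsum k (loc X A x₀) (Finsupp.single x a))
    rw [permR_single, Finsupp.lsum_single, Finsupp.lsum_single]
    by_cases hx : ∃ h : G, h⁻¹ • x₀ = x
    · obtain ⟨h, hh⟩ := hx
      rw [loc_eq X A x₀ x h hh, ind_mk, loc_eq X A x₀ (g • x) (h * g⁻¹) (by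
        rw [mul_inv_rev, inv_inv, mul_smul, hh])]
      congr 1
      rw [← Module.End.mul_apply, ← map_mul, inv_mul_cancel_right]
    · rw [loc_zero X A x₀ x hx, loc_zero X A x₀ (g • x)]
      · simp
      · rintro ⟨h, hh⟩
        exact hx ⟨h * g, by rw [mul_inv_rev, mul_smul, hh, inv_smul_smul]⟩⟩

theorem pOrb_single (x : X) (a : A) : (pOrb X A x₀).hom (Finsupp.single x a) = loc X A x₀ x a := by
  change Finsupp.lsum k (loc X A x₀) (Finsupp.single x a) = _
  simp

/-- inclusion of the orbit of x₀ -/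
noncomputable def iOrb : ind (MulAction.stabilizer G x₀).subtype
    (res (MulAction.stabilizer G x₀).subtype A) ⟶ perm X A :=
  (indResHomEquiv (MulAction.stabilizer G x₀).subtype
    (res (MulAction.stabilizer G x₀).subtype A) (perm X A)).symm
    (ofHom ⟨Finsupp.lsingle x₀, fun s => by
      ext a : 1
      change Finsupp.single x₀ (A.ρ s a) = permR X A s (Finsupp.single x₀ a)
      rw [permR_single, MulAction.mem_stabilizer_iff.1 s.2]⟩)

theorem iOrb_mk (h : G) (a : A) :
    (iOrb X A x₀).hom (IndV.mk _ _ h a) = Finsupp.single (h⁻¹ • x₀) (A.ρ h⁻¹ a) := by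
  have h1 : (iOrb X A x₀).hom (IndV.mk _ _ h a) = permR X A h⁻¹ (Finsupp.single x₀ a) := by
    simp [iOrb]
    rfl
  rw [h1, permR_single]

open Classical in
theorem iOrb_pOrb_single (x : X) (a : A) :
    (iOrb X A x₀).hom ((pOrb X A x₀).hom (Finsupp.single x a)) =
      if x ∈ MulAction.orbit G x₀ then Finsupp.single x a else 0 := by
  rw [pOrb_single]
  by_cases hx : ∃ h : G, h⁻¹ • x₀ = x
  · obtain ⟨h, hh⟩ := hx
    rw [loc_eq X A x₀ x h hh, iOrb_mk, if_pos ⟨h⁻¹, hh⟩, hh, ← Module.End.mul_apply, ← map_mul,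
      inv_mul_cancel, map_one]
    rfl
  · rw [loc_zero X A x₀ x hx, if_neg]
    · exact map_zero (iOrb X A x₀).hom
    · rintro ⟨h, hh⟩
      exact hx ⟨h⁻¹, by simpa using hh⟩

/-- Shapiro for G-sets: if every orbit contains a point whose stabiliser kills A, then the
permutation module has vanishing homology. -/
theorem van_perm (n : ℕ) (h : ∀ x : X, ∃ g : G,
    Van (res (MulAction.stabilizer G (g • x)).subtype A) n) : Van (perm X A) n := by
  classical
  let rep : Quotient (MulAction.orbitRel G X) → X := fun o =>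
    (Classical.choose (h o.out)) • o.out
  have hrep : ∀ o, Van (res (MulAction.stabilizer G (rep o)).subtype A) n := fun o =>
    Classical.choose_spec (h o.out)
  have hmem : ∀ o x, x ∈ MulAction.orbit G (rep o) ↔ Quotient.mk'' x = o := by
    intro o x
    have h1 : MulAction.orbit G (rep o) = MulAction.orbit G o.out := MulAction.orbit_smul _ _
    rw [h1]
    constructor
    · intro hx
      rw [← Quotient.out_eq' o]
      exact Quotient.sound' hx
    · rintro rfl
      exact (MulAction.orbitRel_apply).1 (Quotient.exact' (Quotient.out_eq' _).symm)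
  refine van_family (perm X A) n (fun o => ind (MulAction.stabilizer G (rep o)).subtype
    (res (MulAction.stabilizer G (rep o)).subtype A)) (fun o => pOrb X A (rep o))
    (fun o => iOrb X A (rep o)) (fun o => (hrep o).of_iso (groupHomology.indIso _ _ _)) ?_
  intro s
  let mkO : X → Quotient (MulAction.orbitRel G X) := Quotient.mk''
  refine ⟨s.biUnion fun f => (Finsupp.support (show X →₀ A from f)).image mkO, ?_⟩
  intro f hf
  set F : Finset (Quotient (MulAction.orbitRel G X)) :=
    s.biUnion fun f => (Finsupp.support (show X →₀ A from f)).image mkO with hF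
  have hlin : ∀ (t : Finset X) (v : X → A), (∑ o ∈ F, (iOrb X A (rep o)).hom
      ((pOrb X A (rep o)).hom (∑ x ∈ t, Finsupp.single x (v x) : X →₀ A))) =
      ∑ x ∈ t, ∑ o ∈ F, (iOrb X A (rep o)).hom ((pOrb X A (rep o)).hom
        (Finsupp.single x (v x) : X →₀ A)) := by
    intro t v
    rw [Finset.sum_comm]
    refine Finset.sum_congr rfl fun o _ => ?_
    have e1 : (pOrb X A (rep o)).hom (∑ x ∈ t, Finsupp.single x (v x) : X →₀ A) =
        ∑ x ∈ t, (pOrb X A (rep o)).hom (Finsupp.single x (v x) : X →₀ A) :=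
      map_sum (pOrb X A (rep o)).hom _ _
    rw [e1]
    exact map_sum (iOrb X A (rep o)).hom _ _
  have hf1 : (show X →₀ A from f) = ∑ x ∈ (show X →₀ A from f).support,
      Finsupp.single x ((show X →₀ A from f) x) := (Finsupp.sum_single _).symm
  have h2 := hlin (show X →₀ A from f).support (fun x => (show X →₀ A from f) x)
  rw [← hf1] at h2
  refine h2.trans ?_
  refine Eq.trans ?_ hf1.symm
  refine Finset.sum_congr rfl fun x hx => ?_
  rw [Finset.sum_eq_single_of_mem (mkO x)]
  · rw [iOrb_pOrb_single, if_pos ((hmem _ _).2 rfl)]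
  · rw [hF, Finset.mem_biUnion]
    exact ⟨f, hf, Finset.mem_image_of_mem _ hx⟩
  · intro o _ ho
    refine (iOrb_pOrb_single X A (rep o) x _).trans (if_neg ?_)
    rw [hmem]
    exact fun h => ho h.symm

end Pool.Agent.TOR
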