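import Pool.Agent.Helper59_TOR.Std
import Pool.Agent.Helper58_TOR.Fr2

/-! TOR part (a), module STD: stabilisers of handles -/

set_option autoImplicit false

namespace Pool.Agent.TOR.H41

open Pool.Agent.TOR.H58 Pool.Agent.TOR.H59
open scoped Pointwise

section gen

variable {α β : Type} [DecidableEq α] [DecidableEq β]

theorem Dl_range (e : β → α) (l : α × Bool) (hl : ∀ b, e b ≠ l.1) (x : FreeGroup β) :
    H58.Dl (FreeGroup.map e x) (Wp [l]) = ∅ := by
  induction x using FreeGroup.induction_on with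
  | C1 => rw [map_one]; exact Dl_one _
  | of b => rw [FreeGroup.map.of]; exact Dl_Wp_empty l (e b) (fun h => hl b h.symm)
  | inv_of b h =>
    rw [map_inv]
    refine Set.subset_empty_iff.mp ((Dl_inv _ _).trans ?_)
    rw [h]; simp
  | mul x y hx hy =>
    rw [map_mul]
    refine Set.subset_empty_iff.mp ((Dl_mul _ _ _).trans ?_)
    rw [hx, hy]; simp

theorem mem_range_of_letters (e : β → α) : ∀ L : List (α × Bool), (∀ l ∈ L, ∃ b, e b = l.1) →
    ∃ h : FreeGroup β, FreeGroup.map e h = FreeGroup.mk L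
  | [], _ => ⟨1, by rw [map_one, FreeGroup.one_eq_mk]⟩
  | l :: L, hL => by
    obtain ⟨h, hh⟩ := mem_range_of_letters e L (fun l' hl' => hL l' (List.mem_cons_of_mem _ hl'))
    obtain ⟨b, hb⟩ := hL l List.mem_cons_self
    refine ⟨FreeGroup.mk [(b, l.2)] * h, ?_⟩
    rw [map_mul, hh, FreeGroup.map.mk, FreeGroup.mul_mk]
    simp [hb]

/-- an automorphism fixing the boundary word of a free factor satisfying rigidity preserves the
free factor. -/
theorem std_gen (e : β → α) (he : Function.Injective e) (φ : MulAut (FreeGroup α))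
    (ζ' : FreeGroup β) (hφ : φ (FreeGroup.map e ζ') = FreeGroup.map e ζ')
    (rig : ∀ X : Set (FreeGroup β), H59.AI X → (∀ g, g ∈ X ↔ g * ζ' ∈ X) →
      ∀ g h, g ∈ X ↔ h ∈ X) (g : FreeGroup β) :
    ∃ h : FreeGroup β, φ (FreeGroup.map e g) = FreeGroup.map e h := by
  have hinj : Function.Injective (fun g : FreeGroup β => φ (FreeGroup.map e g)) :=
    φ.injective.comp (FreeGroup.map_injective he)
  have key : ∀ (a : FreeGroup β) (l : α × Bool), (∀ b, e b ≠ l.1) →
      φ (FreeGroup.map e g) ∉ FreeGroup.map e a • Wp [l] := by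
    intro a l hl
    let X : Set (FreeGroup β) := {g | φ (FreeGroup.map e g) ∈ FreeGroup.map e a • Wp [l]}
    have hA : H58.AI (FreeGroup.map e a • Wp [l]) := (ai_Wp l).smul _
    have hX1 : H59.AI X := by
      intro s
      have h1 := hA (φ (FreeGroup.map e s))
      refine (h1.preimage (f := fun g : FreeGroup β => φ (FreeGroup.map e g))
        hinj.injOn).subset ?_
      intro x hx
      change ¬ (φ (FreeGroup.map e x) * φ (FreeGroup.map e s) ∈ _ ↔ _)
      have hx' : ¬ (φ (FreeGroup.map e x) ∈ FreeGroup.map e a • Wp [l] ↔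
        φ (FreeGroup.map e (x * s)) ∈ FreeGroup.map e a • Wp [l]) := hx
      rw [map_mul, map_mul] at hx'
      exact fun h => hx' h.symm
    have hX2 : ∀ g, g ∈ X ↔ g * ζ' ∈ X := by
      intro g
      change φ (FreeGroup.map e g) ∈ FreeGroup.map e a • Wp [l] ↔
        φ (FreeGroup.map e (g * ζ')) ∈ FreeGroup.map e a • Wp [l]
      rw [map_mul, map_mul, hφ]
      have h2 : H58.Dl (FreeGroup.map e ζ') (FreeGroup.map e a • Wp [l]) = ∅ := by
        rw [Dl_smul, Dl_range e l hl, Set.smul_set_empty]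
      have h3 : φ (FreeGroup.map e g) ∉ H58.Dl (FreeGroup.map e ζ')
        (FreeGroup.map e a • Wp [l]) := by rw [h2]; exact Set.notMem_empty _
      simp only [H58.Dl, Set.mem_ofPred_eq, not_not] at h3
      exact h3.symm
    have h4 := rig X hX1 hX2 g 1
    intro h5
    have h6 : (1 : FreeGroup β) ∈ X := h4.1 h5
    have h7 : φ (FreeGroup.map e 1) ∈ FreeGroup.map e a • Wp [l] := h6
    rw [map_one, map_one, Set.mem_smul_set_iff_inv_smul_mem, smul_eq_mul, mul_one] at h7
    have h8 : (FreeGroup.map e a)⁻¹ ∉ H58.Dl (FreeGroup.map e a) (Wp [l]) := by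
      rw [Dl_range e l hl]; exact Set.notMem_empty _
    simp only [H58.Dl, Set.mem_ofPred_eq, not_not, inv_mul_cancel] at h8
    exact one_notMem_Wp l (h8.2 h7)
  -- the word of the image
  set u := φ (FreeGroup.map e g) with hu
  by_contra hcon
  have hall : ¬ ∀ l ∈ u.toWord, ∃ b, e b = l.1 := by
    intro h
    obtain ⟨h1, h2⟩ := mem_range_of_letters e u.toWord h
    exact hcon ⟨h1, by rw [h2, FreeGroup.mk_toWord]⟩
  classical
  -- maximal prefix
  have hsplit : ∀ L : List (α × Bool), (¬ ∀ l ∈ L, ∃ b, e b = l.1) →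
      ∃ W l V, L = W ++ l :: V ∧ (∀ l' ∈ W, ∃ b, e b = l'.1) ∧ ∀ b, e b ≠ l.1 := by
    intro L
    induction L with
    | nil => intro h; exact absurd (fun l hl => absurd hl List.not_mem_nil) h
    | cons a L ih =>
      intro h
      by_cases ha : ∃ b, e b = a.1
      · have h1 : ¬ ∀ l ∈ L, ∃ b, e b = l.1 := by
          intro h2
          apply h
          intro l hl
          rcases List.mem_cons.1 hl with h3 | h3
          · rw [h3]; exact ha
          · exact h2 l h3
        obtain ⟨W, l, V, h2, h3, h4⟩ := ih h1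
        refine ⟨a :: W, l, V, by rw [h2]; rfl, ?_, h4⟩
        intro l' hl'
        rcases List.mem_cons.1 hl' with h5 | h5
        · rw [h5]; exact ha
        · exact h3 l' h5
      · push Not at ha
        exact ⟨[], a, L, rfl, fun l' hl' => absurd hl' List.not_mem_nil, ha⟩
  obtain ⟨W, l, V, h1, h2, h3⟩ := hsplit _ hall
  obtain ⟨a, ha⟩ := mem_range_of_letters e W h2
  apply key a l h3
  rw [Set.mem_smul_set_iff_inv_smul_mem, smul_eq_mul, ha]
  have h4 : (FreeGroup.mk W)⁻¹ * u = FreeGroup.mk (l :: V) := by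
    rw [inv_mul_eq_iff_eq_mul, FreeGroup.mul_mk, ← h1, FreeGroup.mk_toWord]
  rw [h4]
  have h5 : FreeGroup.IsReduced (l :: V) := by
    have h6 : FreeGroup.IsReduced (W ++ l :: V) := by rw [← h1]; exact FreeGroup.isReduced_toWord
    exact red_right h6
  change [l] <+: (FreeGroup.mk (l :: V)).toWord
  rw [toWord_mk_of h5]
  exact ⟨V, rfl⟩

end gen

end Pool.Agent.TOR.H41
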