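import Pool.Agent.Helper41_TOR.Ki
import Pool.Agent.Helper57_TOR.Cr5

set_option autoImplicit false

namespace Pool.Agent.TOR

open CategoryTheory CategoryTheory.Limits Rep Representation Pool.Agent.TOR.H57

universe u

variable {k : Type u} [CommRing k]

/-- one stage of T2-stab: cross effect + kill. -/
theorem t2_stage {G G' : Type u} [Group G] [Group G'] {κ : Type} [Fintype κ] [DecidableEq κ]
    (s : Finset κ → (G →* G')) (A : κ → Subgroup G')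
    (h1 : ∀ i j, i ≠ j → ∀ a ∈ A i, ∀ b ∈ A j, a * b = b * a)
    (h2 : ∀ i, ∀ a ∈ A i, ∀ g, s ∅ g * a * (s ∅ g)⁻¹ ∈ A i)
    (h3 : ∀ i g, ∃ a ∈ A i, ∀ J, i ∉ J → s (insert i J) g = a * s J g)
    (N : Rep.{u} k G') (h4 : ∀ i, ∀ a ∈ A i, N.ρ a = 1) (n r : ℕ) (hn : r + n ≤ Fintype.card κ)
    (hnr : n < r)
    (hk : ∀ J : Finset κ, r ≤ J.card → ∃ P : Fin r → Subgroup G',
      (∀ i j, i ≠ j → ∀ x ∈ P i, ∀ y ∈ P j, x * y = y * x) ∧
      (∀ j, ∃ z ∈ P j, ∃ v : k, IsUnit (v - 1) ∧ ∀ a : N, N.ρ z a = v • a) ∧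
      (∀ g j, ∀ x ∈ P j, s J g * x * (s J g)⁻¹ ∈ ⨆ j, P j))
    {B : Rep.{u} k G} (f : B ⟶ res (s ∅) N) (c : groupHomology B n) : gI (s ∅) f n c = 0 := by
  have h5 : ∀ J : Finset κ, r ≤ J.card → hl (s ∅) (s J) N n = 0 := by
    intro J hJ
    obtain ⟨P, hc, hz, hno⟩ := hk J hJ
    by_cases h : ∀ x, N.ρ (s ∅ x) = N.ρ (s J x)
    · rw [hl_eq _ _ _ _ h]
      refine LinearMap.ext fun y => ?_
      exact kill N r P hc hz (s J) hno (idr (s ∅) (s J) N h) n hnr y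
    · unfold hl
      rw [dif_neg h]
  have h6 := cross_descend s A h1 h2 h3 N h4 n r hn h5 ∅
  have h7 : ∀ x, N.ρ (s ∅ x) = N.ρ (s ∅ x) := fun _ => rfl
  rw [hl_eq _ _ _ _ h7] at h6
  let f' : B ⟶ res (s ∅) N := f
  have h8 := hI_gI (s ∅) f' (idr (s ∅) (s ∅) N h7) f (fun a => rfl) n c
  rw [← h8]
  exact DFunLike.congr_fun h6 (hI f' n c)

end Pool.Agent.TOR
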