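import Pool.Agent.Helper41_TOR.Hl

set_option autoImplicit false

namespace Pool.Agent.TOR

open CategoryTheory CategoryTheory.Limits Rep Representation

universe u

section general

variable {k G : Type u} [CommRing k] [Group G]

/-- elementwise exactness from vanishing -/
theorem van_exact (A : Rep.{u} k G) (i : ℕ) (h : Van A i)
    (z : (Fin i → G) →₀ A)
    (hz : (groupHomology.inhomogeneousChains A).d i ((ComplexShape.down ℕ).next i) z = 0) :
    ∃ y : (Fin (i + 1) → G) →₀ A, groupHomology.inhomogeneousChains.d A i y = z := by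
  have h1 : (groupHomology.inhomogeneousChains A).ExactAt i :=
    (HomologicalComplex.exactAt_iff_isZero_homology _ _).2 h
  have hp : (ComplexShape.down ℕ).prev i = i + 1 := by simp
  have h2 := (HomologicalComplex.exactAt_iff' _ (i + 1) i ((ComplexShape.down ℕ).next i)
    hp rfl).1 h1
  rw [ShortComplex.moduleCat_exact_iff] at h2
  obtain ⟨y, hy⟩ := h2 z hz
  refine ⟨y, ?_⟩
  rw [← groupHomology.inhomogeneousChains.d_def]
  exact hy

end general

section torsion

variable {N Γ U : Type} [Group N] [Group Γ] [CommGroup U]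

/-- the rank one representation attached to a character -/
noncomputable def chRep (R : Type) [CommRing R] (u : Γ →* R) : Rep.{0} R Γ :=
  Rep.of ((Algebra.lmul R R).toMonoidHom.comp u : Representation R Γ R)

theorem chRep_apply (R : Type) [CommRing R] (u : Γ →* R) (g : Γ) (r : R) :
    (chRep R u).ρ g r = u g * r := rfl

/-- the character Γ → ℚ[U] -/
noncomputable def uL (deg : Γ →* U) : Γ →* MonoidAlgebra ℚ U :=
  (MonoidAlgebra.of ℚ U).comp deg

theorem uL_apply (deg : Γ →* U) (g : Γ) : uL deg g = MonoidAlgebra.single (deg g) 1 := rfl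

/-- chain level map C(N; ℚ) → C(Γ; R) -/
noncomputable def incC (ι : N →* Γ) (R : Type) [CommRing R] [Algebra ℚ R] (n : ℕ) :
    ((Fin n → N) →₀ ℚ) →+ ((Fin n → Γ) →₀ R) :=
  (Finsupp.mapRange.addMonoidHom (algebraMap ℚ R : ℚ →+ R)).comp
    (Finsupp.mapDomain.addMonoidHom (fun g => ι ∘ g))

theorem incC_single (ι : N →* Γ) (R : Type) [CommRing R] [Algebra ℚ R] (n : ℕ) (g : Fin n → N)
    (q : ℚ) : incC ι R n (Finsupp.single g q) = Finsupp.single (ι ∘ g) (algebraMap ℚ R q) := by
  simp [incC]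

theorem comp_contract (ι : N →* Γ) {n : ℕ} (j : Fin (n + 1)) (g : Fin (n + 1) → N) :
    ι ∘ Fin.contractNth j (· * ·) g = Fin.contractNth j (· * ·) (ι ∘ g) := by
  exact (Fin.comp_contractNth (· * ·) (· * ·) (fun x y => map_mul ι x y) j g)

/-- the differential of C(Γ; R_u), explicit types -/
noncomputable def dch (R : Type) [CommRing R] (u : Γ →* R) (n : ℕ) :
    ((Fin (n + 1) → Γ) →₀ R) →+ ((Fin n → Γ) →₀ R) :=
  (groupHomology.inhomogeneousChains.d (chRep R u) n).hom.toAddMonoidHom

theorem dch_single (R : Type) [CommRing R] (u : Γ →* R) (n : ℕ) (g : Fin (n + 1) → Γ) (r : R) :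
    dch R u n (Finsupp.single g r) = Finsupp.single (fun i => g i.succ) (u (g 0)⁻¹ * r) +
      ∑ j : Fin (n + 1), (-1 : R) ^ ((j : ℕ) + 1) •
        (Finsupp.single (Fin.contractNth j (· * ·) g) r : (Fin n → Γ) →₀ R) :=
  groupHomology.inhomogeneousChains.d_single (A := chRep R u) n g r

/-- the differential of C(N; ℚ), explicit types -/
noncomputable def dN (N : Type) [Group N] (n : ℕ) :
    ((Fin (n + 1) → N) →₀ ℚ) →+ ((Fin n → N) →₀ ℚ) :=
  (groupHomology.inhomogeneousChains.d (Rep.trivial ℚ N ℚ) n).hom.toAddMonoidHom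

theorem dN_single (n : ℕ) (g : Fin (n + 1) → N) (r : ℚ) :
    dN N n (Finsupp.single g r) = Finsupp.single (fun i => g i.succ) r +
      ∑ j : Fin (n + 1), (-1 : ℚ) ^ ((j : ℕ) + 1) •
        (Finsupp.single (Fin.contractNth j (· * ·) g) r : (Fin n → N) →₀ ℚ) :=
  groupHomology.inhomogeneousChains.d_single (A := Rep.trivial ℚ N ℚ) n g r

theorem incC_d (ι : N →* Γ) (R : Type) [CommRing R] [Algebra ℚ R] (u : Γ →* R)
    (hu : ∀ x : N, u (ι x) = 1) (n : ℕ) (c : (Fin (n + 1) → N) →₀ ℚ) :
    incC ι R n (dN N n c) = dch R u n (incC ι R (n + 1) c) := by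
  induction c using Finsupp.induction_linear with
  | zero => simp
  | add f g hf hg => simp only [map_add, hf, hg]
  | single g q =>
    rw [incC_single, dch_single, dN_single, map_add, incC_single, map_sum]
    have h1 : u ((ι ∘ g) 0)⁻¹ = 1 := by
      rw [Function.comp_apply, ← map_inv, hu]
    rw [h1, one_mul]
    congr 1
    refine Finset.sum_congr rfl fun j _ => ?_
    rw [← comp_contract, Finsupp.smul_single, incC_single, Finsupp.smul_single]
    congr 1
    simp

/-- cumulative degree -/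
noncomputable def cum (deg : Γ →* U) {n : ℕ} (g : Fin n → Γ) (j : ℕ) : U :=
  ∏ l : Fin n, if (l : ℕ) < j then deg (g l) else 1

theorem cum_zero (deg : Γ →* U) {n : ℕ} (g : Fin n → Γ) : cum deg g 0 = 1 := by
  simp [cum]

theorem cum_succ (deg : Γ →* U) {n : ℕ} (g : Fin n → Γ) (j : ℕ) (hj : j < n) :
    cum deg g (j + 1) = cum deg g j * deg (g ⟨j, hj⟩) := by
  unfold cum
  rw [← Finset.mul_prod_erase Finset.univ _ (Finset.mem_univ (⟨j, hj⟩ : Fin n)),
    ← Finset.mul_prod_erase Finset.univ (fun l : Fin n => if (l : ℕ) < j then deg (g l) else 1)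
      (Finset.mem_univ (⟨j, hj⟩ : Fin n))]
  have h1 : ∀ l ∈ Finset.univ.erase (⟨j, hj⟩ : Fin n),
      (if (l : ℕ) < j + 1 then deg (g l) else 1) = if (l : ℕ) < j then deg (g l) else 1 := by
    intro l hl
    have h2 : (l : ℕ) ≠ j := fun h => (Finset.mem_erase.1 hl).1 (Fin.ext h)
    by_cases h3 : (l : ℕ) < j
    · rw [if_pos h3, if_pos (by omega)]
    · rw [if_neg h3, if_neg (by omega)]
  rw [Finset.prod_congr rfl h1]
  simp [mul_comm]

theorem cum_tail (deg : Γ →* U) {n : ℕ} (g : Fin (n + 1) → Γ) (j : ℕ) :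
    cum deg g (j + 1) = deg (g 0) * cum deg (fun i => g i.succ) j := by
  unfold cum
  rw [Fin.prod_univ_succ]
  simp

theorem cum_contract_le (deg : Γ →* U) {n : ℕ} (g : Fin (n + 1) → Γ) (j : Fin (n + 1)) (i : ℕ)
    (hi : i ≤ j) : cum deg (Fin.contractNth j (· * ·) g) i = cum deg g i := by
  induction i with
  | zero => rw [cum_zero, cum_zero]
  | succ i ih =>
    have h1 : i < n := by have := j.2; omega
    rw [cum_succ _ _ _ h1, cum_succ _ _ _ (by omega), ih (by omega)]
    congr 2
    rw [Fin.contractNth_apply_of_lt _ _ _ _ (by simp; omega)]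
    rfl

theorem cum_contract_gt (deg : Γ →* U) {n : ℕ} (g : Fin (n + 1) → Γ) (j : Fin (n + 1)) (i : ℕ)
    (hi : (j : ℕ) < i) (hin : i ≤ n) :
    cum deg (Fin.contractNth j (· * ·) g) i = cum deg g (i + 1) := by
  induction i with
  | zero => omega
  | succ i ih =>
    rcases Nat.lt_or_ge (j : ℕ) i with h | h
    · rw [cum_succ _ _ _ (by omega), cum_succ _ g (i + 1) (by omega), ih h (by omega)]
      congr 2
      rw [Fin.contractNth_apply_of_gt _ _ _ _ (by simpa using h)]
      rfl
    · have hij : i = j := by omega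
      rw [cum_succ _ _ _ (by omega), cum_contract_le deg g j i (by omega), cum_succ _ g (i + 1)
        (by omega), cum_succ _ g i (by omega), mul_assoc, ← map_mul]
      congr 2
      rw [Fin.contractNth_apply_of_eq _ _ _ _ (by simp; omega)]
      rfl

/-- left inverse of the inclusion -/
noncomputable def lf (ι : N →* Γ) (x : Γ) : N := Function.invFun ι x

theorem lf_spec (ι : N →* Γ) (x : Γ) (hx : x ∈ ι.range) : ι (lf ι x) = x :=
  Function.invFun_eq (MonoidHom.mem_range.1 hx)

theorem lf_mul (ι : N →* Γ) (hι : Function.Injective ι) (x y : Γ) (hx : x ∈ ι.range)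
    (hy : y ∈ ι.range) : lf ι (x * y) = lf ι x * lf ι y := by
  apply hι
  rw [map_mul, lf_spec ι _ (mul_mem hx hy), lf_spec ι x hx, lf_spec ι y hy]

/-- the edge element of N -/
noncomputable def edg (ι : N →* Γ) (s : U → Γ) (v w : U) (x : Γ) : N :=
  lf ι ((s v)⁻¹ * x * s w)

/-- transport of a path to N -/
noncomputable def psi (ι : N →* Γ) (deg : Γ →* U) (s : U → Γ) {n : ℕ} (g : Fin n → Γ) (m : U) :
    Fin n → N :=
  fun i => edg ι s ((cum deg g i)⁻¹ * m) ((cum deg g (i + 1))⁻¹ * m) (g i)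

theorem psi_tail (ι : N →* Γ) (deg : Γ →* U) (s : U → Γ) {n : ℕ} (g : Fin (n + 1) → Γ) (m : U) :
    psi ι deg s (fun i => g i.succ) ((deg (g 0))⁻¹ * m) = fun i => psi ι deg s g m i.succ := by
  funext i
  unfold psi
  rw [Fin.val_succ, cum_tail deg g i, cum_tail deg g (i + 1)]
  congr 1
  · rw [mul_inv, mul_left_comm, ← mul_assoc]
  · rw [mul_inv, mul_left_comm, ← mul_assoc]

theorem edge_deg (deg : Γ →* U) {n : ℕ} (g : Fin n → Γ) (m : U) (i : ℕ) (hi : i < n) :
    ((cum deg g i)⁻¹ * m)⁻¹ * deg (g ⟨i, hi⟩) * ((cum deg g (i + 1))⁻¹ * m) = 1 := by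
  rw [cum_succ deg g i hi]
  group

theorem psi_contract (ι : N →* Γ) (hι : Function.Injective ι) (deg : Γ →* U)
    (hker : ∀ g, deg g = 1 ↔ g ∈ ι.range) (s : U → Γ) (hs : ∀ m, deg (s m) = m)
    {n : ℕ} (g : Fin (n + 1) → Γ) (j : Fin (n + 1)) (m : U) :
    psi ι deg s (Fin.contractNth j (· * ·) g) m = Fin.contractNth j (· * ·) (psi ι deg s g m) := by
  funext i
  rcases lt_trichotomy (i : ℕ) j with h | h | h
  · rw [Fin.contractNth_apply_of_lt _ _ _ _ h]
    unfold psi
    rw [cum_contract_le deg g j i (by omega), cum_contract_le deg g j (i + 1) (by omega),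
      Fin.contractNth_apply_of_lt _ _ _ _ h]
    rfl
  · rw [Fin.contractNth_apply_of_eq _ _ _ _ h]
    unfold psi
    rw [cum_contract_le deg g j i (by omega), cum_contract_gt deg g j (i + 1) (by omega)
      (by omega), Fin.contractNth_apply_of_eq _ _ _ _ h]
    unfold edg
    rw [← lf_mul ι hι]
    · congr 1
      simp only [Fin.val_castSucc, Fin.val_succ]
      group
    · rw [← hker]
      simp only [map_mul, map_inv, hs]
      exact edge_deg deg g m i (by omega)
    · rw [← hker]
      simp only [map_mul, map_inv, hs]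
      exact edge_deg deg g m (i + 1) (by omega)
  · rw [Fin.contractNth_apply_of_gt _ _ _ _ h]
    unfold psi
    rw [cum_contract_gt deg g j i (by omega) (by omega), cum_contract_gt deg g j (i + 1)
      (by omega) (by omega), Fin.contractNth_apply_of_gt _ _ _ _ h]
    rfl

/-- the chain map C(Γ; ℚ[U]) → C(N; ℚ) -/
noncomputable def Phi (ι : N →* Γ) (deg : Γ →* U) (s : U → Γ) (n : ℕ) :
    ((Fin n → Γ) →₀ MonoidAlgebra ℚ U) →+ ((Fin n → N) →₀ ℚ) :=
  Finsupp.liftAddHom fun g => (Finsupp.mapDomain.addMonoidHom (psi ι deg s g)).comp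
    (MonoidAlgebra.coeffAddEquiv : MonoidAlgebra ℚ U ≃+ (U →₀ ℚ)).toAddMonoidHom

theorem Phi_single (ι : N →* Γ) (deg : Γ →* U) (s : U → Γ) (n : ℕ) (g : Fin n → Γ) (m : U)
    (q : ℚ) : Phi ι deg s n (Finsupp.single g (MonoidAlgebra.single m q)) =
      Finsupp.single (psi ι deg s g m) q := by
  unfold Phi
  rw [Finsupp.liftAddHom_apply_single]
  change Finsupp.mapDomain (psi ι deg s g) (MonoidAlgebra.single m q).coeff = _
  rw [MonoidAlgebra.coeff_single, Finsupp.mapDomain_single]

theorem Phi_d (ι : N →* Γ) (hι : Function.Injective ι) (deg : Γ →* U)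
    (hker : ∀ g, deg g = 1 ↔ g ∈ ι.range) (s : U → Γ) (hs : ∀ m, deg (s m) = m)
    (n : ℕ) (c : (Fin (n + 1) → Γ) →₀ MonoidAlgebra ℚ U) :
    Phi ι deg s n (dch (MonoidAlgebra ℚ U) (uL deg) n c) = dN N n (Phi ι deg s (n + 1) c) := by
  induction c using Finsupp.induction_linear with
  | zero => simp
  | add f g hf hg => simp only [map_add, hf, hg]
  | single g p =>
    induction p using MonoidAlgebra.induction_linear with
    | zero => simp
    | add f g hf hg => simp only [map_add, hf, hg, Finsupp.single_add]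
    | single m q =>
      rw [Phi_single, dch_single, dN_single, map_add, map_sum, uL_apply,
        MonoidAlgebra.single_mul_single, Phi_single, one_mul, map_inv, psi_tail]
      congr 1
      refine Finset.sum_congr rfl fun j _ => ?_
      rw [← psi_contract ι hι deg hker s hs, Finsupp.smul_single, Finsupp.smul_single]
      rcases Nat.even_or_odd ((j : ℕ) + 1) with h | h
      · rw [h.neg_one_pow, h.neg_one_pow, one_smul, one_smul, Phi_single]
      · rw [h.neg_one_pow, h.neg_one_pow, neg_one_smul, neg_one_smul, Finsupp.single_neg, map_neg,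
          Phi_single, Finsupp.single_neg]

/-- deg-zero chains are transported by conjugation -/
theorem Phi_inc (ι : N →* Γ) (hι : Function.Injective ι) (deg : Γ →* U)
    (hker : ∀ g, deg g = 1 ↔ g ∈ ι.range) (s : U → Γ)
    (c : U → (N →* N)) (hc : ∀ m x, ι (c m x) = (s m)⁻¹ * ι x * s m)
    (n : ℕ) (p : MonoidAlgebra ℚ U) (f : (Fin n → N) →₀ ℚ) :
    Phi ι deg s n (p • incC ι (MonoidAlgebra ℚ U) n f) =
      p.coeff.sum fun m q => q • Finsupp.mapDomain (fun g => c m ∘ g) f := by
  induction f using Finsupp.induction_linear with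
  | zero => simp
  | add f g hf hg => simp only [map_add, smul_add, hf, hg, Finsupp.mapDomain_add, Finsupp.sum_add]
  | single g r =>
    rw [incC_single, Finsupp.smul_single]
    have hcum : ∀ i : ℕ, cum deg (ι ∘ g) i = 1 := by
      intro i
      unfold cum
      refine Finset.prod_eq_one fun l _ => ?_
      split_ifs
      · exact (hker _).2 ⟨g l, rfl⟩
      · rfl
    have hpsi : ∀ m : U, psi ι deg s (ι ∘ g) m = c m ∘ g := by
      intro m
      funext i
      unfold psi edg
      rw [hcum, hcum, inv_one, one_mul]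
      change lf ι ((s m)⁻¹ * ι (g i) * s m) = c m (g i)
      rw [← hc]
      exact Function.leftInverse_invFun hι _
    induction p using MonoidAlgebra.induction_linear with
    | zero => simp
    | add a b ha hb =>
      rw [add_smul, Finsupp.single_add, map_add, ha, hb, MonoidAlgebra.coeff_add,
        Finsupp.sum_add_index']
      · intro m; rw [zero_smul]
      · intro m x y; rw [add_smul]
    | single m q =>
      rw [MonoidAlgebra.coeff_single, Finsupp.sum_single_index (by rw [zero_smul]),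
        Finsupp.mapDomain_single, Finsupp.smul_single]
      have h1 : (MonoidAlgebra.single m q : MonoidAlgebra ℚ U) •
          (algebraMap ℚ (MonoidAlgebra ℚ U)) r = MonoidAlgebra.single m (q • r) := by
        rw [smul_eq_mul, mul_comm, ← Algebra.smul_def, MonoidAlgebra.smul_single, smul_eq_mul,
          smul_eq_mul, mul_comm]
      rw [h1, Phi_single, hpsi]

/-- the operator on H_i(N; ℚ) induced by an endomorphism of N -/
noncomputable def hm (c : N →* N) (i : ℕ) :
    groupHomology (Rep.trivial ℚ N ℚ) i →ₗ[ℚ] groupHomology (Rep.trivial ℚ N ℚ) i :=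
  (groupHomology.map (A := Rep.trivial ℚ N ℚ) (B := Rep.trivial ℚ N ℚ) c
    (𝟙 (Rep.trivial ℚ N ℚ)) i).hom

theorem iCycles_map (c : N →* N) (i : ℕ) (z : groupHomology.cycles (Rep.trivial ℚ N ℚ) i) :
    (groupHomology.iCycles (Rep.trivial ℚ N ℚ) i
      (groupHomology.cyclesMap (A := Rep.trivial ℚ N ℚ) (B := Rep.trivial ℚ N ℚ) c
        (𝟙 (Rep.trivial ℚ N ℚ)) i z) : (Fin i → N) →₀ ℚ) =
      Finsupp.mapDomain (fun g => c ∘ g)
        (groupHomology.iCycles (Rep.trivial ℚ N ℚ) i z : (Fin i → N) →₀ ℚ) := by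
  have h1 := HomologicalComplex.cyclesMap_i (groupHomology.chainsMap (A := Rep.trivial ℚ N ℚ)
    (B := Rep.trivial ℚ N ℚ) c (𝟙 (Rep.trivial ℚ N ℚ))) i
  have h2 := congrArg (fun f => f.hom z) h1
  refine h2.trans ?_
  rw [groupHomology.chainsMap_f]
  change Finsupp.mapRange.linearMap (LinearMap.id : ℚ →ₗ[ℚ] ℚ)
    (Finsupp.mapDomain (fun g => c ∘ g)
        (groupHomology.iCycles (Rep.trivial ℚ N ℚ) i z : (Fin i → N) →₀ ℚ)) = _
  rw [Finsupp.mapRange.linearMap_id]
  rfl

theorem clear_den {Λ R : Type} [CommRing Λ] [CommRing R] [Algebra Λ R] (M : Submonoid Λ)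
    [IsLocalization M R] {X : Type} (e : X →₀ R) :
    ∃ p ∈ M, ∃ e' : X →₀ Λ,
      Finsupp.mapRange.addMonoidHom (algebraMap Λ R : Λ →+ R) e' = (algebraMap Λ R p) • e := by
  classical
  obtain ⟨b, hb⟩ := IsLocalization.exist_integer_multiples M e.support e
  choose! a ha using hb
  refine ⟨b, b.2, ∑ x ∈ e.support, Finsupp.single x (a x), ?_⟩
  rw [map_sum]
  ext x
  rw [Finsupp.finsetSum_apply, Finsupp.smul_apply]
  by_cases hx : x ∈ e.support
  · rw [Finset.sum_eq_single x]
    · simp only [Finsupp.mapRange.addMonoidHom_apply, Finsupp.mapRange_single,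
        Finsupp.single_eq_same]
      have := ha x hx
      simp only [AddMonoidHom.coe_coe]
      rw [this, Algebra.smul_def']
      rfl
    · intro y _ hy
      simp [hy]
    · intro h; exact absurd hx h
  · rw [Finset.sum_eq_zero, Finsupp.notMem_support_iff.1 hx, smul_zero]
    intro y hy
    have : y ≠ x := fun h => hx (h ▸ hy)
    simp [this]

theorem dch_map {Λ R : Type} [CommRing Λ] [CommRing R] [Algebra Λ R] (u : Γ →* Λ) (n : ℕ)
    (c : (Fin (n + 1) → Γ) →₀ Λ) :
    dch R ((algebraMap Λ R : Λ →* R).comp u) n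
      (Finsupp.mapRange.addMonoidHom (algebraMap Λ R : Λ →+ R) c) =
      Finsupp.mapRange.addMonoidHom (algebraMap Λ R : Λ →+ R) (dch Λ u n c) := by
  induction c using Finsupp.induction_linear with
  | zero => simp
  | add f g hf hg => simp only [map_add, hf, hg]
  | single g q =>
    rw [dch_single, map_add, map_sum]
    simp only [Finsupp.mapRange.addMonoidHom_apply, Finsupp.mapRange_single]
    rw [dch_single]
    congr 1
    · simp
    · refine Finset.sum_congr rfl fun j _ => ?_
      rw [Finsupp.smul_single, Finsupp.smul_single, Finsupp.mapRange_single]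
      congr 1
      simp

theorem dch_smul (R : Type) [CommRing R] (u : Γ →* R) (n : ℕ) (r : R)
    (c : (Fin (n + 1) → Γ) →₀ R) : dch R u n (r • c) = r • dch R u n c :=
  (groupHomology.inhomogeneousChains.d (chRep R u) n).hom.map_smul r c

theorem incC_map (ι : N →* Γ) {Λ R : Type} [CommRing Λ] [CommRing R] [Algebra ℚ Λ] [Algebra ℚ R]
    [Algebra Λ R] [IsScalarTower ℚ Λ R] (n : ℕ) (p : Λ) (f : (Fin n → N) →₀ ℚ) :
    Finsupp.mapRange.addMonoidHom (algebraMap Λ R : Λ →+ R) (p • incC ι Λ n f) =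
      (algebraMap Λ R p) • incC ι R n f := by
  induction f using Finsupp.induction_linear with
  | zero => simp
  | add f g hf hg => simp only [map_add, smul_add, hf, hg]
  | single g q =>
    rw [incC_single, incC_single, Finsupp.smul_single, Finsupp.smul_single,
      Finsupp.mapRange.addMonoidHom_apply, Finsupp.mapRange_single]
    congr 1
    rw [IsScalarTower.algebraMap_apply ℚ Λ R, smul_eq_mul, smul_eq_mul, ← map_mul]
    rfl

theorem chain_torsion (ι : N →* Γ) (hι : Function.Injective ι) (deg : Γ →* U)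
    (hker : ∀ g, deg g = 1 ↔ g ∈ ι.range) (s : U → Γ) (hs : ∀ m, deg (s m) = m)
    (c : U → (N →* N)) (hc : ∀ m x, ι (c m x) = (s m)⁻¹ * ι x * s m)
    (R : Type) [CommRing R] [Algebra (MonoidAlgebra ℚ U) R] [Algebra ℚ R]
    [IsScalarTower ℚ (MonoidAlgebra ℚ U) R]
    (M : Submonoid (MonoidAlgebra ℚ U)) [IsLocalization M R]
    (hM : M ≤ nonZeroDivisors (MonoidAlgebra ℚ U)) (i : ℕ)
    (f : (Fin i → N) →₀ ℚ) (e : (Fin (i + 1) → Γ) →₀ R)
    (he : dch R ((algebraMap (MonoidAlgebra ℚ U) R : MonoidAlgebra ℚ U →* R).comp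
      (uL deg)) i e = incC ι R i f) :
    ∃ p ∈ M, ∃ y : (Fin (i + 1) → N) →₀ ℚ,
      dN N i y = p.coeff.sum fun m q => q • Finsupp.mapDomain (fun g => c m ∘ g) f := by
  have hinj : Function.Injective (algebraMap (MonoidAlgebra ℚ U) R) :=
    IsLocalization.injective R hM
  obtain ⟨p, hp, e', he'⟩ := clear_den (Λ := MonoidAlgebra ℚ U) (R := R)
    (X := Fin (i + 1) → Γ) M e
  have h1 : dch (MonoidAlgebra ℚ U) (uL deg) i e' = p • incC ι (MonoidAlgebra ℚ U) i f := by
    apply Finsupp.mapRange_injective (algebraMap (MonoidAlgebra ℚ U) R) (map_zero _) hinj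
    change Finsupp.mapRange.addMonoidHom (algebraMap (MonoidAlgebra ℚ U) R :
      MonoidAlgebra ℚ U →+ R) _ = Finsupp.mapRange.addMonoidHom
        (algebraMap (MonoidAlgebra ℚ U) R : MonoidAlgebra ℚ U →+ R) _
    rw [← dch_map, he', dch_smul, he, incC_map]
  refine ⟨p, hp, Phi ι deg s (i + 1) e', ?_⟩
  have h2 := congrArg (Phi ι deg s i) h1
  rw [Phi_d ι hι deg hker s hs, Phi_inc ι hι deg hker s c hc] at h2
  exact h2

theorem dN_cycle (i : ℕ) (z : groupHomology.cycles (Rep.trivial ℚ N ℚ) (i + 1)) :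
    dN N i (groupHomology.iCycles (Rep.trivial ℚ N ℚ) (i + 1) z) = 0 := by
  have h2 := (groupHomology.inhomogeneousChains (Rep.trivial ℚ N ℚ)).iCycles_d (i + 1) i
  have h3 := congrArg (fun φ => φ.hom z) h2
  rw [groupHomology.inhomogeneousChains.d_def] at h3
  exact h3

theorem inc_cycle (ι : N →* Γ) (R : Type) [CommRing R] [Algebra ℚ R] (u : Γ →* R)
    (hu : ∀ x : N, u (ι x) = 1) (i : ℕ) (z : groupHomology.cycles (Rep.trivial ℚ N ℚ) i) :
    (groupHomology.inhomogeneousChains (chRep R u)).d i ((ComplexShape.down ℕ).next i)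
        (incC ι R i (groupHomology.iCycles (Rep.trivial ℚ N ℚ) i z)) = 0 := by
  rcases i with _ | n
  · rw [HomologicalComplex.shape _ _ _ (by simp [ComplexShape.down])]
    rfl
  · have hn : (ComplexShape.down ℕ).next (n + 1) = n := ChainComplex.next_nat_succ n
    rw [hn, groupHomology.inhomogeneousChains.d_def]
    change dch R _ n (incC ι R (n + 1) _) = 0
    rw [← incC_d ι R _ hu n, dN_cycle, map_zero]

/-- a cycle whose underlying chain is a boundary is zero in homology -/
theorem pi_zero (i : ℕ) (z : groupHomology.cycles (Rep.trivial ℚ N ℚ) i)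
    (y : (Fin (i + 1) → N) →₀ ℚ)
    (h : dN N i y = groupHomology.iCycles (Rep.trivial ℚ N ℚ) i z) :
    groupHomology.π (Rep.trivial ℚ N ℚ) i z = 0 := by
  have h1 : z = groupHomology.toCycles (Rep.trivial ℚ N ℚ) (i + 1) i y := by
    have hinj : Function.Injective (groupHomology.iCycles (Rep.trivial ℚ N ℚ) i) :=
      (ModuleCat.mono_iff_injective _).1 inferInstance
    apply hinj
    rw [← h]
    have h2 := (groupHomology.inhomogeneousChains (Rep.trivial ℚ N ℚ)).toCycles_i (i + 1) i
    have h3 := congrArg (fun φ => φ.hom y) h2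
    rw [groupHomology.inhomogeneousChains.d_def] at h3
    exact h3.symm
  rw [h1]
  have h2 := (groupHomology.inhomogeneousChains (Rep.trivial ℚ N ℚ)).toCycles_comp_homologyπ
    (i + 1) i
  exact congrArg (fun φ => φ.hom y) h2

/-- cycle level operator -/
noncomputable def zm (c : N →* N) (i : ℕ) :
    groupHomology.cycles (Rep.trivial ℚ N ℚ) i →ₗ[ℚ] groupHomology.cycles (Rep.trivial ℚ N ℚ) i :=
  (groupHomology.cyclesMap (A := Rep.trivial ℚ N ℚ) (B := Rep.trivial ℚ N ℚ) c
    (𝟙 (Rep.trivial ℚ N ℚ)) i).hom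

theorem hm_pi (c : N →* N) (i : ℕ) (z : groupHomology.cycles (Rep.trivial ℚ N ℚ) i) :
    hm c i ((groupHomology.π (Rep.trivial ℚ N ℚ) i).hom z) =
      (groupHomology.π (Rep.trivial ℚ N ℚ) i).hom (zm c i z) := by
  have h := groupHomology.π_map (A := Rep.trivial ℚ N ℚ) (B := Rep.trivial ℚ N ℚ) c
    (𝟙 (Rep.trivial ℚ N ℚ)) i
  exact congrArg (fun φ => φ.hom z) h

theorem torsion_of_van (ι : N →* Γ) (hι : Function.Injective ι) (deg : Γ →* U)
    (hker : ∀ g, deg g = 1 ↔ g ∈ ι.range) (s : U → Γ) (hs : ∀ m, deg (s m) = m)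
    (c : U → (N →* N)) (hc : ∀ m x, ι (c m x) = (s m)⁻¹ * ι x * s m)
    (R : Type) [CommRing R] [Algebra (MonoidAlgebra ℚ U) R]
    (M : Submonoid (MonoidAlgebra ℚ U)) [IsLocalization M R]
    (hM : M ≤ nonZeroDivisors (MonoidAlgebra ℚ U)) (i : ℕ)
    (hv : Van (chRep R ((algebraMap (MonoidAlgebra ℚ U) R : MonoidAlgebra ℚ U →* R).comp
      (uL deg))) i)
    (x : groupHomology (Rep.trivial ℚ N ℚ) i) :
    ∃ p ∈ M, (p.coeff.sum fun m q => q • hm (c m) i x) = 0 := by
  let _ : Algebra ℚ R := ((algebraMap (MonoidAlgebra ℚ U) R).comp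
    (algebraMap ℚ (MonoidAlgebra ℚ U))).toAlgebra
  have _ : IsScalarTower ℚ (MonoidAlgebra ℚ U) R := IsScalarTower.of_algebraMap_eq fun _ => rfl
  induction x using groupHomology_induction_on with
  | h z =>
  have hu : ∀ x : N, ((algebraMap (MonoidAlgebra ℚ U) R : MonoidAlgebra ℚ U →* R).comp
      (uL deg)) (ι x) = 1 := by
    intro x
    have : deg (ι x) = 1 := (hker _).2 ⟨x, rfl⟩
    rw [MonoidHom.comp_apply, uL_apply, this]
    exact map_one _
  obtain ⟨e, he⟩ := van_exact _ i hv _ (inc_cycle ι R _ hu i z)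
  obtain ⟨p, hp, y, hy⟩ := chain_torsion ι hι deg hker s hs c hc R M hM i
    (groupHomology.iCycles (Rep.trivial ℚ N ℚ) i z) e he
  refine ⟨p, hp, ?_⟩
  have h3 : (p.coeff.sum fun m q => q • hm (c m) i
      ((groupHomology.π (Rep.trivial ℚ N ℚ) i).hom z)) =
      (groupHomology.π (Rep.trivial ℚ N ℚ) i).hom
        (p.coeff.sum fun m q => q • zm (c m) i z) := by
    rw [Finsupp.sum, Finsupp.sum, map_sum]
    refine Finset.sum_congr rfl fun m _ => ?_
    rw [map_smul, hm_pi]
  rw [h3]
  apply pi_zero i _ y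
  rw [hy, Finsupp.sum, Finsupp.sum, map_sum]
  refine Finset.sum_congr rfl fun m _ => ?_
  rw [map_smul]
  exact congrArg (fun t => p.coeff m • t) (iCycles_map (c m) i z).symm

end torsion

end Pool.Agent.TOR
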